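import Mathlib

-- part MP_ab7c65_al.Nilp
section

/-!
Nilpotency of the normal closure in the vertex groups.
-/

set_option autoImplicit false

namespace Pool.Agent.MP_ab7c65_al

variable {P : Type*} [Group P]

/-- the two families of relations for the conjugates `a i` -/
def Rel (ν : ℤ) (a : ℤ → P) : Prop :=
  ∀ i : ℤ, Commute (a i) (a (i + 1)) ∧
    a (i + 2) ^ (6 * (4 * ν) ^ 2) =
      a (i + 1) ^ (4 * (4 * ν) ^ 3) * a i ^ (-(4 * ν) ^ 4) * a (i + 3) ^ (4 * (4 * ν)) *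
        (a (i + 4))⁻¹

/-- commutator with the convention x⁻¹ y⁻¹ x y -/
def cm (x y : P) : P := x⁻¹ * y⁻¹ * x * y

lemma conj_of_cm {x y c : P} (h : cm x y = c) : y⁻¹ * x * y = x * c := by
  rw [← h, cm]; group

lemma cm_of_conj {x y c : P} (h : y⁻¹ * x * y = x * c) : cm x y = c := by
  have : cm x y = x⁻¹ * (y⁻¹ * x * y) := by rw [cm]; group
  rw [this, h]; group

/-- `Q x c g w`: conjugation by `g` multiplies `x` by `c ^ w`, and `g` commutes with `c` -/
def Q (x c g : P) (w : ℤ) : Prop := g⁻¹ * x * g = x * c ^ w ∧ Commute g c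

lemma Q.mul {x c g h : P} {w w' : ℤ} (h1 : Q x c g w) (h2 : Q x c h w') :
    Q x c (g * h) (w + w') := by
  refine ⟨?_, h1.2.mul_left h2.2⟩
  have e1 : (g * h)⁻¹ * x * (g * h) = h⁻¹ * (g⁻¹ * x * g) * h := by group
  have e2 : c ^ w * h = h * c ^ w := ((h2.2.zpow_right w).eq).symm
  rw [e1, h1.1]
  calc h⁻¹ * (x * c ^ w) * h = h⁻¹ * x * (c ^ w * h) := by group
    _ = (h⁻¹ * x * h) * c ^ w := by rw [e2]; group
    _ = x * c ^ (w + w') := by rw [h2.1, add_comm w w', zpow_add]; group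

lemma Q.one (x c : P) : Q x c 1 0 := ⟨by simp, Commute.one_left c⟩

lemma Q.inv {x c g : P} {w : ℤ} (h1 : Q x c g w) : Q x c g⁻¹ (-w) := by
  refine ⟨?_, h1.2.inv_left⟩
  have e2 : c ^ w * g⁻¹ = g⁻¹ * c ^ w := ((h1.2.inv_left.zpow_right w).eq).symm
  have e3 : x = g * (x * c ^ w) * g⁻¹ := by rw [← h1.1]; group
  have e4 : x = g * x * g⁻¹ * c ^ w := by
    calc x = g * x * (c ^ w * g⁻¹) := by rw [e3]; rw [← e3]; group; exact e3.trans (by group)
      _ = g * x * g⁻¹ * c ^ w := by rw [e2]; group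
  rw [inv_inv, zpow_neg, eq_mul_inv_iff_mul_eq]
  exact e4.symm

lemma Q.pow {x c g : P} {w : ℤ} (h1 : Q x c g w) (n : ℕ) : Q x c (g ^ n) (n * w) := by
  induction n with
  | zero => simpa using Q.one x c
  | succ n ih =>
    have := ih.mul h1
    rw [← pow_succ] at this
    convert this using 1
    push_cast; ring

lemma Q.zpow {x c g : P} {w : ℤ} (h1 : Q x c g w) (n : ℤ) : Q x c (g ^ n) (n * w) := by
  cases n with
  | ofNat n => simpa using h1.pow n
  | negSucc n =>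
    have := (h1.pow (n + 1)).inv
    rw [zpow_negSucc]
    convert this using 1
    rw [Int.negSucc_eq]; push_cast; ring

lemma Q.of_commute {x c g : P} (h : Commute x g) (hc : Commute g c) : Q x c g 0 := by
  refine ⟨?_, hc⟩
  rw [mul_assoc, h.eq]; simp

/-- bilinearity of a commutator that commutes with both entries -/
lemma cm_zpow {x y c : P} (h : cm x y = c) (hx : Commute x c) (hy : Commute y c) (m n : ℤ) :
    cm (x ^ m) (y ^ n) = c ^ (m * n) := by
  have q : Q x c y 1 := ⟨by simpa using conj_of_cm h, hy⟩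
  have q2 := (q.zpow n).1
  apply cm_of_conj
  have : (y ^ n)⁻¹ * x ^ m * y ^ n = ((y ^ n)⁻¹ * x * y ^ n) ^ m := by
    have := conj_zpow (i := m) (a := (y ^ n)⁻¹) (b := x)
    rw [inv_inv] at this
    exact this.symm
  rw [this, q2, (hx.zpow_right _).mul_zpow, ← zpow_mul]
  congr 2; ring

section core
variable {x0 x1 x2 x3 X Y Z : P}

lemma core_form2 (hv : Commute X (Z * x3⁻¹)) : cm x3 X = cm Z X := by
  have e : X⁻¹ * (x3 * Z⁻¹) = (x3 * Z⁻¹) * X⁻¹ := by
    have := hv.inv_inv.eq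
    simpa using this
  have e2 : X⁻¹ * x3 = x3 * Z⁻¹ * X⁻¹ * Z := by rw [← e]; group
  unfold cm
  calc x3⁻¹ * X⁻¹ * x3 * X = x3⁻¹ * (X⁻¹ * x3) * X := by group
    _ = Z⁻¹ * X⁻¹ * Z * X := by rw [e2]; group

lemma core_form3 (hu : Commute (Y * X⁻¹) x3) : cm x3 X = cm x3 Y := by
  have e : (Y * X⁻¹) * x3 = x3 * (Y * X⁻¹) := hu.eq
  have e2 : X⁻¹ * x3 * X = Y⁻¹ * x3 * Y := by
    calc X⁻¹ * x3 * X = Y⁻¹ * ((Y * X⁻¹) * x3) * X := by group
      _ = Y⁻¹ * x3 * Y := by rw [e]; group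
  unfold cm
  calc x3⁻¹ * X⁻¹ * x3 * X = x3⁻¹ * (X⁻¹ * x3 * X) := by group
    _ = x3⁻¹ * Y⁻¹ * x3 * Y := by rw [e2]; group

lemma commute_cm {g x y : P} (h1 : Commute g x) (h2 : Commute g y) : Commute g (cm x y) :=
  ((h1.inv_right.mul_right h2.inv_right).mul_right h1).mul_right h2

lemma commute_conj {x y : P} (g : P) (h : Commute x y) :
    Commute (g⁻¹ * x * g) (g⁻¹ * y * g) := by
  have := h.eq
  unfold Commute SemiconjBy
  calc g⁻¹ * x * g * (g⁻¹ * y * g) = g⁻¹ * (x * y) * g := by group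
    _ = g⁻¹ * y * g * (g⁻¹ * x * g) := by rw [this]; group

lemma cancel_comm {c z x : P} (h1 : Commute (z * c) (x * c)) (h2 : Commute z c)
    (h3 : Commute z x) : Commute x c := by
  have e1 : z * c * (x * c) = x * c * (z * c) := h1.eq
  have e2 : x * c * (z * c) = z * x * c * c := by
    calc x * c * (z * c) = x * (c * z) * c := by group
      _ = (x * z) * c * c := by rw [← h2.eq]; group
      _ = z * x * c * c := by rw [h3.eq]
  rw [e2] at e1
  have e3 : c * x = x * c := by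
    have : z * (c * x) * c = z * (x * c) * c := by
      calc z * (c * x) * c = z * c * (x * c) := by group
        _ = z * (x * c) * c := by rw [e1]; group
    exact mul_left_cancel (mul_right_cancel this)
  exact e3.symm

lemma cancel_comm' {c z x : P} (h1 : Commute (c * z) (c * x)) (h2 : Commute z c)
    (h3 : Commute z x) : Commute x c := by
  have := cancel_comm (c := c⁻¹) (z := z⁻¹) (x := x⁻¹) (by simpa using h1.inv_inv)
    h2.inv_inv h3.inv_inv
  simpa using this.inv_inv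

end core

namespace Rel
variable {ν : ℤ} {a : ℤ → P}

lemma hC (h : Rel ν a) {i j : ℤ} (hj : j = i + 1) : Commute (a i) (a j) := hj ▸ (h i).1

lemma hR (h : Rel ν a) {i j1 j2 j3 j4 : ℤ} (h1 : j1 = i + 1) (h2 : j2 = i + 2) (h3 : j3 = i + 3)
    (h4 : j4 = i + 4) : a j2 ^ (6 * (4 * ν) ^ 2) =
      a j1 ^ (4 * (4 * ν) ^ 3) * a i ^ (-(4 * ν) ^ 4) * a j3 ^ (4 * (4 * ν)) * (a j4)⁻¹ := by
  subst h1 h2 h3 h4; exact (h i).2

lemma h4 (h : Rel ν a) {i j1 j2 j3 j4 : ℤ} (h1 : j1 = i + 1) (h2 : j2 = i + 2) (h3 : j3 = i + 3)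
    (h4 : j4 = i + 4) : a j4 = (a j2 ^ (6 * (4 * ν) ^ 2))⁻¹ *
      a j1 ^ (4 * (4 * ν) ^ 3) * (a i ^ ((4 * ν) ^ 4))⁻¹ * a j3 ^ (4 * (4 * ν)) := by
  rw [h.hR h1 h2 h3 h4, zpow_neg]; group

lemma hu (h : Rel ν a) {i j k : ℤ} (hj : j = i + 1) (hk : k = i + 3) :
    Commute (a j ^ (4 * (4 * ν) ^ 3) * (a i ^ ((4 * ν) ^ 4))⁻¹) (a k) := by
  have e := h.hR (j2 := i + 2) (j4 := i + 4) hj rfl hk rfl
  have e2 : a j ^ (4 * (4 * ν) ^ 3) * (a i ^ ((4 * ν) ^ 4))⁻¹ =
      a (i + 2) ^ (6 * (4 * ν) ^ 2) * a (i + 4) * (a k ^ (4 * (4 * ν)))⁻¹ := by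
    rw [e, zpow_neg]; group
  rw [e2]
  have c1 : Commute (a (i + 2)) (a k) := h.hC (by omega)
  have c2 : Commute (a (i + 4)) (a k) := (h.hC (by omega)).symm
  exact ((c1.zpow_left _).mul_left c2).mul_left ((Commute.refl _).zpow_left _).inv_left

lemma hv (h : Rel ν a) {i j k : ℤ} (hj : j = i + 2) (hk : k = i + 3) :
    Commute (a i) (a j ^ (4 * (4 * ν)) * (a k)⁻¹) := by
  have e := h.hR (i := i - 1) (j1 := i) (j2 := i + 1) (j3 := j) (j4 := k) (by omega) (by omega)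
    (by omega) (by omega)
  have e2 : a j ^ (4 * (4 * ν)) * (a k)⁻¹ =
      (a (i - 1) ^ (-(4 * ν) ^ 4))⁻¹ * (a i ^ (4 * (4 * ν) ^ 3))⁻¹ *
        a (i + 1) ^ (6 * (4 * ν) ^ 2) := by
    rw [e]; group
  rw [e2]
  have c1 : Commute (a i) (a (i + 1)) := h.hC rfl
  have c2 : Commute (a i) (a (i - 1)) := (h.hC (by omega)).symm
  exact ((c2.zpow_right _).inv_right.mul_right
    ((Commute.refl _).zpow_right _).inv_right).mul_right (c1.zpow_right _)

end Rel

/-- the basic central element -/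
def cc (ν : ℤ) (a : ℤ → P) (i : ℤ) : P := cm (a (i + 3)) (a i ^ ((4 * ν) ^ 4))

namespace Rel
variable {ν : ℤ} {a : ℤ → P}

lemma cc2 (h : Rel ν a) {i j : ℤ} (hj : j = i + 2) :
    cc ν a i = cm (a j ^ (4 * (4 * ν))) (a i ^ ((4 * ν) ^ 4)) :=
  core_form2 ((h.hv hj rfl).zpow_left _)

lemma cc3 (h : Rel ν a) {i j k : ℤ} (hj : j = i + 1) (hk : k = i + 3) :
    cc ν a i = cm (a k) (a j ^ (4 * (4 * ν) ^ 3)) := by
  subst hk
  exact core_form3 (h.hu hj rfl)

lemma cc_1 (h : Rel ν a) {i j : ℤ} (hj : j = i + 1) : Commute (a j) (cc ν a i) := by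
  rw [h.cc2 rfl]
  exact commute_cm ((h.hC (by omega)).zpow_right _) ((h.hC hj).symm.zpow_right _)

lemma cc_2 (h : Rel ν a) {i j : ℤ} (hj : j = i + 2) : Commute (a j) (cc ν a i) := by
  rw [h.cc3 rfl rfl]
  exact commute_cm (h.hC (by omega)) ((h.hC (by omega)).symm.zpow_right _)

lemma cc_3 (h : Rel ν a) {i j : ℤ} (hj : j = i + 3) : Commute (a j) (cc ν a i) := by
  have e1 := conj_of_cm (h.cc2 (i := i) rfl).symm
  have e2 := conj_of_cm (show cm (a j) (a i ^ ((4 * ν) ^ 4)) = cc ν a i by rw [hj]; rfl)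
  have c1 : Commute (a (i + 2) ^ (4 * (4 * ν))) (a j) := (h.hC (by omega)).zpow_left _
  have c2 := commute_conj (a i ^ ((4 * ν) ^ 4)) c1
  rw [e1, e2] at c2
  exact cancel_comm c2 ((h.cc_2 rfl).zpow_left _) c1

lemma cc_X (h : Rel ν a) (i : ℤ) : Commute (a i ^ ((4 * ν) ^ 4)) (cc ν a i) := by
  have e1 : (a (i + 3))⁻¹ * (a i ^ ((4 * ν) ^ 4))⁻¹ * a (i + 3) =
      cc ν a i * (a i ^ ((4 * ν) ^ 4))⁻¹ := by
    unfold cc cm; group
  have e2 : (a (i + 3))⁻¹ * (a (i + 1) ^ (4 * (4 * ν) ^ 3))⁻¹ * a (i + 3) =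
      cc ν a i * (a (i + 1) ^ (4 * (4 * ν) ^ 3))⁻¹ := by
    rw [h.cc3 rfl rfl]; unfold cm; group
  have c1 : Commute (a (i + 1) ^ (4 * (4 * ν) ^ 3))⁻¹ (a i ^ ((4 * ν) ^ 4))⁻¹ :=
    ((h.hC rfl).symm.zpow_zpow _ _).inv_inv
  have c2 := commute_conj (a (i + 3)) c1
  rw [e1, e2] at c2
  simpa using (cancel_comm' c2 ((h.cc_1 rfl).zpow_left _).inv_left c1).inv_left

lemma cc_ge (h : Rel ν a) (i : ℤ) (n : ℕ) : Commute (a (i + 1 + n)) (cc ν a i) := by
  induction n using Nat.strong_induction_on with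
  | _ n ih =>
    match n, ih with
    | 0, _ => exact h.cc_1 (by omega)
    | 1, _ => exact h.cc_2 (by omega)
    | 2, _ => exact h.cc_3 (by omega)
    | 3, _ =>
      rw [h.h4 (i := i) (j4 := i + 1 + (3 : ℕ)) rfl rfl rfl (by omega)]
      exact ((((h.cc_2 rfl).zpow_left _).inv_left.mul_left ((h.cc_1 rfl).zpow_left _)).mul_left
        (h.cc_X i).inv_left).mul_left ((h.cc_3 rfl).zpow_left _)
    | m + 4, ih =>
      rw [h.h4 (i := i + 1 + m) (j1 := i + 1 + (m + 1 : ℕ)) (j2 := i + 1 + (m + 2 : ℕ))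
        (j3 := i + 1 + (m + 3 : ℕ)) (j4 := i + 1 + (m + 4 : ℕ)) (by omega) (by omega) (by omega)
        (by omega)]
      exact ((((ih (m + 2) (by omega)).zpow_left _).inv_left.mul_left
        ((ih (m + 1) (by omega)).zpow_left _)).mul_left
        ((ih m (by omega)).zpow_left _).inv_left).mul_left ((ih (m + 3) (by omega)).zpow_left _)

lemma cc_succ (h : Rel ν a) {i j : ℤ} (hj : j = i + 1) :
    cc ν a j = cc ν a i ^ ((4 * ν) ^ 2) := by
  have e1 := h.cc2 (i := j) (j := i + 3) (by omega)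
  have e2 := h.cc3 (i := i) (j := j) (k := i + 3) hj rfl
  have e3 := cm_zpow e2.symm (h.cc_3 rfl) ((h.cc_1 hj).zpow_left _) (4 * (4 * ν)) ν
  rw [← zpow_mul] at e3
  rw [e1, show (4 * ν) ^ 4 = 4 * (4 * ν) ^ 3 * ν by ring, e3]
  congr 1; ring

lemma cc_add (h : Rel ν a) (i : ℤ) (n : ℕ) : ∃ w : ℤ, cc ν a (i + n) = cc ν a i ^ w := by
  induction n with
  | zero => exact ⟨1, by simp⟩
  | succ n ih =>
    obtain ⟨w, hw⟩ := ih
    refine ⟨w * (4 * ν) ^ 2, ?_⟩
    rw [h.cc_succ (i := i + n) (by push_cast; ring), hw, zpow_mul]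

lemma cc_central (h : Rel ν a) (i j : ℤ) : Commute (a j) (cc ν a i) := by
  by_cases hij : i + 1 ≤ j
  · have := h.cc_ge i (j - (i + 1)).toNat
    rwa [show i + 1 + ((j - (i + 1)).toNat : ℤ) = j by omega] at this
  · obtain ⟨w, hw⟩ := h.cc_add (j - 1) (i - (j - 1)).toNat
    rw [show j - 1 + ((i - (j - 1)).toNat : ℤ) = i by omega] at hw
    rw [hw]
    exact (h.cc_1 (by omega)).zpow_right _

end Rel

/-- the central commutator of two conjugates at distance two -/
def kap (a : ℤ → P) (i : ℤ) : P := cm (a i) (a (i + 2))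

namespace Rel
variable {ν : ℤ} {a : ℤ → P}

lemma kap_eq (h : Rel ν a) (i : ℤ) : kap a i = cc ν a (i - 3) ^ (-ν) := by
  have e1 := h.cc3 (i := i - 3) (j := i - 2) (k := i) (by omega) (by omega)
  have q0 : Q (a i) (cc ν a (i - 3)) (a (i - 2) ^ (4 * (4 * ν) ^ 3)) 1 :=
    ⟨by simpa using conj_of_cm e1.symm, (h.cc_central _ _).zpow_left _⟩
  have q1 := (q0.zpow ν).inv
  rw [← zpow_mul, show 4 * (4 * ν) ^ 3 * ν = (4 * ν) ^ 4 by ring] at q1
  have qa : Q (a i) (cc ν a (i - 3)) (a i) 0 := Q.of_commute (Commute.refl _) (h.cc_central _ _)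
  have qb : Q (a i) (cc ν a (i - 3)) (a (i - 1)) 0 :=
    Q.of_commute (h.hC (by omega)).symm (h.cc_central _ _)
  have qc : Q (a i) (cc ν a (i - 3)) (a (i + 1)) 0 :=
    Q.of_commute (h.hC rfl) (h.cc_central _ _)
  have q := (((qa.zpow (6 * (4 * ν) ^ 2)).inv.mul (qb.zpow (4 * (4 * ν) ^ 3))).mul q1).mul
    (qc.zpow (4 * (4 * ν)))
  rw [← h.h4 (i := i - 2) (j4 := i + 2) (by omega) (by omega) (by omega) (by omega)] at q
  apply cm_of_conj
  rw [q.1]
  congr 2; ring

lemma kap_central (h : Rel ν a) (i j : ℤ) : Commute (a j) (kap a i) := by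
  rw [h.kap_eq]; exact (h.cc_central _ _).zpow_right _

lemma kap_succ (h : Rel ν a) {i j : ℤ} (hj : j = i + 1) : kap a j = kap a i ^ ((4 * ν) ^ 2) := by
  rw [h.kap_eq, h.kap_eq, h.cc_succ (i := i - 3) (j := j - 3) (by omega), ← zpow_mul, ← zpow_mul,
    mul_comm]

lemma kap_add (h : Rel ν a) (i : ℤ) (n : ℕ) : kap a (i + n) = kap a i ^ ((4 * ν) ^ (2 * n)) := by
  induction n with
  | zero => simp
  | succ n ih =>
    rw [h.kap_succ (i := i + n) (by push_cast; ring), ih, ← zpow_mul]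
    congr 1; ring

lemma Q_far (h : Rel ν a) (i : ℤ) (e : ℕ) : ∃ w : ℤ, Q (a i) (kap a i) (a (i - 1 + e)) w ∧
    6 * (4 * ν) ^ 3 * w = (4 * ν) ^ e * (e * (e - 1) * (e - 2)) := by
  induction e using Nat.strong_induction_on with
  | _ n ih =>
    match n, ih with
    | 0, _ => exact ⟨0, Q.of_commute (h.hC (by omega)).symm (h.kap_central _ _), by simp⟩
    | 1, _ =>
      refine ⟨0, Q.of_commute ?_ (h.kap_central _ _), by simp⟩
      rw [show i - 1 + ((1 : ℕ) : ℤ) = i by omega]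
    | 2, _ => exact ⟨0, Q.of_commute (h.hC (by omega)) (h.kap_central _ _), by simp⟩
    | 3, _ =>
      refine ⟨1, ⟨?_, h.kap_central _ _⟩, by push_cast; ring⟩
      rw [show i - 1 + ((3 : ℕ) : ℤ) = i + 2 by omega, zpow_one]
      exact conj_of_cm rfl
    | m + 4, ih =>
      obtain ⟨w0, q0, e0⟩ := ih m (by omega)
      obtain ⟨w1, q1, e1⟩ := ih (m + 1) (by omega)
      obtain ⟨w2, q2, e2⟩ := ih (m + 2) (by omega)
      obtain ⟨w3, q3, e3⟩ := ih (m + 3) (by omega)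
      have q := (((q2.zpow (6 * (4 * ν) ^ 2)).inv.mul (q1.zpow (4 * (4 * ν) ^ 3))).mul
        (q0.zpow ((4 * ν) ^ 4)).inv).mul (q3.zpow (4 * (4 * ν)))
      rw [← h.h4 (j4 := i - 1 + (m + 4 : ℕ)) (by omega) (by omega) (by omega) (by omega)] at q
      refine ⟨_, q, ?_⟩
      push_cast at *
      linear_combination (-(6 * (4 * ν) ^ 2)) * e2 + (4 * (4 * ν) ^ 3) * e1 - (4 * ν) ^ 4 * e0 +
        (4 * (4 * ν)) * e3

/-- commutators of the generators lie in the group generated by the `kap` -/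
lemma cm_mem (h : Rel ν a) (i j : ℤ) : cm (a i) (a j) ∈ Subgroup.closure (Set.range (kap a)) := by
  have key : ∀ i j : ℤ, i ≤ j → cm (a i) (a j) ∈ Subgroup.closure (Set.range (kap a)) := by
    intro i j hij
    obtain ⟨w, q, -⟩ := h.Q_far i (j - i + 1).toNat
    rw [show i - 1 + ((j - i + 1).toNat : ℤ) = j by omega] at q
    rw [cm_of_conj q.1]
    exact Subgroup.zpow_mem _ (Subgroup.subset_closure (Set.mem_range_self i)) _
  rcases le_total i j with hij | hij
  · exact key i j hij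
  · have : cm (a i) (a j) = (cm (a j) (a i))⁻¹ := by unfold cm; group
    rw [this]
    exact Subgroup.inv_mem _ (key j i hij)

lemma Z_central (h : Rel ν a) {z g : P} (hz : z ∈ Subgroup.closure (Set.range (kap a)))
    (hg : g ∈ Subgroup.closure (Set.range a)) : Commute g z := by
  induction hz using Subgroup.closure_induction with
  | mem x hx =>
    obtain ⟨i, rfl⟩ := hx
    induction hg using Subgroup.closure_induction with
    | mem y hy => obtain ⟨j, rfl⟩ := hy; exact h.kap_central _ _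
    | one => exact Commute.one_left _
    | mul y z _ _ h1 h2 => exact h1.mul_left h2
    | inv y _ h1 => exact h1.inv_left
  | one => exact Commute.one_right _
  | mul y z _ _ h1 h2 => exact h1.mul_right h2
  | inv y _ h1 => exact h1.inv_right

lemma cm_mem_left (h : Rel ν a) {y : P}
    (hy : ∀ i, cm (a i) y ∈ Subgroup.closure (Set.range (kap a))) {g : P}
    (hg : g ∈ Subgroup.closure (Set.range a)) :
    cm g y ∈ Subgroup.closure (Set.range (kap a)) := by
  induction hg using Subgroup.closure_induction with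
  | mem x hx => obtain ⟨j, rfl⟩ := hx; exact hy j
  | one => simp [cm]
  | mul g1 g2 _ m2 h1 h2 =>
    have c := (h.Z_central h1 m2).inv_left.eq
    have : cm (g1 * g2) y = cm g1 y * cm g2 y := by
      calc cm (g1 * g2) y = (g2⁻¹ * cm g1 y) * (y⁻¹ * g2 * y) := by unfold cm; group
        _ = cm g1 y * cm g2 y := by rw [c]; unfold cm; group
    rw [this]; exact Subgroup.mul_mem _ h1 h2
  | inv g m h1 =>
    have c := (h.Z_central h1 m).inv_right.eq
    have : cm g⁻¹ y = (cm g y)⁻¹ := by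
      calc cm g⁻¹ y = (g * (cm g y)⁻¹) * g⁻¹ := by unfold cm; group
        _ = (cm g y)⁻¹ := by rw [c]; group
    rw [this]; exact Subgroup.inv_mem _ h1

/-- the group generated by the `a i` is nilpotent of class two -/
lemma cm_mem_all (h : Rel ν a) {g y : P} (hg : g ∈ Subgroup.closure (Set.range a))
    (hy : y ∈ Subgroup.closure (Set.range a)) :
    cm g y ∈ Subgroup.closure (Set.range (kap a)) := by
  refine h.cm_mem_left (fun i => ?_) hg
  have : cm (a i) y = (cm y (a i))⁻¹ := by unfold cm; group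
  rw [this]
  exact Subgroup.inv_mem _ (h.cm_mem_left (fun j => h.cm_mem j i) hy)

end Rel

/-- the conjugates `b^(-i) a b^i` -/
def cj (a b : P) (i : ℤ) : P := (b ^ i)⁻¹ * a * b ^ i

lemma cj_conj (a b : P) (i j : ℤ) : (b ^ j)⁻¹ * cj a b i * b ^ j = cj a b (i + j) := by
  unfold cj; rw [zpow_add]; group

@[simp] lemma cj_zero (a b : P) : cj a b 0 = a := by simp [cj]

/-- the two relations of a vertex group -/
def Rel0 (ν : ℤ) (a b : P) : Prop :=
  Commute a (cj a b 1) ∧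
    cj a b 2 ^ (6 * (4 * ν) ^ 2) =
      cj a b 1 ^ (4 * (4 * ν) ^ 3) * a ^ (-(4 * ν) ^ 4) * cj a b 3 ^ (4 * (4 * ν)) *
        (cj a b 4)⁻¹

lemma Rel0.rel {ν : ℤ} {a b : P} (h : Rel0 ν a b) : Rel ν (cj a b) := by
  intro i
  let f : P →* P := (MulAut.conj (b ^ i)⁻¹).toMonoidHom
  have hf : ∀ j, f (cj a b j) = cj a b (i + j) := by
    intro j
    rw [add_comm, ← cj_conj]
    show (b ^ i)⁻¹ * cj a b j * ((b ^ i)⁻¹)⁻¹ = _
    rw [inv_inv]
  have hf0 : f a = cj a b i := by simpa using hf 0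
  refine ⟨?_, ?_⟩
  · have := h.1.map f
    rwa [hf0, hf] at this
  · have := congrArg f h.2
    simpa only [map_mul, map_zpow, map_inv, hf, hf0] using this

lemma map_cj {P' : Type*} [Group P'] (f : P →* P') (a b : P) (i : ℤ) :
    f (cj a b i) = cj (f a) (f b) i := by simp [cj]

lemma Rel0.map {P' : Type*} [Group P'] (f : P →* P') {ν : ℤ} {a b : P} (h : Rel0 ν a b) :
    Rel0 ν (f a) (f b) := by
  refine ⟨?_, ?_⟩
  · have := h.1.map f
    rwa [map_cj] at this
  · have := congrArg f h.2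
    simpa only [map_mul, map_zpow, map_inv, map_cj] using this

lemma kap_cj_conj (a b : P) (i j : ℤ) :
    (b ^ j)⁻¹ * kap (cj a b) i * b ^ j = kap (cj a b) (i + j) := by
  unfold kap cm
  rw [show i + j + 2 = i + 2 + j by ring, ← cj_conj a b i j, ← cj_conj a b (i + 2) j]
  generalize cj a b i = x
  generalize cj a b (i + 2) = y
  group

end Pool.Agent.MP_ab7c65_al

end

-- part MP_ab7c65_al.Alg
section

set_option autoImplicit false

namespace Pool.Agent.MP_ab7c65_al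

/-- a proper subgroup containing all commutators lies in the kernel of a nontrivial map to a
group of prime order -/
lemma exists_hom_zmod {K : Type*} [Group K] [Finite K] (S : Subgroup K) (hS : S ≠ ⊤)
    (hc : ∀ g h : K, cm g h ∈ S) :
    ∃ q : ℕ, q.Prime ∧ ∃ f : K →* Multiplicative (ZMod q), (∀ g ∈ S, f g = 1) ∧ ∃ g, f g ≠ 1 := by
  obtain ⟨M, hM, hSM⟩ := (eq_top_or_exists_le_coatom S).resolve_left hS
  have hN : M.Normal := ⟨fun n hn g => by
    have : g * n * g⁻¹ = n * cm n g⁻¹ := by unfold cm; group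
    rw [this]; exact M.mul_mem hn (hSM (hc _ _))⟩
  let : CommGroup (K ⧸ M) := { (inferInstance : Group (K ⧸ M)) with
    mul_comm := by
      intro x y
      induction x using QuotientGroup.induction_on with | H x => ?_
      induction y using QuotientGroup.induction_on with | H y => ?_
      rw [← QuotientGroup.mk_mul, ← QuotientGroup.mk_mul, QuotientGroup.eq]
      have : (x * y)⁻¹ * (y * x) = cm y x := by unfold cm; group
      rw [this]; exact hSM (hc _ _) }
  have : Nontrivial (K ⧸ M) := QuotientGroup.nontrivial_iff.mpr hM.1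
  have : IsSimpleGroup (K ⧸ M) := ⟨fun H _ => by
    have h1 : M ≤ H.comap (QuotientGroup.mk' M) := by
      intro x hx
      rw [Subgroup.mem_comap, QuotientGroup.mk'_apply, (QuotientGroup.eq_one_iff x).mpr hx]
      exact H.one_mem
    rcases hM.le_iff.mp h1 with h2 | h2
    · right
      rw [eq_top_iff]
      intro x _
      induction x using QuotientGroup.induction_on with | H x => ?_
      have : x ∈ H.comap (QuotientGroup.mk' M) := h2 ▸ Subgroup.mem_top x
      exact this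
    · left
      rw [eq_bot_iff]
      intro x hx
      induction x using QuotientGroup.induction_on with | H x => ?_
      have : x ∈ H.comap (QuotientGroup.mk' M) := hx
      rw [h2] at this
      exact (QuotientGroup.eq_one_iff x).mpr this⟩
  have hp : (Nat.card (K ⧸ M)).Prime := IsSimpleGroup.prime_card
  have hcyc : IsCyclic (K ⧸ M) := IsSimpleGroup.isCyclic
  refine ⟨_, hp, ((zmodCyclicMulEquiv hcyc).symm.toMonoidHom).comp (QuotientGroup.mk' M), ?_, ?_⟩
  · intro g hg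
    simp [(QuotientGroup.eq_one_iff g).mpr (hSM hg)]
  · obtain ⟨x, hx⟩ := exists_ne (1 : K ⧸ M)
    induction x using QuotientGroup.induction_on with | H x => ?_
    exact ⟨x, by simpa using hx⟩

/-- four zeros of a solution of the recurrence -/
lemma four_zeros {q : ℕ} (hq : q.Prime) (μ : ℤ) (hμ : ∀ r : ℕ, r.Prime → r ≤ 35 → (r : ℤ) ∣ μ)
    (α : ℤ → ZMod q)
    (hα : ∀ i, α (i + 4) = -(6 * μ ^ 2) * α (i + 2) + 4 * μ ^ 3 * α (i + 1) - μ ^ 4 * α i +
      4 * μ * α (i + 3))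
    (T : Finset ℕ) (hT : T ⊆ Finset.range 13) (hc : T.card = 4) (h0 : ∀ i ∈ T, α i = 0) (j : ℤ) :
    α j = 0 := by
  have := Fact.mk hq
  by_cases hm : (μ : ZMod q) = 0
  · have := hα (j - 4)
    rw [hm] at this
    simpa using this
  have hq35 : 35 < q := by
    by_contra hlt
    exact hm ((ZMod.intCast_zmod_eq_zero_iff_dvd μ q).mpr (hμ q hq (by omega)))
  have hnz : ∀ t : ℕ, 0 < t → t ≤ 35 → (t : ZMod q) ≠ 0 := by
    intro t h1 h2 h3
    have := Nat.le_of_dvd h1 ((ZMod.natCast_eq_zero_iff t q).mp h3)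
    omega
  have h2 : (2 : ZMod q) ≠ 0 := by exact_mod_cast hnz 2 (by norm_num) (by norm_num)
  have h6 : (6 : ZMod q) ≠ 0 := by exact_mod_cast hnz 6 (by norm_num) (by norm_num)
  set m : ZMod q := (μ : ZMod q) with hmdef
  obtain ⟨c0, c1, c2, c3, hform⟩ : ∃ c0 c1 c2 c3 : ZMod q, ∀ n : ℕ,
      α n = m ^ n * (c0 + c1 * n + c2 * n ^ 2 + c3 * n ^ 3) := by
    let g0 := α 0
    let g1 := α 1 / m
    let g2 := α 2 / m ^ 2
    let g3 := α 3 / m ^ 3
    let c3 := (g3 - 3 * g2 + 3 * g1 - g0) / 6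
    let c2 := (g2 - 2 * g1 + g0) / 2 - 3 * c3
    refine ⟨g0, g1 - g0 - c2 - c3, c2, c3, fun n => ?_⟩
    induction n using Nat.strong_induction_on with
    | _ n ih =>
      match n, ih with
      | 0, _ => simp [g0]
      | 1, _ => simp only [g1]; push_cast; field_simp; ring
      | 2, _ => simp only [c2, g2]; push_cast; field_simp; ring
      | 3, _ => simp only [c2, c3, g3]; push_cast; field_simp; ring
      | k + 4, ih =>
        have e0 := ih k (by omega)
        have e1 := ih (k + 1) (by omega)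
        have e2 := ih (k + 2) (by omega)
        have e3 := ih (k + 3) (by omega)
        have e4 := hα k
        push_cast at *
        rw [e4, e0, e1, e2, e3]
        ring
  let p : Polynomial (ZMod q) := Polynomial.C c0 + Polynomial.C c1 * Polynomial.X +
    Polynomial.C c2 * Polynomial.X ^ 2 + Polynomial.C c3 * Polynomial.X ^ 3
  have hp : ∀ n : ℕ, α n = m ^ n * p.eval (n : ZMod q) := by
    intro n; rw [hform]; simp [p]
  have hdeg : p.natDegree ≤ 3 := by simp only [p]; compute_degree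
  have hinj : Function.Injective (fun i : T => ((i : ℕ) : ZMod q)) := by
    intro x y hxy
    have hx := Finset.mem_range.mp (hT x.2)
    have hy := Finset.mem_range.mp (hT y.2)
    have := (ZMod.natCast_eq_natCast_iff' _ _ _).mp hxy
    rw [Nat.mod_eq_of_lt (by omega), Nat.mod_eq_of_lt (by omega)] at this
    exact Subtype.ext this
  have hp0 : p = 0 := by
    refine Polynomial.eq_zero_of_natDegree_lt_card_of_eval_eq_zero p hinj (fun i => ?_)
      (by rw [Fintype.card_coe, hc]; omega)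
    have := h0 i i.2
    rw [hp] at this
    exact (mul_eq_zero.mp this).resolve_left (pow_ne_zero _ hm)
  have hnat : ∀ n : ℕ, α n = 0 := by intro n; rw [hp, hp0]; simp
  have key : ∀ i : ℤ, α i = 0 ∧ α (i + 1) = 0 ∧ α (i + 2) = 0 ∧ α (i + 3) = 0 := by
    intro i
    induction i using Int.induction_on with
    | zero => exact ⟨hnat 0, hnat 1, hnat 2, hnat 3⟩
    | succ n _ =>
      exact ⟨by exact_mod_cast hnat (n + 1), by exact_mod_cast hnat (n + 1 + 1),
        by exact_mod_cast hnat (n + 1 + 2), by exact_mod_cast hnat (n + 1 + 3)⟩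
    | pred n ih =>
      obtain ⟨i0, i1, i2, i3⟩ := ih
      have e := hα (-n - 1)
      rw [show -(n : ℤ) - 1 + 4 = -n + 3 by ring, show -(n : ℤ) - 1 + 2 = -n + 1 by ring,
        show -(n : ℤ) - 1 + 1 = -n by ring, show -(n : ℤ) - 1 + 3 = -n + 2 by ring, i0, i1, i2,
        i3] at e
      refine ⟨?_, by rwa [show -(n : ℤ) - 1 + 1 = -n by ring],
        by rwa [show -(n : ℤ) - 1 + 2 = -n + 1 by ring],
        by rwa [show -(n : ℤ) - 1 + 3 = -n + 2 by ring]⟩
      have : m ^ 4 * α (-n - 1) = 0 := by linear_combination e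
      exact (mul_eq_zero.mp this).resolve_left (pow_ne_zero _ hm)
  exact (key j).1

/-- a subgroup of a finite group that contains the central elements and four of the conjugates
contains them all -/
lemma mem_of_four {Γ : Type*} [Group Γ] [Finite Γ] {ν : ℤ} {a : ℤ → Γ} (h : Rel ν a)
    (hμ : ∀ r : ℕ, r.Prime → r ≤ 35 → (r : ℤ) ∣ 4 * ν) (S : Subgroup Γ) (hk : ∀ i, kap a i ∈ S)
    (T : Finset ℕ) (hT : T ⊆ Finset.range 13) (hc : T.card = 4) (h0 : ∀ i ∈ T, a i ∈ S) (j : ℤ) :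
    a j ∈ S := by
  let N := Subgroup.closure (Set.range a)
  have hN : ∀ i, a i ∈ N := fun i => Subgroup.subset_closure (Set.mem_range_self i)
  by_contra hj
  have hS : S.subgroupOf N ≠ ⊤ := by
    intro ht
    have : (⟨a j, hN j⟩ : N) ∈ S.subgroupOf N := ht ▸ Subgroup.mem_top _
    exact hj this
  have hZ : Subgroup.closure (Set.range (kap a)) ≤ S := by
    rw [Subgroup.closure_le]; rintro _ ⟨i, rfl⟩; exact hk i
  obtain ⟨q, hq, f, hf, g, hg⟩ := exists_hom_zmod (S.subgroupOf N) hS (fun g y => by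
    have := hZ (h.cm_mem_all g.2 y.2)
    exact this)
  let α : ℤ → ZMod q := fun i => Multiplicative.toAdd (f ⟨a i, hN i⟩)
  have hα : ∀ i, α (i + 4) = -(6 * ((4 * ν : ℤ) : ZMod q) ^ 2) * α (i + 2) +
      4 * ((4 * ν : ℤ) : ZMod q) ^ 3 * α (i + 1) - ((4 * ν : ℤ) : ZMod q) ^ 4 * α i +
      4 * ((4 * ν : ℤ) : ZMod q) * α (i + 3) := by
    intro i
    have e : (⟨a (i + 4), hN _⟩ : N) = ((⟨a (i + 2), hN _⟩ : N) ^ (6 * (4 * ν) ^ 2))⁻¹ *
        (⟨a (i + 1), hN _⟩ : N) ^ (4 * (4 * ν) ^ 3) * ((⟨a i, hN _⟩ : N) ^ ((4 * ν) ^ 4))⁻¹ *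
        (⟨a (i + 3), hN _⟩ : N) ^ (4 * (4 * ν)) := by
      apply Subtype.ext
      simpa using h.h4 rfl rfl rfl rfl
    simp only [α]
    rw [e]
    simp only [map_mul, map_inv, map_zpow, toAdd_mul, toAdd_inv, toAdd_zpow, zsmul_eq_mul]
    push_cast
    ring
  have hz := four_zeros hq (4 * ν) hμ α hα T hT hc (fun i hi => by
    simp only [α]
    rw [hf _ (show (⟨a i, hN i⟩ : N) ∈ S.subgroupOf N from h0 i hi)]; rfl)
  have hall : ∀ (x : Γ) (hx : x ∈ Subgroup.closure (Set.range a)), f ⟨x, hx⟩ = 1 := by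
    intro x hx
    induction hx using Subgroup.closure_induction with
    | mem x hx => obtain ⟨i, rfl⟩ := hx; exact hz i
    | one => exact map_one f
    | mul x y hx hy h1 h2 =>
      have : f ((⟨x, hx⟩ : N) * ⟨y, hy⟩) = 1 := by rw [map_mul, h1, h2, one_mul]
      exact this
    | inv x hx h1 =>
      have : f ((⟨x, hx⟩ : N)⁻¹) = 1 := by rw [map_inv, h1, inv_one]
      exact this
  exact hg (hall g.1 g.2)

section fin
variable {Γ : Type*} [Group Γ] [Finite Γ] {ν : ℤ} {a b : Γ}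

lemma kap_period (a b : Γ) (i n : ℤ) :
    kap (cj a b) (i + n * Nat.card Γ) = kap (cj a b) i := by
  rw [← kap_cj_conj, mul_comm, zpow_mul, zpow_natCast, pow_card_eq_one']
  simp

lemma kap_mem_zpowers (h : Rel0 ν a b) (i : ℤ) :
    kap (cj a b) i ∈ Subgroup.zpowers (kap (cj a b) 0) := by
  have hk : 0 < Nat.card Γ := Nat.card_pos
  have h1 : 0 ≤ i + |i| * Nat.card Γ := by
    have : (1 : ℤ) ≤ Nat.card Γ := by exact_mod_cast hk
    nlinarith [neg_abs_le i, abs_nonneg i]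
  have := h.rel.kap_add 0 (i + |i| * Nat.card Γ).toNat
  rw [zero_add, Int.toNat_of_nonneg h1, kap_period] at this
  rw [this]
  exact Subgroup.zpow_mem_zpowers _ _

lemma not_dvd_of_order (h : Rel0 ν a b) {r : ℕ} (hr : r.Prime)
    (hd : r ∣ orderOf (kap (cj a b) 0)) : ¬ (r : ℤ) ∣ 4 * ν := by
  intro hμ
  have hk : 0 < Nat.card Γ := Nat.card_pos
  have e := h.rel.kap_add 0 (Nat.card Γ)
  have e2 := kap_period a b 0 1
  rw [one_mul, e] at e2
  have e3 : kap (cj a b) 0 ^ ((4 * ν) ^ (2 * Nat.card Γ) - 1) = 1 := by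
    rw [zpow_sub, e2]; simp
  have d1 : (r : ℤ) ∣ (4 * ν) ^ (2 * Nat.card Γ) - 1 :=
    (Int.natCast_dvd_natCast.mpr hd).trans (orderOf_dvd_iff_zpow_eq_one.mpr e3)
  have d2 : (r : ℤ) ∣ (4 * ν) ^ (2 * Nat.card Γ) := dvd_pow hμ (by omega)
  have d3 : (r : ℤ) ∣ 1 := by
    have := dvd_sub d2 d1
    simpa using this
  exact hr.one_lt.ne' (by exact_mod_cast Int.eq_one_of_dvd_one (by positivity) d3)

/-- two conjugates at distance between 2 and 24 generate a Heisenberg type group -/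
lemma heis (h : Rel0 ν a b) (hμ : ∀ r : ℕ, r.Prime → r ≤ 35 → (r : ℤ) ∣ 4 * ν) (i j : ℕ)
    (h1 : i + 2 ≤ j) (h2 : j ≤ i + 24) :
    ∃ z : Γ, (cj a b j)⁻¹ * cj a b i * cj a b j = cj a b i * z ∧ Commute (cj a b i) z ∧
      Commute (cj a b j) z ∧ z ∈ Subgroup.zpowers (kap (cj a b) 0) ∧
      ∀ m : ℕ, 1 ≤ m → m ≤ 35 → kap (cj a b) 0 ∈ Subgroup.zpowers (z ^ m) := by
  obtain ⟨w, q, hw⟩ := h.rel.Q_far i (j - i + 1)
  rw [show (i : ℤ) - 1 + ((j - i + 1 : ℕ) : ℤ) = j by omega] at q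
  refine ⟨_, q.1, (h.rel.kap_central _ _).zpow_right _, (h.rel.kap_central _ _).zpow_right _,
    Subgroup.zpow_mem _ (kap_mem_zpowers h _) _, fun m hm1 hm2 => ?_⟩
  have e := h.rel.kap_add 0 i
  rw [zero_add] at e
  rw [e, ← zpow_natCast, ← zpow_mul, ← zpow_mul, mem_zpowers_zpow_iff]
  by_contra hne
  obtain ⟨r, hr, hd⟩ := Nat.exists_prime_and_dvd hne
  have d1 : (r : ℤ) ∣ (4 * ν) ^ (2 * i) * (w * m) :=
    (Int.natCast_dvd_natCast.mpr hd).trans (Int.gcd_dvd_left _ _)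
  have d2 : r ∣ orderOf (kap (cj a b) 0) :=
    Int.natCast_dvd_natCast.mp ((Int.natCast_dvd_natCast.mpr hd).trans (Int.gcd_dvd_right _ _))
  have hn := not_dvd_of_order h hr d2
  have hr35 : 35 < r := by
    by_contra hlt
    exact hn (hμ r hr (by omega))
  have hp : Prime (r : ℤ) := Nat.prime_iff_prime_int.mp hr
  have small : ∀ t : ℤ, 0 < t → t ≤ 35 → ¬ (r : ℤ) ∣ t := by
    intro t t1 t2 t3
    have := Int.le_of_dvd t1 t3
    omega
  rcases hp.dvd_or_dvd d1 with d | d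
  · exact hn (hp.dvd_of_dvd_pow d)
  rcases hp.dvd_or_dvd d with d | d
  · have d' := d.mul_left (6 * (4 * ν) ^ 3)
    rw [hw] at d'
    rcases hp.dvd_or_dvd d' with d | d
    · exact hn (hp.dvd_of_dvd_pow d)
    rcases hp.dvd_or_dvd d with d | d
    · rcases hp.dvd_or_dvd d with d | d
      · exact small _ (by omega) (by omega) d
      · exact small _ (by omega) (by omega) d
    · exact small _ (by omega) (by omega) d
  · exact small _ (by omega) (by omega) d

end fin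

end Pool.Agent.MP_ab7c65_al

end

-- part MP_ab7c65_al.Angle
section

/-!
The angle between the fixed spaces of the two generators of a finite vertex group.
-/

set_option autoImplicit false
set_option linter.unusedSectionVars false

namespace Pool.Agent.MP_ab7c65_al

variable {V : Type*} [NormedAddCommGroup V] [InnerProductSpace ℝ V] [FiniteDimensional ℝ V]

lemma proj_equiv (e : V ≃ₗᵢ[ℝ] V) (F F' : Submodule ℝ V) (h1 : ∀ y ∈ F, e y ∈ F')
    (h2 : ∀ y ∈ F', e.symm y ∈ F) (v : V) :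
    F'.starProjection (e v) = e (F.starProjection v) := by
  refine Submodule.eq_starProjection_of_mem_of_inner_eq_zero
    (h1 _ (F.starProjection_apply_mem v)) (fun w hw => ?_)
  rw [← map_sub, ← e.apply_symm_apply w, e.inner_map_map]
  exact Submodule.starProjection_inner_eq_zero _ _ (h2 w hw)

lemma norm_add_sq_of_inner {x y : V} (h : inner ℝ x y = 0) : ‖x + y‖ ^ 2 = ‖x‖ ^ 2 + ‖y‖ ^ 2 := by
  rw [norm_add_sq_real, h]; ring

lemma inner_proj_self (F : Submodule ℝ V) (v : V) :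
    inner ℝ (F.starProjection v) v = ‖F.starProjection v‖ ^ 2 := by
  have := Submodule.starProjection_inner_eq_zero v _ (F.starProjection_apply_mem v)
  rw [inner_sub_left, real_inner_self_eq_norm_sq] at this
  rw [real_inner_comm]; linarith

/-- commuting projections such that no vector is fixed by `m + 1` of them -/
lemma sum_proj_le {ι : Type*} [DecidableEq ι] (F : ι → Submodule ℝ V)
    (hF : ∀ i j, ∀ x ∈ F i, (F j).starProjection x ∈ F i) (S : Finset ι) :
    ∀ (m : ℕ) (v : V), (∀ T ⊆ S, T.card = m + 1 → ∀ x, (∀ i ∈ T, x ∈ F i) → inner ℝ v x = 0) →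
      ∑ i ∈ S, ‖(F i).starProjection v‖ ^ 2 ≤ m * ‖v‖ ^ 2 := by
  induction S using Finset.induction_on with
  | empty => intro m v _; simp only [Finset.sum_empty]; positivity
  | insert j S hj ih =>
    intro m v hv
    rcases m with _ | m
    · have : ∀ i ∈ insert j S, ‖(F i).starProjection v‖ ^ 2 = 0 := by
        intro i hi
        rw [← inner_proj_self, real_inner_comm]
        exact hv {i} (by simpa using hi) (by simp) _ (by simp)
      rw [Finset.sum_eq_zero this]; simp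
    set v1 := (F j).starProjection v with hv1
    have m1 : v1 ∈ F j := (F j).starProjection_apply_mem v
    have o2 : ∀ x ∈ F j, inner ℝ (v - v1) x = 0 := fun x hx =>
      Submodule.starProjection_inner_eq_zero _ _ hx
    have i1 := ih m v1 (fun T hT hc x hx => by
      rw [hv1, Submodule.inner_starProjection_left_eq_right]
      refine hv (insert j T) (Finset.insert_subset_insert _ hT) ?_ _ ?_
      · rw [Finset.card_insert_of_notMem (fun h => hj (hT h)), hc]
      · intro i hi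
        rcases Finset.mem_insert.mp hi with rfl | hi
        · exact (F i).starProjection_apply_mem x
        · exact hF _ _ _ (hx i hi))
    have i2 := ih (m + 1) (v - v1) (fun T hT hc x hx => by
      have hT' : T ⊆ insert j S := hT.trans (Finset.subset_insert _ _)
      rw [inner_sub_left, hv T hT' hc x hx, hv1, Submodule.inner_starProjection_left_eq_right,
        hv T hT' hc _ (fun i hi => hF _ _ _ (hx i hi))]
      simp)
    have e1 : ∀ i, ‖(F i).starProjection v‖ ^ 2 =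
        ‖(F i).starProjection v1‖ ^ 2 + ‖(F i).starProjection (v - v1)‖ ^ 2 := by
      intro i
      rw [← norm_add_sq_of_inner, ← map_add, add_sub_cancel]
      rw [← Submodule.inner_starProjection_left_eq_right, real_inner_comm]
      exact o2 _ (hF _ _ _ (hF _ _ _ m1))
    have e2 : ‖v‖ ^ 2 = ‖v1‖ ^ 2 + ‖v - v1‖ ^ 2 := by
      rw [← norm_add_sq_of_inner, add_sub_cancel]
      rw [real_inner_comm]; exact o2 _ m1
    rw [Finset.sum_insert hj, Finset.sum_congr rfl (fun i _ => e1 i), Finset.sum_add_distrib, e2]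
    push_cast at *
    nlinarith [sq_nonneg ‖v1‖, sq_nonneg ‖v - v1‖]

lemma norm_sum_sq_le (n : ℕ) (t : ℕ → V) (s ε : ℝ) (h1 : ∀ k < n, ‖t k‖ = s)
    (h2 : ∀ k l, k < l → l < n → inner ℝ (t k) (t l) ≤ ε * s ^ 2) :
    ‖∑ k ∈ Finset.range n, t k‖ ^ 2 ≤ n * s ^ 2 + n * (n - 1) * (ε * s ^ 2) := by
  induction n with
  | zero => simp
  | succ n ih =>
    have i1 := ih (fun k hk => h1 k (by omega)) (fun k l hkl hl => h2 k l hkl (by omega))
    have i2 : inner ℝ (∑ k ∈ Finset.range n, t k) (t n) ≤ n * (ε * s ^ 2) := by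
      rw [sum_inner]
      calc _ ≤ ∑ k ∈ Finset.range n, ε * s ^ 2 := Finset.sum_le_sum (fun k hk =>
            h2 k n (Finset.mem_range.mp hk) (by omega))
        _ = _ := by simp
    rw [Finset.sum_range_succ, norm_add_sq_real, h1 n (by omega)]
    push_cast
    nlinarith

variable {Γ : Type*} [Group Γ] (ρ : Γ →* (V ≃ₗᵢ[ℝ] V))

lemma rho_mul (g h : Γ) (v : V) : ρ (g * h) v = ρ g (ρ h v) := by rw [map_mul]; rfl

lemma rho_one (v : V) : ρ 1 v = v := by rw [map_one]; rfl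

lemma rho_inv_rho (g : Γ) (v : V) : ρ g⁻¹ (ρ g v) = v := by
  rw [← rho_mul, inv_mul_cancel, rho_one]

lemma rho_rho_inv (g : Γ) (v : V) : ρ g (ρ g⁻¹ v) = v := by
  rw [← rho_mul, mul_inv_cancel, rho_one]

/-- fixed vectors of a group element -/
def Fx (g : Γ) : Submodule ℝ V where
  carrier := {v | ρ g v = v}
  add_mem' := fun {x y} hx hy => by
    simp only [Set.mem_ofPred_eq] at *
    rw [map_add, hx, hy]
  zero_mem' := by simp
  smul_mem' := fun c x hx => by
    simp only [Set.mem_ofPred_eq] at *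
    rw [map_smul, hx]

/-- stabiliser of a vector -/
def St (v : V) : Subgroup Γ where
  carrier := {g | ρ g v = v}
  mul_mem' := fun {x y} hx hy => by
    simp only [Set.mem_ofPred_eq] at *
    rw [rho_mul, hy, hx]
  one_mem' := rho_one ρ v
  inv_mem' := fun {x} hx => by
    simp only [Set.mem_ofPred_eq] at *
    conv_lhs => rw [← hx]
    exact rho_inv_rho ρ x v

variable {ρ}

lemma mem_Fx {g : Γ} {v : V} : v ∈ Fx ρ g ↔ ρ g v = v := Iff.rfl
lemma mem_St {g : Γ} {v : V} : g ∈ St ρ v ↔ ρ g v = v := Iff.rfl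

lemma proj_rho (g : Γ) (F F' : Submodule ℝ V) (h1 : ∀ y ∈ F, ρ g y ∈ F')
    (h2 : ∀ y ∈ F', ρ g⁻¹ y ∈ F) (v : V) :
    F'.starProjection (ρ g v) = ρ g (F.starProjection v) :=
  proj_equiv (ρ g) F F' h1 (fun y hy => by
    have := h2 y hy
    rwa [map_inv] at this) v

/-- projection to an invariant subspace preserves fixed vectors -/
lemma proj_mem_Fx (g : Γ) (F : Submodule ℝ V) (h1 : ∀ y ∈ F, ρ g y ∈ F)
    (h2 : ∀ y ∈ F, ρ g⁻¹ y ∈ F) {v : V} (hv : v ∈ Fx ρ g) : F.starProjection v ∈ Fx ρ g := by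
  rw [mem_Fx, ← proj_rho g F F h1 h2, mem_Fx.mp hv]

lemma Fx_of_commute {g z : Γ} (h : Commute g z) {y : V} (hy : y ∈ Fx ρ g) : ρ z y ∈ Fx ρ g := by
  rw [mem_Fx, ← rho_mul, h.eq, rho_mul, mem_Fx.mp hy]

lemma avg_fixed (g : Γ) (n : ℕ) (hg : g ^ n = 1) (t : V) :
    ρ g (∑ r ∈ Finset.range n, ρ (g ^ r) t) = ∑ r ∈ Finset.range n, ρ (g ^ r) t := by
  rw [map_sum]
  have e1 := Finset.sum_range_succ (fun r => ρ (g ^ r) t) n
  have e2 := Finset.sum_range_succ' (fun r => ρ (g ^ r) t) n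
  rw [e1, hg, pow_zero] at e2
  rw [add_right_cancel e2]
  refine Finset.sum_congr rfl (fun r _ => ?_)
  rw [pow_succ', rho_mul]

variable [Finite Γ]

lemma heis_orth {x y z κ : Γ} (h : y⁻¹ * x * y = x * z) (hx : Commute x z) (hy : Commute y z)
    {m : ℕ} (hκ : κ ∈ Subgroup.zpowers (z ^ m)) {u : V} (hu : u ∈ Fx ρ x)
    (ho : ∀ s ∈ Fx ρ κ, inner ℝ s u = 0) : inner ℝ (ρ (y ^ m) u) u = 0 := by
  have q : Q x z y 1 := ⟨by simpa using h, hy⟩
  have q2 := (q.pow m).1
  rw [mul_one, zpow_natCast] at q2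
  have e1 : x * y ^ m = z ^ m * y ^ m * x := by
    calc x * y ^ m = y ^ m * ((y ^ m)⁻¹ * x * y ^ m) := by group
      _ = y ^ m * (z ^ m * x) := by rw [q2, (hx.pow_right m).eq]
      _ = z ^ m * y ^ m * x := by rw [← mul_assoc, (hy.pow_pow m m).eq]
  set t := ρ (y ^ m) u with ht
  have e2 : ρ x t = ρ (z ^ m) t := by
    rw [ht, ← rho_mul, e1, rho_mul, mem_Fx.mp hu, rho_mul]
  have e3 : ∀ r : ℕ, inner ℝ (ρ ((z ^ m) ^ r) t) u = inner ℝ t u := by
    intro r
    induction r with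
    | zero => rw [pow_zero, rho_one]
    | succ r ih =>
      rw [pow_succ, rho_mul, ← e2, ← rho_mul, ← ((hx.pow_right m).pow_right r).eq, rho_mul, ← ih]
      conv_lhs => rw [← mem_Fx.mp hu]
      exact (ρ x).inner_map_map _ _
  have hk : 0 < Nat.card Γ := Nat.card_pos
  have e4 := avg_fixed (ρ := ρ) (z ^ m) (Nat.card Γ) pow_card_eq_one' t
  have e5 : κ ∈ St ρ (∑ r ∈ Finset.range (Nat.card Γ), ρ ((z ^ m) ^ r) t) :=
    (Subgroup.zpowers_le_of_mem (mem_St.mpr e4)) hκ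
  have e6 := ho _ e5
  rw [sum_inner, Finset.sum_congr rfl (fun r _ => e3 r)] at e6
  simp only [Finset.sum_const, Finset.card_range, nsmul_eq_mul] at e6
  exact (mul_eq_zero.mp e6).resolve_left (by positivity)

lemma heis_angle {x y z κ : Γ} (h : y⁻¹ * x * y = x * z) (hx : Commute x z) (hy : Commute y z)
    (hκ : ∀ m : ℕ, 1 ≤ m → m ≤ 35 → κ ∈ Subgroup.zpowers (z ^ m)) {u w : V} (hu : u ∈ Fx ρ x)
    (ho : ∀ s ∈ Fx ρ κ, inner ℝ s u = 0) (hw : w ∈ Fx ρ y) :
    inner ℝ u w ≤ 1 / 6 * (‖u‖ * ‖w‖) := by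
  have i1 := norm_sum_sq_le 36 (fun k => ρ (y ^ k) u) ‖u‖ 0 (fun k _ => (ρ _).norm_map u)
    (fun k l hkl hl => by
      obtain ⟨d, rfl⟩ := Nat.exists_eq_add_of_lt hkl
      rw [add_assoc, pow_add, rho_mul, (ρ _).inner_map_map, real_inner_comm,
        heis_orth h hx hy (hκ (d + 1) (by omega) (by omega)) hu ho]
      simp)
  have i2 : inner ℝ (∑ k ∈ Finset.range 36, ρ (y ^ k) u) w = 36 * inner ℝ u w := by
    rw [sum_inner, Finset.sum_congr rfl (g := fun _ => inner ℝ u w)]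
    · simp
    · intro k _
      have : y ^ k ∈ St ρ w := Subgroup.pow_mem _ (mem_St.mpr hw) k
      conv_lhs => rw [← mem_St.mp this]
      exact (ρ _).inner_map_map _ _
  have i3 := real_inner_le_norm (∑ k ∈ Finset.range 36, ρ (y ^ k) u) w
  have i4 : ‖∑ k ∈ Finset.range 36, ρ (y ^ k) u‖ ≤ 6 * ‖u‖ := by
    apply le_of_sq_le_sq _ (by positivity)
    push_cast at i1
    nlinarith
  have i5 := mul_le_mul_of_nonneg_right i4 (norm_nonneg w)
  nlinarith

variable {ν : ℤ} {a b : Γ}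

lemma norm_proj_cj (a b : Γ) (i : ℤ) {w : V} (hw : w ∈ Fx ρ b) :
    ‖(Fx ρ (cj a b i)).starProjection w‖ = ‖(Fx ρ a).starProjection w‖ := by
  have h1 : (b ^ i)⁻¹ ∈ St ρ w := Subgroup.inv_mem _ (Subgroup.zpow_mem _ (mem_St.mpr hw) i)
  have := proj_rho (ρ := ρ) (b ^ i)⁻¹ (Fx ρ a) (Fx ρ (cj a b i)) (fun y hy => by
      rw [mem_Fx, cj, ← rho_mul, mul_inv_cancel_right, rho_mul, mem_Fx.mp hy])
    (fun y hy => by
      rw [mem_Fx, cj, rho_mul, rho_mul] at hy
      rw [mem_Fx, inv_inv]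
      conv_rhs => rw [← hy, rho_rho_inv]) w
  rw [mem_St.mp h1] at this
  rw [this, LinearIsometryEquiv.norm_map]

lemma kap_fix (h : Rel0 ν a b) {x : V} (hx : x ∈ Fx ρ (kap (cj a b) 0)) (i : ℤ) :
    kap (cj a b) i ∈ St ρ x :=
  (Subgroup.zpowers_le_of_mem (mem_St.mpr hx)) (kap_mem_zpowers h i)

lemma angle_heis (h : Rel0 ν a b) (hμ : ∀ r : ℕ, r.Prime → r ≤ 35 → (r : ℤ) ∣ 4 * ν) {w : V}
    (hw : w ∈ Fx ρ b) (ho : ∀ s ∈ Fx ρ (kap (cj a b) 0), inner ℝ s w = 0) :
    ‖(Fx ρ a).starProjection w‖ ^ 2 ≤ 3 / 13 * ‖w‖ ^ 2 := by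
  set s := ‖(Fx ρ a).starProjection w‖ with hs
  let u : ℕ → V := fun i => (Fx ρ (cj a b (2 * i : ℕ))).starProjection w
  have n1 : ∀ i, ‖u i‖ = s := fun i => norm_proj_cj a b _ hw
  have m1 : ∀ i, u i ∈ Fx ρ (cj a b (2 * i : ℕ)) := fun i => Submodule.starProjection_apply_mem _ _
  have o1 : ∀ i, ∀ t ∈ Fx ρ (kap (cj a b) 0), inner ℝ t (u i) = 0 := by
    intro i t ht
    simp only [u]
    rw [← Submodule.inner_starProjection_left_eq_right]
    exact ho _ (proj_mem_Fx _ _ (fun y hy => Fx_of_commute (h.rel.kap_central _ _) hy)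
      (fun y hy => Fx_of_commute (h.rel.kap_central _ _).inv_right hy) ht)
  have i1 := norm_sum_sq_le 13 u s (1 / 6) (fun k _ => n1 k) (fun k l hkl hl => by
    obtain ⟨z, z1, z2, z3, -, z5⟩ := heis h hμ (2 * k) (2 * l) (by omega) (by omega)
    have := heis_angle z1 z2 z3 z5 (m1 k) (o1 k) (m1 l)
    rw [n1, n1] at this
    nlinarith)
  have i2 : inner ℝ (∑ k ∈ Finset.range 13, u k) w = 13 * s ^ 2 := by
    rw [sum_inner, Finset.sum_congr rfl (g := fun _ => s ^ 2)]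
    · simp
    · intro k _
      rw [← n1 k]; exact inner_proj_self _ _
  have i3 := real_inner_le_norm (∑ k ∈ Finset.range 13, u k) w
  set A := ‖∑ k ∈ Finset.range 13, u k‖
  have hA : 0 ≤ A := norm_nonneg _
  have hs0 : 0 ≤ s := norm_nonneg _
  have hw0 := norm_nonneg w
  push_cast at i1
  have i4 : A ^ 2 ≤ 39 * s ^ 2 := by nlinarith
  have i5 : (13 * s ^ 2) ^ 2 ≤ (A * ‖w‖) ^ 2 := by
    apply pow_le_pow_left₀ (by positivity); linarith
  by_cases h0 : s = 0
  · rw [h0]; nlinarith [sq_nonneg ‖w‖]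
  have hs1 : 0 < s ^ 2 := by positivity
  have i6 : (13 * s ^ 2) ^ 2 ≤ 39 * s ^ 2 * ‖w‖ ^ 2 := by
    rw [mul_pow A] at i5
    exact i5.trans (mul_le_mul_of_nonneg_right i4 (by positivity))
  have i7 : s ^ 2 * (169 * s ^ 2) ≤ s ^ 2 * (39 * ‖w‖ ^ 2) := by nlinarith
  have := le_of_mul_le_mul_left i7 hs1
  linarith

lemma angle_ab (h : Rel0 ν a b) (hμ : ∀ r : ℕ, r.Prime → r ≤ 35 → (r : ℤ) ∣ 4 * ν) {w : V}
    (hw : w ∈ Fx ρ b) (hk : w ∈ Fx ρ (kap (cj a b) 0))
    (ho : ∀ s, (∀ i, s ∈ Fx ρ (cj a b i)) → inner ℝ w s = 0) :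
    ‖(Fx ρ a).starProjection w‖ ^ 2 ≤ 3 / 13 * ‖w‖ ^ 2 := by
  let F : ℕ → Submodule ℝ V := fun i => Fx ρ (cj a b i) ⊓ Fx ρ (kap (cj a b) 0)
  have hN : ∀ i, cj a b i ∈ Subgroup.closure (Set.range (cj a b)) := fun i =>
    Subgroup.subset_closure (Set.mem_range_self i)
  have pres : ∀ j : ℕ, ∀ g ∈ Subgroup.closure (Set.range (cj a b)), ∀ y ∈ F j, ρ g y ∈ F j := by
    intro j g hg y hy
    refine ⟨?_, Fx_of_commute (h.rel.Z_central
      (Subgroup.subset_closure (Set.mem_range_self 0)) hg).symm hy.2⟩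
    have hZ : Subgroup.closure (Set.range (kap (cj a b))) ≤ St ρ y := by
      rw [Subgroup.closure_le]; rintro _ ⟨i, rfl⟩; exact kap_fix h hy.2 i
    have e1 := mem_St.mp (hZ (h.rel.cm_mem_all (hN j) hg))
    have e2 : cj a b j * g = g * cj a b j * cm (cj a b j) g := by unfold cm; group
    show ρ (cj a b j) (ρ g y) = ρ g y
    rw [← rho_mul, e2, rho_mul, e1, rho_mul, mem_Fx.mp hy.1]
  have hF : ∀ i j, ∀ x ∈ F i, (F j).starProjection x ∈ F i := by
    intro i j x hx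
    exact ⟨proj_mem_Fx _ _ (pres j _ (hN i)) (pres j _ (Subgroup.inv_mem _ (hN i))) hx.1,
      ((F j).starProjection_apply_mem x).2⟩
  have i1 := sum_proj_le F hF (Finset.range 13) 3 w (fun T hT hc x hx => by
    obtain ⟨i0, hi0⟩ : T.Nonempty := Finset.card_pos.mp (by omega)
    exact ho x (fun j => mem_of_four h.rel hμ (St ρ x) (kap_fix h (hx i0 hi0).2) T hT hc
      (fun i hi => (hx i hi).1) j))
  have e1 : ∀ i : ℕ, (F i).starProjection w = (Fx ρ (cj a b i)).starProjection w := by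
    intro i
    refine Submodule.eq_starProjection_of_mem_of_inner_eq_zero
      ⟨Submodule.starProjection_apply_mem _ _, ?_⟩
      (fun y hy => Submodule.starProjection_inner_eq_zero _ _ hy.1)
    exact proj_mem_Fx _ _ (fun y hy => Fx_of_commute (h.rel.kap_central _ _) hy)
      (fun y hy => Fx_of_commute (h.rel.kap_central _ _).inv_right hy) hk
  rw [Finset.sum_congr rfl (g := fun _ => ‖(Fx ρ a).starProjection w‖ ^ 2)
    (fun i _ => by rw [e1, norm_proj_cj a b _ hw])] at i1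
  simp only [Finset.sum_const, Finset.card_range, nsmul_eq_mul] at i1
  push_cast at i1
  linarith

/-- the angle estimate -/
lemma angle (h : Rel0 ν a b) (hμ : ∀ r : ℕ, r.Prime → r ≤ 35 → (r : ℤ) ∣ 4 * ν) {w : V}
    (hw : w ∈ Fx ρ b) (ho : ∀ s ∈ Fx ρ a ⊓ Fx ρ b, inner ℝ w s = 0) :
    ‖(Fx ρ a).starProjection w‖ ^ 2 ≤ 3 / 13 * ‖w‖ ^ 2 := by
  set W := Fx ρ (kap (cj a b) 0) with hW
  -- `b` preserves `W`
  have bW : ∀ j : ℤ, ∀ y ∈ W, ρ (b ^ j) y ∈ W := by
    intro j y hy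
    have e : kap (cj a b) 0 * b ^ j = b ^ j * kap (cj a b) (0 + j) := by
      rw [← kap_cj_conj]; group
    rw [hW, mem_Fx, ← rho_mul, e, rho_mul, mem_St.mp (kap_fix h hy _)]
  have bW1 : ∀ y ∈ W, ρ b y ∈ W := by simpa using bW 1
  have bW2 : ∀ y ∈ W, ρ b⁻¹ y ∈ W := by simpa using bW (-1)
  -- vectors fixed by all conjugates
  let U : Submodule ℝ V := ⨅ i, Fx ρ (cj a b i)
  have bU : ∀ j : ℤ, ∀ y ∈ U, ρ (b ^ j) y ∈ U := by
    intro j y hy
    simp only [U, Submodule.mem_iInf] at hy ⊢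
    intro i
    have e : cj a b i * b ^ j = b ^ j * cj a b (i + j) := by rw [← cj_conj]; group
    rw [mem_Fx, ← rho_mul, e, rho_mul, mem_Fx.mp (hy _)]
  have oU : ∀ s ∈ U, inner ℝ w s = 0 := by
    have p1 : U.starProjection w ∈ Fx ρ b :=
      proj_mem_Fx _ _ (by simpa using bU 1) (by simpa using bU (-1)) hw
    have p2 : U.starProjection w ∈ Fx ρ a := by
      have := (Submodule.mem_iInf _).mp (U.starProjection_apply_mem w) 0
      simpa using this
    have p3 := ho _ ⟨p2, p1⟩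
    rw [real_inner_comm, inner_proj_self] at p3
    have p4 : U.starProjection w = 0 := by simpa using p3
    intro s hs
    have := Submodule.starProjection_inner_eq_zero w s hs
    rwa [p4, sub_zero] at this
  set w0 := W.starProjection w with hw0
  have m0 : w0 ∈ W := W.starProjection_apply_mem w
  have b0 : w0 ∈ Fx ρ b := proj_mem_Fx _ _ bW1 bW2 hw
  have o1 : ∀ s ∈ W, inner ℝ s (w - w0) = 0 := fun s hs => by
    rw [real_inner_comm]; exact Submodule.starProjection_inner_eq_zero _ _ hs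
  have i0 := angle_ab h hμ b0 m0 (fun s hs => by
    have sW : s ∈ W := by
      have : kap (cj a b) 0 ∈ St ρ s := by
        unfold kap cm
        exact mul_mem (mul_mem (mul_mem (inv_mem (hs _)) (inv_mem (hs _))) (hs _)) (hs _)
      exact this
    rw [hw0, Submodule.inner_starProjection_left_eq_right,
      Submodule.starProjection_eq_self_iff.mpr sW]
    exact oU s ((Submodule.mem_iInf _).mpr hs))
  have i1 := angle_heis h hμ (Submodule.sub_mem _ hw b0) o1
  have aW : ∀ y ∈ W, (Fx ρ a).starProjection y ∈ W := fun y hy => by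
    have c : Commute a (kap (cj a b) 0) := by simpa using h.rel.kap_central 0 0
    exact proj_mem_Fx _ _ (fun y hy => Fx_of_commute c hy)
      (fun y hy => Fx_of_commute c.inv_right hy) hy
  have e1 : ‖(Fx ρ a).starProjection w‖ ^ 2 =
      ‖(Fx ρ a).starProjection w0‖ ^ 2 + ‖(Fx ρ a).starProjection (w - w0)‖ ^ 2 := by
    rw [← norm_add_sq_of_inner, ← map_add, add_sub_cancel]
    rw [← Submodule.inner_starProjection_left_eq_right]
    exact o1 _ (aW _ (aW _ m0))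
  have e2 : ‖w‖ ^ 2 = ‖w0‖ ^ 2 + ‖w - w0‖ ^ 2 := by
    rw [← norm_add_sq_of_inner (o1 _ m0), add_sub_cancel]
  rw [e1, e2]; linarith

/-- two fixed vectors with the same projection to the common fixed space -/
lemma angle' (h : Rel0 ν a b) (hμ : ∀ r : ℕ, r.Prime → r ≤ 35 → (r : ℤ) ∣ 4 * ν) {u w : V}
    (hu : u ∈ Fx ρ a) (hw : w ∈ Fx ρ b)
    (ho : ∀ s ∈ Fx ρ a ⊓ Fx ρ b, inner ℝ w s = inner ℝ u s) :
    -(49 / 200 * (‖u‖ ^ 2 + ‖w‖ ^ 2)) ≤ inner ℝ u w := by
  set I := Fx ρ a ⊓ Fx ρ b with hI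
  set s := I.starProjection w with hs
  have ms : s ∈ I := I.starProjection_apply_mem w
  have i1 := angle h hμ (w := w - s) (Submodule.sub_mem _ hw ms.2)
    (fun y hy => Submodule.starProjection_inner_eq_zero _ _ hy)
  have e1 : inner ℝ u s = ‖s‖ ^ 2 := by
    rw [← ho s ms, real_inner_comm]; exact inner_proj_self _ _
  have e2 : ‖w‖ ^ 2 = ‖s‖ ^ 2 + ‖w - s‖ ^ 2 := by
    rw [← norm_add_sq_of_inner, add_sub_cancel]
    rw [real_inner_comm]; exact Submodule.starProjection_inner_eq_zero _ _ ms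
  have e3 : inner ℝ u (w - s) = inner ℝ u ((Fx ρ a).starProjection (w - s)) := by
    rw [← Submodule.inner_starProjection_left_eq_right,
      Submodule.starProjection_eq_self_iff.mpr hu]
  have i2 := abs_real_inner_le_norm u ((Fx ρ a).starProjection (w - s))
  have i3 := neg_abs_le (inner ℝ u ((Fx ρ a).starProjection (w - s)))
  have e4 : inner ℝ u w = inner ℝ u s + inner ℝ u (w - s) := by
    rw [← inner_add_right, add_sub_cancel]
  set t := ‖(Fx ρ a).starProjection (w - s)‖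
  have i4 : t ≤ 49 / 100 * ‖w‖ := by
    apply le_of_sq_le_sq _ (by positivity)
    nlinarith [sq_nonneg ‖s‖, sq_nonneg ‖w - s‖]
  have i5 := mul_le_mul_of_nonneg_left i4 (norm_nonneg u)
  rw [e4, e1, e3]
  nlinarith [sq_nonneg ‖s‖, sq_nonneg (‖u‖ - ‖w‖)]

end Pool.Agent.MP_ab7c65_al

end

-- part MP_ab7c65_al.Affine
section

/-!
Fixed points of affine isometric actions with finite linear part.
-/

set_option autoImplicit false
set_option linter.unusedSectionVars false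

namespace Pool.Agent.MP_ab7c65_al

variable {V : Type*} [NormedAddCommGroup V] [InnerProductSpace ℝ V] [FiniteDimensional ℝ V]

lemma triangle (A B C : Submodule ℝ V)
    (hAB : ∀ u ∈ A, ∀ w ∈ B, (∀ s ∈ A ⊓ B, inner ℝ w s = inner ℝ u s) →
      -(49 / 200 * (‖u‖ ^ 2 + ‖w‖ ^ 2)) ≤ inner ℝ u w)
    (hBC : ∀ u ∈ B, ∀ w ∈ C, (∀ s ∈ B ⊓ C, inner ℝ w s = inner ℝ u s) →
      -(49 / 200 * (‖u‖ ^ 2 + ‖w‖ ^ 2)) ≤ inner ℝ u w)
    (hCA : ∀ u ∈ C, ∀ w ∈ A, (∀ s ∈ C ⊓ A, inner ℝ w s = inner ℝ u s) →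
      -(49 / 200 * (‖u‖ ^ 2 + ‖w‖ ^ 2)) ≤ inner ℝ u w)
    {p q r : V} (hp : p ∈ B) (hq : q ∈ C) (hr : r ∈ A) (hs : p + q + r = 0) :
    ∃ v1 ∈ A ⊓ B, ∃ v2 ∈ B ⊓ C, ∃ v3 ∈ C ⊓ A, p = v1 - v2 ∧ q = v2 - v3 := by
  let tr : V → V → V → PiLp 2 (fun _ : Fin 3 => V) := fun x y z => WithLp.toLp 2 ![x, y, z]
  have tr_sub : ∀ x y z x' y' z', tr x y z - tr x' y' z' = tr (x - x') (y - y') (z - z') := by
    intro x y z x' y' z'
    ext i; fin_cases i <;> simp [tr]
  have tr_inner : ∀ x y z x' y' z', inner ℝ (tr x y z) (tr x' y' z') =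
      inner ℝ x x' + inner ℝ y y' + inner ℝ z z' := by
    intro x y z x' y' z'
    simp [tr, PiLp.inner_apply, Fin.sum_univ_three]
  let M : Submodule ℝ (PiLp 2 (fun _ : Fin 3 => V)) :=
    { carrier := {ω | ∃ v1 ∈ A ⊓ B, ∃ v2 ∈ B ⊓ C, ∃ v3 ∈ C ⊓ A,
        ω = tr (v1 - v2) (v2 - v3) (v3 - v1)}
      add_mem' := by
        rintro _ _ ⟨v1, h1, v2, h2, v3, h3, rfl⟩ ⟨w1, k1, w2, k2, w3, k3, rfl⟩
        refine ⟨v1 + w1, add_mem h1 k1, v2 + w2, add_mem h2 k2, v3 + w3, add_mem h3 k3, ?_⟩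
        ext i; fin_cases i <;> simp [tr] <;> abel
      zero_mem' := by
        refine ⟨0, zero_mem _, 0, zero_mem _, 0, zero_mem _, ?_⟩
        ext i; fin_cases i <;> simp [tr]
      smul_mem' := by
        rintro c _ ⟨v1, h1, v2, h2, v3, h3, rfl⟩
        refine ⟨c • v1, Submodule.smul_mem _ c h1, c • v2, Submodule.smul_mem _ c h2, c • v3,
          Submodule.smul_mem _ c h3, ?_⟩
        ext i; fin_cases i <;> simp [tr, smul_sub] }
  obtain ⟨v1, h1, v2, h2, v3, h3, e⟩ := M.starProjection_apply_mem (tr p q r)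
  have ho : ∀ w1 ∈ A ⊓ B, ∀ w2 ∈ B ⊓ C, ∀ w3 ∈ C ⊓ A,
      inner ℝ (p - (v1 - v2)) (w1 - w2) + inner ℝ (q - (v2 - v3)) (w2 - w3) +
        inner ℝ (r - (v3 - v1)) (w3 - w1) = 0 := by
    intro w1 k1 w2 k2 w3 k3
    have := Submodule.starProjection_inner_eq_zero (K := M) (tr p q r) _
      ⟨w1, k1, w2, k2, w3, k3, rfl⟩
    rwa [e, tr_sub, tr_inner] at this
  have hs' : p - (v1 - v2) + (q - (v2 - v3)) + (r - (v3 - v1)) = 0 := by
    rw [← hs]; abel
  have hp' : p - (v1 - v2) ∈ B := sub_mem hp (sub_mem h1.2 h2.1)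
  have hq' : q - (v2 - v3) ∈ C := sub_mem hq (sub_mem h2.2 h3.1)
  have hr' : r - (v3 - v1) ∈ A := sub_mem hr (sub_mem h3.2 h1.1)
  refine ⟨v1, h1, v2, h2, v3, h3, ?_⟩
  rw [← sub_eq_zero, ← sub_eq_zero (a := q)]
  generalize p - (v1 - v2) = p' at *
  generalize q - (v2 - v3) = q' at *
  generalize r - (v3 - v1) = r' at *
  have i1 := hAB r' hr' p' hp' (fun s hs => by
    have := ho s hs 0 (zero_mem _) 0 (zero_mem _)
    simp only [sub_zero, inner_zero_right, zero_sub, inner_neg_right] at this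
    linarith)
  have i2 := hBC p' hp' q' hq' (fun s hs => by
    have := ho 0 (zero_mem _) s hs 0 (zero_mem _)
    simp only [sub_zero, inner_zero_right, zero_sub, inner_neg_right] at this
    linarith)
  have i3 := hCA q' hq' r' hr' (fun s hs => by
    have := ho 0 (zero_mem _) 0 (zero_mem _) s hs
    simp only [sub_zero, inner_zero_right, zero_sub, inner_neg_right] at this
    linarith)
  have e0 : ‖p' + q' + r'‖ ^ 2 = 0 := by rw [hs']; simp
  rw [norm_add_sq_real, norm_add_sq_real, inner_add_left, real_inner_comm r' p'] at e0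
  have z1 : ‖p'‖ ^ 2 = 0 := by nlinarith [sq_nonneg ‖p'‖, sq_nonneg ‖q'‖, sq_nonneg ‖r'‖]
  have z2 : ‖q'‖ ^ 2 = 0 := by nlinarith [sq_nonneg ‖p'‖, sq_nonneg ‖q'‖, sq_nonneg ‖r'‖]
  exact ⟨by simpa using z1, by simpa using z2⟩

lemma mul_pow_of_central {E : Type*} [Group E] {g h z : E} (e : cm h g = z) (c1 : Commute g z)
    (c2 : Commute h z) (n : ℕ) : ∃ c : ℕ, (g * h) ^ n = g ^ n * h ^ n * z ^ c ∧
      2 * c + n = n * n := by
  induction n with
  | zero => exact ⟨0, by simp, by simp⟩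
  | succ n ih =>
    obtain ⟨c, h1, h2⟩ := ih
    refine ⟨c + n, ?_, by nlinarith⟩
    have e2 := conj_of_cm (cm_zpow e c2 c1 n 1)
    simp only [zpow_one, mul_one, zpow_natCast] at e2
    have e3 : h ^ n * g = g * (h ^ n * z ^ n) := by rw [← e2]; group
    have e4 : z ^ c * (g * h) = g * h * z ^ c := ((c1.mul_left c2).pow_right c).eq.symm
    have e5 : z ^ n * h = h * z ^ n := (c2.pow_right n).eq.symm
    calc (g * h) ^ (n + 1) = g ^ n * h ^ n * (z ^ c * (g * h)) := by rw [pow_succ, h1]; group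
      _ = g ^ n * (h ^ n * g) * h * z ^ c := by rw [e4]; group
      _ = g ^ n * g * h ^ n * (z ^ n * h) * z ^ c := by rw [e3]; group
      _ = g ^ (n + 1) * h ^ (n + 1) * z ^ (c + n) := by rw [e5]; group

/-- an affine isometric action with finite linear part -/
structure Aff (E Γ V : Type*) [Group E] [Group Γ] [NormedAddCommGroup V]
    [InnerProductSpace ℝ V] where
  σ : E →* Γ
  ρ : Γ →* (V ≃ₗᵢ[ℝ] V)
  β : E → V
  coc : ∀ g h, β (g * h) = β g + ρ (σ g) (β h)

namespace Aff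
variable {E Γ : Type*} [Group E] [Group Γ] [Finite Γ] (D : Aff E Γ V)

lemma β_one : D.β 1 = 0 := by
  have := D.coc 1 1
  rw [mul_one, map_one, rho_one] at this
  simpa using this

lemma β_mul {t : E} (ht : D.σ t = 1) (g : E) : D.β (t * g) = D.β t + D.β g := by
  rw [D.coc, ht, rho_one]

lemma β_pow {t : E} (ht : D.σ t = 1) (n : ℕ) : D.β (t ^ n) = (n : ℝ) • D.β t := by
  induction n with
  | zero => simp [D.β_one]
  | succ n ih => rw [pow_succ', D.β_mul ht, ih]; push_cast; rw [add_smul, one_smul, add_comm]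

lemma β_conj {t : E} (ht : D.σ t = 1) (g : E) :
    D.β (g⁻¹ * t * g) = D.ρ (D.σ g⁻¹) (D.β t) := by
  have e1 := D.coc g⁻¹ g
  rw [inv_mul_cancel, D.β_one] at e1
  rw [mul_assoc, D.coc, D.β_mul ht, map_add, ← add_assoc, add_right_comm, ← e1, zero_add]

lemma norm_conj {t : E} (ht : D.σ t = 1) (g : E) : ‖D.β (g⁻¹ * t * g)‖ = ‖D.β t‖ := by
  rw [D.β_conj ht, LinearIsometryEquiv.norm_map]

lemma σ_pow (g : E) (m : ℕ) : D.σ (g ^ (m * Nat.card Γ)) = 1 := by
  rw [map_pow, mul_comm, pow_mul, pow_card_eq_one', one_pow]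

/-- the action is faithful -/
def Faithful : Prop := ∀ g, D.σ g = 1 → D.β g = 0 → g = 1

variable {D}

lemma tors (hf : D.Faithful) {t : E} (ht : D.σ t = 1) {n : ℕ} (hn : n ≠ 0) (h : t ^ n = 1) :
    t = 1 := by
  have := D.β_pow ht n
  rw [h, D.β_one] at this
  exact hf t ht ((smul_eq_zero.mp this.symm).resolve_left (by exact_mod_cast hn))

variable {ν : ℤ} {a b : E}

lemma conj_pow' (g x : E) (n : ℕ) : (g⁻¹ * x * g) ^ n = g⁻¹ * x ^ n * g := by
  have := conj_pow (i := n) (a := g⁻¹) (b := x)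
  rwa [inv_inv] at this

lemma kap_pow (hf : D.Faithful) (h : Rel0 ν a b) (hν : 2 ≤ ν) (i : ℤ) :
    kap (cj a b) i ^ Nat.card Γ = 1 := by
  have ht : D.σ (kap (cj a b) i ^ Nat.card Γ) = 1 := by simp
  have e1 : (b ^ (1 : ℤ))⁻¹ * kap (cj a b) i ^ Nat.card Γ * b ^ (1 : ℤ) =
      (kap (cj a b) i ^ Nat.card Γ) ^ ((4 * ν) ^ 2).toNat := by
    rw [← conj_pow', kap_cj_conj, h.rel.kap_succ rfl, ← pow_mul, mul_comm (Nat.card Γ), pow_mul]
    congr 1
    exact ((zpow_natCast _ _).symm.trans (by rw [Int.toNat_of_nonneg (by positivity)])).symm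
  have e2 := D.norm_conj ht (b ^ (1 : ℤ))
  rw [e1, D.β_pow ht, norm_smul] at e2
  have e3 : (2 : ℝ) ≤ (((4 * ν) ^ 2).toNat : ℝ) := by
    have : 2 ≤ ((4 * ν) ^ 2).toNat := by
      rw [Int.le_toNat (by positivity)]; push_cast; nlinarith
    exact_mod_cast this
  rw [Real.norm_of_nonneg (by linarith)] at e2
  have e4 := norm_nonneg (D.β (kap (cj a b) i ^ Nat.card Γ))
  exact hf _ ht (norm_eq_zero.mp (by nlinarith))

lemma kap_mem (a : ℤ → E) (i : ℤ) : kap a i ∈ Subgroup.closure (Set.range a) := by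
  have hN : ∀ i, a i ∈ Subgroup.closure (Set.range a) := fun i =>
    Subgroup.subset_closure (Set.mem_range_self i)
  unfold kap cm
  exact mul_mem (mul_mem (mul_mem (inv_mem (hN _)) (inv_mem (hN _))) (hN _)) (hN _)

lemma Z_pow (hf : D.Faithful) (h : Rel0 ν a b) (hν : 2 ≤ ν) {z : E}
    (hz : z ∈ Subgroup.closure (Set.range (kap (cj a b)))) : z ^ Nat.card Γ = 1 := by
  have hZ : Subgroup.closure (Set.range (kap (cj a b))) ≤ Subgroup.closure (Set.range (cj a b)) := by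
    rw [Subgroup.closure_le]; rintro _ ⟨i, rfl⟩; exact kap_mem _ i
  induction hz using Subgroup.closure_induction with
  | mem x hx => obtain ⟨i, rfl⟩ := hx; exact kap_pow hf h hν i
  | one => simp
  | mul x y hx hy h1 h2 => rw [(h.rel.Z_central hy (hZ hx)).mul_pow, h1, h2, one_mul]
  | inv x _ h1 => rw [inv_pow, h1, inv_one]

lemma N_mul_pow (hf : D.Faithful) (h : Rel0 ν a b) (hν : 2 ≤ ν) {g y : E}
    (hg : g ∈ Subgroup.closure (Set.range (cj a b)))
    (hy : y ∈ Subgroup.closure (Set.range (cj a b))) :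
    (g * y) ^ (2 * Nat.card Γ) = g ^ (2 * Nat.card Γ) * y ^ (2 * Nat.card Γ) := by
  have hz := h.rel.cm_mem_all hy hg
  obtain ⟨c, h1, h2⟩ := mul_pow_of_central rfl (h.rel.Z_central hz hg) (h.rel.Z_central hz hy)
    (2 * Nat.card Γ)
  have hk : 0 < Nat.card Γ := Nat.card_pos
  have hc : c = Nat.card Γ * (2 * Nat.card Γ - 1) := by
    obtain ⟨k, hk⟩ : ∃ k, Nat.card Γ = k + 1 := ⟨Nat.card Γ - 1, by omega⟩
    rw [hk] at h2 ⊢
    rw [show 2 * (k + 1) - 1 = 2 * k + 1 by omega]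
    nlinarith
  rw [h1, hc, pow_mul (cm y g), Z_pow hf h hν hz, one_pow, mul_one]

lemma N_pow (hf : D.Faithful) (h : Rel0 ν a b) (hν : 2 ≤ ν) {g : E}
    (hg : g ∈ Subgroup.closure (Set.range (cj a b))) : g ^ (2 * Nat.card Γ) = 1 := by
  let N := Subgroup.closure (Set.range (cj a b))
  have hN : ∀ i, cj a b i ∈ N := fun i => Subgroup.subset_closure (Set.mem_range_self i)
  let θ : N →* Multiplicative V := MonoidHom.mk'
    (fun g => Multiplicative.ofAdd (D.β ((g : E) ^ (2 * Nat.card Γ)))) (fun x y => by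
      rw [← ofAdd_add, Subgroup.coe_mul, N_mul_pow hf h hν x.2 y.2, D.β_mul (D.σ_pow _ _)])
  let t : ℤ → V := fun i => D.β (cj a b i ^ (2 * Nat.card Γ))
  have ht : ∀ i, Multiplicative.toAdd (θ ⟨cj a b i, hN i⟩) = t i := fun i => rfl
  have nt : ∀ i, ‖t i‖ = ‖D.β (a ^ (2 * Nat.card Γ))‖ := by
    intro i
    simp only [t, cj]
    rw [conj_pow', D.norm_conj (D.σ_pow _ _)]
  have e : (⟨cj a b 4, hN _⟩ : N) = ((⟨cj a b 2, hN _⟩ : N) ^ (6 * (4 * ν) ^ 2))⁻¹ *
      (⟨cj a b 1, hN _⟩ : N) ^ (4 * (4 * ν) ^ 3) * ((⟨cj a b 0, hN _⟩ : N) ^ ((4 * ν) ^ 4))⁻¹ *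
      (⟨cj a b 3, hN _⟩ : N) ^ (4 * (4 * ν)) := by
    apply Subtype.ext
    simpa using h.rel.h4 (i := 0) (j1 := 1) (j2 := 2) (j3 := 3) (j4 := 4) rfl rfl rfl rfl
  have e2 := congrArg (fun x => Multiplicative.toAdd (θ x)) e
  simp only [map_mul, map_inv, map_zpow, toAdd_mul, toAdd_inv, toAdd_zpow, ht] at e2
  simp only [← Int.cast_smul_eq_zsmul ℝ] at e2
  push_cast at e2
  set m : ℝ := 4 * (ν : ℝ) with hm
  have hm8 : 8 ≤ m := by
    have : (2 : ℝ) ≤ ν := by exact_mod_cast hν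
    linarith
  have e3 : m ^ 4 • t 0 = -t 4 + -((6 * m ^ 2) • t 2) + (4 * m ^ 3) • t 1 + (4 * m) • t 3 := by
    rw [e2]; abel
  set s := ‖D.β (a ^ (2 * Nat.card Γ))‖ with hs
  have hs0 : 0 ≤ s := norm_nonneg _
  have i1 : m ^ 4 * s ≤ s + 6 * m ^ 2 * s + 4 * m ^ 3 * s + 4 * m * s := by
    have n0 : ‖m ^ 4 • t 0‖ = m ^ 4 * s := by
      rw [norm_smul, nt, Real.norm_of_nonneg (by positivity)]
    rw [← n0, e3]
    refine (norm_add_le _ _).trans (add_le_add ((norm_add_le _ _).trans (add_le_add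
      ((norm_add_le _ _).trans (add_le_add ?_ ?_)) ?_)) ?_)
    · rw [norm_neg, nt]
    · rw [norm_neg, norm_smul, nt, Real.norm_of_nonneg (by positivity)]
    · rw [norm_smul, nt, Real.norm_of_nonneg (by positivity)]
    · rw [norm_smul, nt, Real.norm_of_nonneg (by positivity)]
  have i2 : 1 + 6 * m ^ 2 + 4 * m ^ 3 + 4 * m < m ^ 4 := by
    have h2 : 64 ≤ m ^ 2 := by nlinarith
    have h3 : 8 * m ^ 2 ≤ m ^ 3 := by nlinarith
    have h4 : 8 * m ^ 3 ≤ m ^ 4 := by nlinarith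
    nlinarith
  have s0 : s = 0 := by
    by_contra h0
    have : 0 < s := lt_of_le_of_ne hs0 (Ne.symm h0)
    nlinarith
  induction hg using Subgroup.closure_induction with
  | mem x hx =>
    obtain ⟨i, rfl⟩ := hx
    exact hf _ (D.σ_pow _ _) (norm_eq_zero.mp ((nt i).trans s0))
  | one => simp
  | mul x y hx hy h1 h2 => rw [N_mul_pow hf h hν hx hy, h1, h2, one_mul]
  | inv x _ h1 => rw [inv_pow, h1, inv_one]

lemma N_conj (a b : E) (j : ℤ) {g : E} (hg : g ∈ Subgroup.closure (Set.range (cj a b))) :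
    (b ^ j)⁻¹ * g * b ^ j ∈ Subgroup.closure (Set.range (cj a b)) := by
  induction hg using Subgroup.closure_induction with
  | mem x hx =>
    obtain ⟨i, rfl⟩ := hx
    rw [cj_conj]; exact Subgroup.subset_closure (Set.mem_range_self _)
  | one => simp
  | mul x y _ _ h1 h2 =>
    have := mul_mem h1 h2
    convert this using 1; group
  | inv x _ h1 =>
    have := inv_mem h1
    convert this using 1; group

/-- the vertex group -/
def PP (a b : E) : Subgroup E where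
  carrier := {g | ∃ j : ℤ, ∃ n ∈ Subgroup.closure (Set.range (cj a b)), g = b ^ j * n}
  one_mem' := ⟨0, 1, one_mem _, by simp⟩
  mul_mem' := by
    rintro _ _ ⟨i, n, hn, rfl⟩ ⟨j, m, hm, rfl⟩
    exact ⟨i + j, _, mul_mem (N_conj a b j hn) hm, by rw [zpow_add]; group⟩
  inv_mem' := by
    rintro _ ⟨i, n, hn, rfl⟩
    exact ⟨-i, _, N_conj a b (-i) (inv_mem hn), by group⟩

lemma fixed_pair (hf : D.Faithful) (h : Rel0 ν a b) (hν : 2 ≤ ν)
    (hb : b ^ (2 * Nat.card Γ) = 1) :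
    ∃ x : V, D.β a + D.ρ (D.σ a) x = x ∧ D.β b + D.ρ (D.σ b) x = x := by
  have hk : 0 < Nat.card Γ := Nat.card_pos
  have key : ∀ g ∈ PP a b, D.σ g = 1 → g = 1 := by
    rintro _ ⟨j, n, hn, rfl⟩ hg
    have e : ∀ r : ℕ, ∃ n' ∈ Subgroup.closure (Set.range (cj a b)),
        (b ^ j * n) ^ r = (b ^ j) ^ r * n' := by
      intro r
      induction r with
      | zero => exact ⟨1, one_mem _, by simp⟩
      | succ r ih =>
        obtain ⟨n', h1, h2⟩ := ih
        exact ⟨_, mul_mem (N_conj a b j h1) hn, by rw [pow_succ, h2, pow_succ]; group⟩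
    obtain ⟨n', h1, h2⟩ := e (2 * Nat.card Γ)
    rw [← zpow_natCast (b ^ j), ← zpow_mul, mul_comm j, zpow_mul, zpow_natCast, hb, one_zpow,
      one_mul] at h2
    refine tors hf hg (n := 2 * Nat.card Γ * (2 * Nat.card Γ)) (by positivity) ?_
    rw [pow_mul, h2, N_pow hf h hν h1]
  have hinj : Function.Injective (D.σ.comp (PP a b).subtype) := by
    rw [injective_iff_map_eq_one]
    intro g hg
    exact Subtype.ext (key g g.2 hg)
  have : Finite (PP a b) := Finite.of_injective _ hinj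
  have := Fintype.ofFinite (PP a b)
  have hc : (Fintype.card (PP a b) : ℝ) ≠ 0 := by positivity
  have fx : ∀ g ∈ PP a b, D.β g + D.ρ (D.σ g) ((Fintype.card (PP a b) : ℝ)⁻¹ •
      ∑ y : PP a b, D.β y) = (Fintype.card (PP a b) : ℝ)⁻¹ • ∑ y : PP a b, D.β y := by
    intro g hg
    have e1 : ∑ y : PP a b, D.β ((⟨g, hg⟩ * y : PP a b) : E) = ∑ y : PP a b, D.β y :=
      Equiv.sum_comp (Equiv.mulLeft (⟨g, hg⟩ : PP a b)) (fun y => D.β y)
    conv_rhs => rw [← e1]
    simp only [Subgroup.coe_mul, D.coc, Finset.sum_add_distrib, Finset.sum_const,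
      Finset.card_univ, smul_add, map_smul, map_sum]
    rw [← Nat.cast_smul_eq_nsmul ℝ, smul_smul, inv_mul_cancel₀ hc, one_smul]
  refine ⟨_, fx a ⟨0, a, ?_, by simp⟩, fx b ⟨1, 1, one_mem _, by simp⟩⟩
  exact Subgroup.subset_closure ⟨0, by simp⟩

lemma fixed_all_faithful (hf : D.Faithful) {c : E} (h1 : Rel0 ν a b) (h2 : Rel0 ν b c)
    (h3 : Rel0 ν c a) (hν : 2 ≤ ν) (hμ : ∀ r : ℕ, r.Prime → r ≤ 35 → (r : ℤ) ∣ 4 * ν) :
    ∃ x : V, D.β a + D.ρ (D.σ a) x = x ∧ D.β b + D.ρ (D.σ b) x = x ∧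
      D.β c + D.ρ (D.σ c) x = x := by
  have m0 : ∀ a b : E, a ∈ Subgroup.closure (Set.range (cj a b)) := fun a b =>
    Subgroup.subset_closure ⟨0, by simp⟩
  obtain ⟨x, xa, xb⟩ := fixed_pair hf h1 hν (N_pow hf h2 hν (m0 _ _))
  obtain ⟨y, yb, yc⟩ := fixed_pair hf h2 hν (N_pow hf h3 hν (m0 _ _))
  obtain ⟨z, zc, za⟩ := fixed_pair hf h3 hν (N_pow hf h1 hν (m0 _ _))
  have dif : ∀ (g : E) (x y : V), D.β g + D.ρ (D.σ g) x = x → D.β g + D.ρ (D.σ g) y = y →
      x - y ∈ Fx D.ρ (D.σ g) := by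
    intro g x y hx hy
    rw [mem_Fx, map_sub]
    conv_rhs => rw [← hx, ← hy]
    abel
  have sub : ∀ (g : E) (x v : V), D.β g + D.ρ (D.σ g) x = x → v ∈ Fx D.ρ (D.σ g) →
      D.β g + D.ρ (D.σ g) (x - v) = x - v := by
    intro g x v hx hv
    rw [map_sub, mem_Fx.mp hv, ← add_sub_assoc, hx]
  obtain ⟨v1, k1, v2, k2, v3, k3, e1, e2⟩ := triangle (Fx D.ρ (D.σ a)) (Fx D.ρ (D.σ b))
    (Fx D.ρ (D.σ c)) (fun u hu w hw ho => angle' (h1.map D.σ) hμ hu hw ho)
    (fun u hu w hw ho => angle' (h2.map D.σ) hμ hu hw ho)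
    (fun u hu w hw ho => angle' (h3.map D.σ) hμ hu hw ho)
    (dif b x y xb yb) (dif c y z yc zc) (dif a z x za xa) (by abel)
  refine ⟨x - v1, sub a x v1 xa k1.1, sub b x v1 xb k1.2, ?_⟩
  have : x - v1 = y - v2 := by
    rw [sub_eq_iff_eq_add] at e1
    rw [e1]; abel
  rw [this]
  exact sub c y v2 yc k2.2

/-- kernel of the action -/
def ker (D : Aff E Γ V) : Subgroup E where
  carrier := {g | D.σ g = 1 ∧ D.β g = 0}
  one_mem' := ⟨map_one _, D.β_one⟩
  mul_mem' := fun {x y} hx hy => ⟨by rw [map_mul, hx.1, hy.1, one_mul],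
    by rw [D.β_mul hx.1, hx.2, hy.2, add_zero]⟩
  inv_mem' := fun {x} hx => ⟨by rw [map_inv, hx.1, inv_one], by
    have := D.β_mul hx.1 x⁻¹
    rw [mul_inv_cancel, D.β_one, hx.2, zero_add] at this
    exact this.symm⟩

instance (D : Aff E Γ V) : D.ker.Normal := ⟨fun n hn g => ⟨by simp [hn.1], by
  have := D.β_conj hn.1 g⁻¹
  rw [inv_inv] at this
  rw [this, hn.2, map_zero]⟩⟩

/-- the induced faithful action -/
def quot (D : Aff E Γ V) : Aff (E ⧸ D.ker) Γ V where
  σ := QuotientGroup.lift D.ker D.σ (fun _ hx => hx.1)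
  ρ := D.ρ
  β := fun x => Quotient.liftOn' x D.β (fun g h e => by
    have e1 := QuotientGroup.leftRel_apply.mp e
    have := D.coc g (g⁻¹ * h)
    rw [e1.2, map_zero, add_zero, mul_inv_cancel_left] at this
    exact this.symm)
  coc := by
    intro g h
    induction g using QuotientGroup.induction_on with | H g => ?_
    induction h using QuotientGroup.induction_on with | H h => ?_
    exact D.coc g h

lemma quot_faithful (D : Aff E Γ V) : D.quot.Faithful := by
  intro g h1 h2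
  induction g using QuotientGroup.induction_on with | H g => ?_
  exact (QuotientGroup.eq_one_iff g).mpr ⟨h1, h2⟩

lemma fixed_all (D : Aff E Γ V) {c : E} (h1 : Rel0 ν a b) (h2 : Rel0 ν b c)
    (h3 : Rel0 ν c a) (hν : 2 ≤ ν) (hμ : ∀ r : ℕ, r.Prime → r ≤ 35 → (r : ℤ) ∣ 4 * ν)
    (hgen : Subgroup.closure {a, b, c} = ⊤) : ∃ x : V, ∀ g, D.β g + D.ρ (D.σ g) x = x := by
  obtain ⟨x, xa, xb, xc⟩ := fixed_all_faithful D.quot_faithful (h1.map (QuotientGroup.mk' _))
    (h2.map (QuotientGroup.mk' _)) (h3.map (QuotientGroup.mk' _)) hν hμ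
  refine ⟨x, fun g => ?_⟩
  have hg : g ∈ Subgroup.closure {a, b, c} := hgen ▸ Subgroup.mem_top g
  induction hg using Subgroup.closure_induction with
  | mem y hy =>
    rcases hy with rfl | rfl | rfl
    · exact xa
    · exact xb
    · exact xc
  | one => rw [D.β_one, map_one, rho_one, zero_add]
  | mul y z _ _ k1 k2 => rw [D.coc, map_mul, rho_mul, add_assoc, ← map_add, k2, k1]
  | inv y _ k1 =>
    have e := D.coc y⁻¹ y
    rw [inv_mul_cancel, D.β_one] at e
    conv_lhs => rw [← k1]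
    rw [map_add, ← add_assoc, ← e, zero_add, map_inv, rho_inv_rho]

end Aff

/-- permutation representation -/
noncomputable def permRep (X : Type*) [Fintype X] :
    Equiv.Perm X →* (EuclideanSpace ℝ X ≃ₗᵢ[ℝ] EuclideanSpace ℝ X) :=
  MonoidHom.mk' (fun e => LinearIsometryEquiv.piLpCongrLeft 2 ℝ ℝ e) (fun e f => by
    ext v x
    simp [LinearIsometryEquiv.piLpCongrLeft_apply, Equiv.piCongrLeft'_apply]
    rfl)

lemma permRep_apply {X : Type*} [Fintype X] (e : Equiv.Perm X) (v : EuclideanSpace ℝ X) (x : X) :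
    permRep X e v x = v (e.symm x) := by
  simp [permRep, LinearIsometryEquiv.piLpCongrLeft_apply, Equiv.piCongrLeft'_apply]

/-- finite index subgroups have no nontrivial homomorphism to the integers -/
theorem hom_trivial {G : Type*} [Group G] {ν : ℤ} {a b c : G} (h1 : Rel0 ν a b) (h2 : Rel0 ν b c)
    (h3 : Rel0 ν c a) (hν : 2 ≤ ν) (hμ : ∀ r : ℕ, r.Prime → r ≤ 35 → (r : ℤ) ∣ 4 * ν)
    (hgen : Subgroup.closure {a, b, c} = ⊤) (H : Subgroup G) [H.FiniteIndex]
    (ψ : H →* Multiplicative ℤ) (h : H) : ψ h = 1 := by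
  classical
  have := Fintype.ofFinite (G ⧸ H)
  have mem : ∀ (g : G) (x : G ⧸ H), (x.out)⁻¹ * g * (g⁻¹ • x).out ∈ H := by
    intro g x
    rw [mul_assoc, ← QuotientGroup.eq, QuotientGroup.out_eq']
    show x = g • ((g⁻¹ • x).out : G ⧸ H)
    rw [QuotientGroup.out_eq', smul_inv_smul]
  let D : Aff G (Equiv.Perm (G ⧸ H)) (EuclideanSpace ℝ (G ⧸ H)) :=
    { σ := MulAction.toPermHom G (G ⧸ H)
      ρ := permRep _
      β := fun g => WithLp.toLp 2 (fun x => ((Multiplicative.toAdd (ψ ⟨_, mem g x⟩) : ℤ) : ℝ))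
      coc := by
        intro g k
        ext x
        rw [PiLp.add_apply, permRep_apply]
        have e : (⟨_, mem (g * k) x⟩ : H) = ⟨_, mem g x⟩ * ⟨_, mem k (g⁻¹ • x)⟩ := by
          apply Subtype.ext
          simp only [Subgroup.coe_mul, mul_inv_rev, mul_smul]
          group
        simp only [e, map_mul, toAdd_mul]
        push_cast
        rfl }
  obtain ⟨x, hx⟩ := D.fixed_all h1 h2 h3 hν hμ hgen
  have e1 := congrArg (fun v : EuclideanSpace ℝ (G ⧸ H) => v ((1 : G) : G ⧸ H)) (hx h)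
  have e2 : (h : G)⁻¹ • ((1 : G) : G ⧸ H) = ((1 : G) : G ⧸ H) := by
    show (((h : G)⁻¹ * 1 : G) : G ⧸ H) = _
    rw [QuotientGroup.eq]; simp
  simp only [PiLp.add_apply, D, permRep_apply] at e1
  have e3 : ((MulAction.toPermHom G (G ⧸ H)) h).symm ((1 : G) : G ⧸ H) = ((1 : G) : G ⧸ H) := e2
  rw [e3] at e1
  have e4 : ψ ⟨_, mem h ((1 : G) : G ⧸ H)⟩ = 1 := by
    have : Multiplicative.toAdd (ψ ⟨_, mem h ((1 : G) : G ⧸ H)⟩) = 0 := by
      have : ((Multiplicative.toAdd (ψ ⟨_, mem h ((1 : G) : G ⧸ H)⟩) : ℤ) : ℝ) = 0 := by linarith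
      exact_mod_cast this
    exact this
  have m0 : ((1 : G) : G ⧸ H).out ∈ H := by
    have := QuotientGroup.out_eq' ((1 : G) : G ⧸ H)
    rw [QuotientGroup.eq] at this
    simpa using this
  have e5 : (⟨_, mem h ((1 : G) : G ⧸ H)⟩ : H) = (⟨_, m0⟩ : H)⁻¹ * h * ⟨_, m0⟩ := by
    apply Subtype.ext
    simp only [e2]
    rfl
  rw [e5, map_mul, map_mul, map_inv, mul_right_comm, inv_mul_cancel, one_mul] at e4
  exact e4

end Pool.Agent.MP_ab7c65_al

end

-- part MP_ab7c65_al.GS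
section

/-!
Zassenhaus degrees of the relators.
-/

set_option autoImplicit false

open scoped Pointwise

namespace Pool.Agent.MP_ab7c65_al

variable {F : Type*} [Group F]

/-- the augmentation ideal over the field with 37 elements -/
noncomputable abbrev Aug (F : Type*) [Group F] : Submodule (ZMod 37) (MonoidAlgebra (ZMod 37) F) :=
  Submodule.span (ZMod 37) (Set.range (fun g : F => MonoidAlgebra.of (ZMod 37) F g - 1))

lemma gen_mem (g : F) : MonoidAlgebra.of (ZMod 37) F g - 1 ∈ Aug F :=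
  Submodule.subset_span ⟨g, rfl⟩

lemma aug_mul_le : Aug F * Aug F ≤ Aug F := by
  rw [Submodule.span_mul_span, Submodule.span_le]
  rintro _ ⟨_, ⟨g, rfl⟩, _, ⟨h, rfl⟩, rfl⟩
  have : (MonoidAlgebra.of (ZMod 37) F g - 1) * (MonoidAlgebra.of (ZMod 37) F h - 1) =
      (MonoidAlgebra.of (ZMod 37) F (g * h) - 1) - (MonoidAlgebra.of (ZMod 37) F g - 1) -
        (MonoidAlgebra.of (ZMod 37) F h - 1) := by
    rw [map_mul]; noncomm_ring
  show (MonoidAlgebra.of (ZMod 37) F g - 1) * (MonoidAlgebra.of (ZMod 37) F h - 1) ∈ Aug F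
  rw [this]
  exact sub_mem (sub_mem (gen_mem _) (gen_mem _)) (gen_mem _)

lemma aug_succ_le (n : ℕ) : Aug F ^ (n + 2) ≤ Aug F ^ (n + 1) := by
  rw [pow_succ, pow_succ, mul_assoc]
  gcongr
  exact aug_mul_le

lemma aug_le {m n : ℕ} (h : n ≤ m) : Aug F ^ (m + 1) ≤ Aug F ^ (n + 1) := by
  induction h with
  | refl => exact le_rfl
  | step _ ih => exact (aug_succ_le _).trans ih

lemma mul_of_mem {n : ℕ} {x : MonoidAlgebra (ZMod 37) F} (hx : x ∈ Aug F ^ (n + 1)) (g : F) :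
    x * MonoidAlgebra.of (ZMod 37) F g ∈ Aug F ^ (n + 1) := by
  have : x * MonoidAlgebra.of (ZMod 37) F g = x * (MonoidAlgebra.of (ZMod 37) F g - 1) + x := by
    noncomm_ring
  rw [this]
  refine add_mem (aug_succ_le n ?_) hx
  rw [pow_succ]
  exact Submodule.mul_mem_mul hx (gen_mem g)

lemma of_mul_mem {n : ℕ} {x : MonoidAlgebra (ZMod 37) F} (hx : x ∈ Aug F ^ (n + 1)) (g : F) :
    MonoidAlgebra.of (ZMod 37) F g * x ∈ Aug F ^ (n + 1) := by
  have : MonoidAlgebra.of (ZMod 37) F g * x = (MonoidAlgebra.of (ZMod 37) F g - 1) * x + x := by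
    noncomm_ring
  rw [this]
  refine add_mem (aug_succ_le n ?_) hx
  rw [pow_succ']
  exact Submodule.mul_mem_mul (gen_mem g) hx

/-- the Zassenhaus filtration, shifted by one -/
def Zs (F : Type*) [Group F] (n : ℕ) : Subgroup F where
  carrier := {g | MonoidAlgebra.of (ZMod 37) F g - 1 ∈ Aug F ^ (n + 1)}
  one_mem' := by simp [← MonoidAlgebra.one_def]
  mul_mem' := fun {g h} hg hh => by
    have : MonoidAlgebra.of (ZMod 37) F (g * h) - 1 =
        (MonoidAlgebra.of (ZMod 37) F g - 1) * MonoidAlgebra.of (ZMod 37) F h +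
          (MonoidAlgebra.of (ZMod 37) F h - 1) := by
      rw [map_mul]; noncomm_ring
    show _ ∈ Aug F ^ (n + 1)
    rw [this]
    exact add_mem (mul_of_mem hg h) hh
  inv_mem' := fun {g} hg => by
    have e : MonoidAlgebra.of (ZMod 37) F g * MonoidAlgebra.of (ZMod 37) F g⁻¹ = 1 := by
      rw [← map_mul, mul_inv_cancel, map_one]
    have : MonoidAlgebra.of (ZMod 37) F g⁻¹ - 1 =
        -((MonoidAlgebra.of (ZMod 37) F g - 1) * MonoidAlgebra.of (ZMod 37) F g⁻¹) := by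
      rw [sub_mul, e]; noncomm_ring
    show _ ∈ Aug F ^ (n + 1)
    rw [this]
    exact neg_mem (mul_of_mem hg _)

lemma mem_Zs {n : ℕ} {g : F} :
    g ∈ Zs F n ↔ MonoidAlgebra.of (ZMod 37) F g - 1 ∈ Aug F ^ (n + 1) := Iff.rfl

instance (n : ℕ) : (Zs F n).Normal := ⟨fun g hg x => by
  have e : MonoidAlgebra.of (ZMod 37) F x * MonoidAlgebra.of (ZMod 37) F x⁻¹ = 1 := by
    rw [← map_mul, mul_inv_cancel, map_one]
  have : MonoidAlgebra.of (ZMod 37) F (x * g * x⁻¹) - 1 =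
      MonoidAlgebra.of (ZMod 37) F x * (MonoidAlgebra.of (ZMod 37) F g - 1) *
        MonoidAlgebra.of (ZMod 37) F x⁻¹ := by
    rw [mul_sub, sub_mul, mul_one, e, map_mul, map_mul]
  rw [mem_Zs, this]
  exact mul_of_mem (of_mul_mem hg _) _⟩

lemma mem_Zs_zero (g : F) : g ∈ Zs F 0 := by
  rw [mem_Zs, zero_add, pow_one]; exact gen_mem g

lemma Zs_le {m n : ℕ} (h : n ≤ m) : Zs F m ≤ Zs F n := fun _ hg => aug_le h hg

lemma cm_mem_Zs {i j n : ℕ} {g h : F} (hg : g ∈ Zs F i) (hh : h ∈ Zs F j) (hn : n = i + j + 1) :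
    cm g h ∈ Zs F n := by
  have e : MonoidAlgebra.of (ZMod 37) F (g⁻¹ * h⁻¹) * (MonoidAlgebra.of (ZMod 37) F h *
      MonoidAlgebra.of (ZMod 37) F g) = 1 := by
    rw [← map_mul, ← map_mul, show g⁻¹ * h⁻¹ * (h * g) = 1 by group, map_one]
  have : MonoidAlgebra.of (ZMod 37) F (cm g h) - 1 = MonoidAlgebra.of (ZMod 37) F (g⁻¹ * h⁻¹) *
      ((MonoidAlgebra.of (ZMod 37) F g - 1) * (MonoidAlgebra.of (ZMod 37) F h - 1) -
        (MonoidAlgebra.of (ZMod 37) F h - 1) * (MonoidAlgebra.of (ZMod 37) F g - 1)) := by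
    rw [cm, mul_assoc, map_mul _ (g⁻¹ * h⁻¹), map_mul _ g h]
    conv_lhs => rw [← e]
    noncomm_ring
  rw [mem_Zs, this]
  refine of_mul_mem (sub_mem ?_ ?_) _
  · rw [show n + 1 = (i + 1) + (j + 1) by omega, pow_add]
    exact Submodule.mul_mem_mul hg hh
  · rw [show n + 1 = (j + 1) + (i + 1) by omega, pow_add]
    exact Submodule.mul_mem_mul hh hg

lemma gen_pow_mem (g : F) {m n : ℕ} (h : n + 1 ≤ m) :
    (MonoidAlgebra.of (ZMod 37) F g - 1) ^ m ∈ Aug F ^ (n + 1) := by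
  obtain ⟨k, rfl⟩ : ∃ k, m = k + 1 := ⟨m - 1, by omega⟩
  exact aug_le (by omega) (Submodule.pow_mem_pow _ (gen_mem g) (k + 1))

lemma pow_mem_Zs (g : F) : g ^ 37 ∈ Zs F 4 := by
  have : Fact (Nat.Prime 37) := ⟨by norm_num⟩
  have : CharP (MonoidAlgebra (ZMod 37) F) 37 :=
    charP_of_injective_algebraMap (R := ZMod 37) (algebraMap (ZMod 37) _).injective 37
  have e := sub_pow_char_of_commute 37 (Commute.one_right (MonoidAlgebra.of (ZMod 37) F g))
  rw [one_pow] at e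
  have h2 := gen_pow_mem g (m := 37) (n := 4) (by norm_num)
  rw [e, ← map_pow] at h2
  exact mem_Zs.mpr h2

/-- a hom from the free abelian group of rank four -/
lemma rel_of_comm {Q : Type*} [Group Q] {a b : Q} {ν : ℤ} (hν : (37 : ℤ) ∣ 4 * ν - 1)
    (hp : ∀ g : Q, g ^ 37 = 1) (h1 : Commute a (cm a b))
    (h2 : Commute (cm a b) (cm (cm a b) b)) (h3 : Commute a (cm (cm (cm a b) b) b))
    (h4 : Commute (cm a b) (cm (cm (cm a b) b) b))
    (h5 : Commute (cm (cm a b) b) (cm (cm (cm a b) b) b)) (h6 : Commute (cm (cm (cm a b) b) b) b) :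
    cj a b 2 ^ (6 * (4 * ν) ^ 2) =
      cj a b 1 ^ (4 * (4 * ν) ^ 3) * a ^ (-(4 * ν) ^ 4) * cj a b 3 ^ (4 * (4 * ν)) *
        (cj a b 4)⁻¹ := by
  have ca := conj_of_cm (rfl : cm a b = _)
  have ce := conj_of_cm (rfl : cm (cm a b) b = _)
  have cd := conj_of_cm (rfl : cm (cm (cm a b) b) b = _)
  generalize cm (cm (cm a b) b) b = v at *
  generalize cm (cm a b) b = d at *
  generalize cm a b = e at *
  have cv : b⁻¹ * v * b = v := by rw [mul_assoc, h6.eq]; group
  have had : Commute a d := by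
    have c := commute_conj b h1
    rw [ca, ce] at c
    have e1 : a * e * (e * d) = e * e * (a * d) := by
      calc a * e * (e * d) = (a * e) * e * d := by group
        _ = e * (a * e) * d := by rw [h1.eq, mul_assoc e a e, h1.eq]
        _ = e * e * (a * d) := by rw [h1.eq]; group
    have e2 : e * d * (a * e) = e * e * (d * a) := by
      calc e * d * (a * e) = e * (d * e) * a := by rw [h1.eq]; group
        _ = e * e * (d * a) := by rw [← h2.eq]; group
    have := c.eq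
    rw [e1, e2] at this
    exact mul_left_cancel this
  let C := Subgroup.closure ({a, e, d, v} : Set Q)
  have hcomm : IsMulCommutative C := Subgroup.isMulCommutative_closure (by
    intro x hx y hy
    rcases hx with rfl | rfl | rfl | rfl <;> rcases hy with rfl | rfl | rfl | rfl <;>
      first | rfl | exact h1.eq | exact h1.eq.symm | exact h2.eq | exact h2.eq.symm |
        exact h3.eq | exact h3.eq.symm | exact h4.eq | exact h4.eq.symm | exact h5.eq |
        exact h5.eq.symm | exact had.eq | exact had.eq.symm)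
  let : CommGroup C := { (inferInstance : Group C) with mul_comm := hcomm.is_comm.comm }
  let A : C := ⟨a, Subgroup.subset_closure (by simp)⟩
  let E : C := ⟨e, Subgroup.subset_closure (by simp)⟩
  let D : C := ⟨d, Subgroup.subset_closure (by simp)⟩
  let W : C := ⟨v, Subgroup.subset_closure (by simp)⟩
  let f : Q →* Q := (MulAut.conj b⁻¹).toMonoidHom
  have hf : ∀ x, f x = b⁻¹ * x * b := fun x => by
    show b⁻¹ * x * (b⁻¹)⁻¹ = _
    rw [inv_inv]
  have fa : f a = a * e := by rw [hf, ca]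
  have fe : f e = e * d := by rw [hf, ce]
  have fd : f d = d * v := by rw [hf, cd]
  have fv : f v = v := by rw [hf, cv]
  have step : ∀ i : ℤ, cj a b (i + 1) = f (cj a b i) := fun i => by
    rw [hf, ← cj_conj, zpow_one]
  have c1 : cj a b 1 = a * e := by
    rw [show (1 : ℤ) = 0 + 1 by rfl, step, cj_zero, fa]
  have c2 : cj a b 2 = a * e * (e * d) := by
    rw [show (2 : ℤ) = 1 + 1 by rfl, step, c1, map_mul, fa, fe]
  have c3 : cj a b 3 = a * e * (e * d) * (e * d * (d * v)) := by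
    rw [show (3 : ℤ) = 2 + 1 by rfl, step, c2]
    simp only [map_mul, fa, fe, fd]
  have c4 : cj a b 4 = a * e * (e * d) * (e * d * (d * v)) * (e * d * (d * v) * (d * v * v)) := by
    rw [show (4 : ℤ) = 3 + 1 by rfl, step, c3]
    simp only [map_mul, fa, fe, fd, fv]
  obtain ⟨k, hk⟩ := hν
  have hm : 4 * ν = 1 + 37 * k := by omega
  have red : ∀ (x : Q) (m n : ℤ), (37 : ℤ) ∣ m - n → x ^ m = x ^ n := by
    rintro x m n ⟨t, ht⟩
    have h37 : x ^ (37 : ℤ) = 1 := by exact_mod_cast hp x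
    rw [show m = n + 37 * t by omega, zpow_add, zpow_mul, h37]; simp
  rw [red _ (6 * (4 * ν) ^ 2) 6 ⟨6 * (2 * k + 37 * k ^ 2), by rw [hm]; ring⟩,
    red _ (4 * (4 * ν) ^ 3) 4 ⟨4 * (3 * k + 3 * 37 * k ^ 2 + 37 ^ 2 * k ^ 3), by rw [hm]; ring⟩,
    red _ (-(4 * ν) ^ 4) (-1)
      ⟨-(4 * k + 6 * 37 * k ^ 2 + 4 * 37 ^ 2 * k ^ 3 + 37 ^ 3 * k ^ 4), by rw [hm]; ring⟩,
    red _ (4 * (4 * ν)) 4 ⟨4 * k, by rw [hm]; ring⟩, c1, c2, c3, c4]
  have key : (A * E * (E * D)) ^ (6 : ℤ) = (A * E) ^ (4 : ℤ) * A ^ (-1 : ℤ) *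
      (A * E * (E * D) * (E * D * (D * W))) ^ (4 : ℤ) *
      (A * E * (E * D) * (E * D * (D * W)) * (E * D * (D * W) * (D * W * W)))⁻¹ := by
    apply Additive.ofMul.injective
    simp only [ofMul_mul, ofMul_zpow, ofMul_inv]
    abel
  exact congrArg Subtype.val key

/-- the first relator -/
def s1 (a b : F) : F := cm a (cj a b 1)

/-- the second relator before correction -/
def s2 (ν : ℤ) (a b : F) : F := (cj a b 2 ^ (6 * (4 * ν) ^ 2))⁻¹ *
  (cj a b 1 ^ (4 * (4 * ν) ^ 3) * a ^ (-(4 * ν) ^ 4) * cj a b 3 ^ (4 * (4 * ν)) * (cj a b 4)⁻¹)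

lemma s1_eq (a b : F) : s1 a b = cm a (cm a b) := by
  unfold s1 cm cj; group

lemma s1_mem (a b : F) : s1 a b ∈ Zs F 2 := by
  rw [s1_eq]
  exact cm_mem_Zs (mem_Zs_zero a) (cm_mem_Zs (mem_Zs_zero a) (mem_Zs_zero b) rfl) rfl

lemma map_cm {F' : Type*} [Group F'] (f : F →* F') (a b : F) : f (cm a b) = cm (f a) (f b) := by
  simp [cm]

lemma commute_of_cm {a b : F} (h : cm a b = 1) : Commute a b := by
  have := conj_of_cm h
  rw [mul_one] at this
  show a * b = b * a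
  conv_rhs => rw [← this]
  group

lemma exists_s2 {ν : ℤ} (hν : (37 : ℤ) ∣ 4 * ν - 1) (a b : F) :
    ∃ r ∈ Zs F 4, ∀ {G : Type} [Group G] (f : F →* G), f (s1 a b) = 1 → f r = 1 →
      Rel0 ν (f a) (f b) := by
  let K : Subgroup F := Subgroup.normalClosure {s1 a b} ⊔ Zs F 4
  let π : F →* F ⧸ K := QuotientGroup.mk' K
  have z : ∀ g ∈ Zs F 4, π g = 1 := fun g hg =>
    (QuotientGroup.eq_one_iff g).mpr (Subgroup.mem_sup_right hg)
  have ma := mem_Zs_zero a
  have mb := mem_Zs_zero b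
  have me : cm a b ∈ Zs F 1 := cm_mem_Zs ma mb rfl
  have md : cm (cm a b) b ∈ Zs F 2 := cm_mem_Zs me mb rfl
  have mv : cm (cm (cm a b) b) b ∈ Zs F 3 := cm_mem_Zs md mb rfl
  have hc : ∀ x y : F, cm x y ∈ Zs F 4 → Commute (π x) (π y) := fun x y h =>
    commute_of_cm (by rw [← map_cm, z _ h])
  have key := rel_of_comm (a := π a) (b := π b) hν (fun g => by
      induction g using QuotientGroup.induction_on with | H g => ?_
      have := z _ (pow_mem_Zs g)
      rwa [map_pow] at this)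
    (commute_of_cm (by
      rw [← map_cm, ← map_cm, ← s1_eq]
      exact (QuotientGroup.eq_one_iff _).mpr
        (Subgroup.mem_sup_left (Subgroup.subset_normalClosure rfl))))
    (by simpa only [map_cm] using hc _ _ (cm_mem_Zs me md rfl))
    (by simpa only [map_cm] using hc _ _ (cm_mem_Zs ma mv rfl))
    (by simpa only [map_cm] using hc _ _ (Zs_le (by norm_num) (cm_mem_Zs me mv rfl)))
    (by simpa only [map_cm] using hc _ _ (Zs_le (by norm_num) (cm_mem_Zs md mv rfl)))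
    (by simpa only [map_cm] using hc _ _ (cm_mem_Zs mv mb rfl))
  have h2 : s2 ν a b ∈ K := by
    rw [← QuotientGroup.eq_one_iff]
    show π (s2 ν a b) = 1
    simp only [s2, map_mul, map_inv, map_zpow, map_cj]
    rw [← key, inv_mul_cancel]
  have h3 : s2 ν a b ∈ ((Subgroup.normalClosure {s1 a b} : Subgroup F) : Set F) *
      (Zs F 4 : Set F) := by
    rw [← Subgroup.mul_normal]; exact h2
  obtain ⟨n, hn, r, hr, e⟩ := h3
  refine ⟨r, hr, fun f k1 k2 => ⟨?_, ?_⟩⟩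
  · apply commute_of_cm
    rw [← map_cj, ← map_cm]; exact k1
  · have k3 : f n = 1 := by
      have : Subgroup.normalClosure {s1 a b} ≤ f.ker :=
        Subgroup.normalClosure_le_normal (by rintro _ rfl; exact k1)
      exact this hn
    have k4 : f (s2 ν a b) = 1 := by
      rw [← e]; simp only [map_mul, k3, k2, one_mul]
    simp only [s2, map_mul, map_inv, map_zpow, map_cj] at k4
    exact inv_mul_eq_one.mp k4

end Pool.Agent.MP_ab7c65_al

end
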