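import Mathlib

attribute [-instance] MonTypeEquivalenceMon.monMonoid NonUnitalNonAssocSemiring.toAddCommMonoid
  littleWedderburn NormedRing.toRing NormedSpace.toModule Action.FintypeCat.instMulActionObjFiniteOf
  instCharZeroOfIsSemireal AlgHom.instNonUnitalAlgHomClassOfAlgHomClass LieAdmissibleAlgebra.toModule
  UniformSpace.toTopologicalSpace NonUnitalNonAssocSemiring.toMulZeroClass NormedCommRing.toCommRing
  RKHS.instFunLike Module.IsNoetherian.finite instNonUnitalAlgHomClassOfNonUnitalAlgEquivClass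
  MulSemiringAction.toDistribMulAction NormedField.toField RCLike.charZero_rclike
  SeminormedRing.toRing RightPreLieAlgebra.toModule MonoidWithZero.toMulZeroOneClass
  LeftPreLieAlgebra.toModule instSMulZeroClass ContinuousSemilinearMapClass.toSemilinearMapClass
  SeminormedCommRing.toCommRing EuclideanDomain.toCommRing MonoidWithZero.toMonoid
  FloorSemiring.instCharZero NonUnitalRing.toNonUnitalNonAssocRing Algebra.toSMul
  IdemCommSemiring.toIdemSemiring KleeneAlgebra.toIdemSemiring AddCommGroupWithOne.toAddGroupWithOne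
  CategoryTheory.CommGrpObj.toGrpObj BooleanRing.toRing AddCommMonoidWithOne.toAddCommMonoid
  NonAssocCommSemiring.toNonAssocSemiring BooleanRing.toCommRing IdemCommSemiring.toCommSemiring
  ZSMul.ofSMul NumberField.to_charZero NonUnitalRingHomClass.toMulHomClass
  CoalgHomClass.toSemilinearMapClass NonUnitalAlgSemiHomClass.toDistribMulActionSemiHomClass
  RingConeClass.toSubsemiringClass NSMul.ofSMul DivisionRing.toDivisionSemiring
  instFiniteOfFinitePresentation LinearOrderedAddCommMonoidWithTop.toAddCommMonoid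
  CoheytingAlgebra.toOrderTop NonUnitalSemiring.toNonUnitalNonAssocSemiring
  SubringClass.toSubsemiringClass NonUnitalNormedCommRing.toNonUnitalCommRing
  NormedCommGroup.toCommGroup SemilatticeInf.toPartialOrder SeminormedCommGroup.toCommGroup
  NormedDivisionRing.toDivisionRing MulSemiringActionSemiHomClass.toDistribMulActionSemiHomClass
  NonUnitalSubsemiringClass.toAddSubmonoidClass NonAssocRing.toNonAssocSemiring MulZeroClass.toMul
  CategoryTheory.Preadditive.instGrpObj LieAdmissibleRing.toNonUnitalNonAssocRing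
  TestFunctionClass.toDFunLike ContDiffMapSupportedInClass.toDFunLike
  QuotientGroup.Quotient.commGroup LinearOrderedAddCommGroupWithTop.toAddCommMonoid
  FiniteDimensional.finiteDimensional_quotient AddMonoid.FG.to_moduleFinite_int
  SubsemiringClass.toCommSemiring ESeminormedAddMonoid.toAddMonoid
  NonUnitalNonAssocCommSemiring.toNonUnitalNonAssocSemiring
  NonUnitalSeminormedCommRing.toNonUnitalCommRing

-- part MP_ab7c65_al.PF.Lie
section

/-! Lie algebras in characteristic `p` generated by two elements with `ad(e i)^5 (e j) = 0` are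
spanned by elements `x` with `ad(x)^p = 0`. -/

set_option autoImplicit false
set_option linter.unusedSectionVars false

namespace Pool.Agent.MP_ab7c65_al.PF

open Finset LieAlgebra

variable {k : Type} [Field k] {L : Type} [LieRing L] [LieAlgebra k L]

lemma leib (e : L) (n : ℕ) (a b : L) : (ad k L e ^ n) ⁅a, b⁆ =
    ∑ i ∈ range (n + 1), n.choose i • ⁅(ad k L e ^ i) a, (ad k L e ^ (n - i)) b⁆ := by
  have h := LieDerivation.iterate_apply_lie' (LieDerivation.ad k L e) n a b
  have e1 : ⇑(LieDerivation.ad k L e) = ⇑(ad k L e) := by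
    ext x; simp
  simp only [e1, ← Module.End.pow_apply] at h
  exact h

/-- `ad(e)^(i+1) x = 0` -/
def Nil (k : Type) [Field k] {L : Type} [LieRing L] [LieAlgebra k L] (e : L) (i : ℕ) (x : L) :
    Prop := (ad k L e ^ (i + 1)) x = 0

lemma Nil.ge {e x : L} {i n : ℕ} (h : Nil k e i x) (hn : i < n) : (ad k L e ^ n) x = 0 := by
  obtain ⟨m, rfl⟩ : ∃ m, n = m + (i + 1) := ⟨n - (i + 1), by omega⟩
  rw [pow_add, Module.End.mul_apply, show (ad k L e ^ (i + 1)) x = 0 from h, map_zero]

lemma Nil.lie {e x y : L} {i j : ℕ} (hx : Nil k e i x) (hy : Nil k e j y) :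
    Nil k e (i + j) ⁅x, y⁆ := by
  rw [Nil, leib]
  refine sum_eq_zero fun s hs => ?_
  by_cases h : i < s
  · rw [hx.ge h, zero_lie, smul_zero]
  · rw [hy.ge (by omega), lie_zero, smul_zero]

lemma nil_self (e : L) : Nil k e 0 e := by simp [Nil]

/-- truncated exponential of `t ad(e)` -/
noncomputable def ex (p : ℕ) (e : L) (t : k) : Module.End k L :=
  ∑ n ∈ range p, (t ^ n / (n.factorial : k)) • ad k L e ^ n

lemma ex_apply (p : ℕ) (e : L) (t : k) (x : L) :
    ex p e t x = ∑ n ∈ range p, (t ^ n / (n.factorial : k)) • (ad k L e ^ n) x := by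
  simp only [ex, LinearMap.sum_apply, LinearMap.smul_apply]

variable {p : ℕ} [Fact p.Prime] [CharP k p]

lemma fact_ne {n : ℕ} (h : n < p) : (n.factorial : k) ≠ 0 := by
  rw [Ne, CharP.cast_eq_zero_iff k p, (Fact.out : p.Prime).dvd_factorial]
  omega

lemma ex_lie {e x y : L} {i j : ℕ} (hx : Nil k e i x) (hy : Nil k e j y) (h : i + j < p) (t : k) :
    ex p e t ⁅x, y⁆ = ⁅ex p e t x, ex p e t y⁆ := by
  let f : ℕ → ℕ → L := fun a b => ((t ^ a / (a.factorial : k)) * (t ^ b / (b.factorial : k))) •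
    ⁅(ad k L e ^ a) x, (ad k L e ^ b) y⁆
  have h1 : ex p e t ⁅x, y⁆ = ∑ s ∈ range p, ∑ a ∈ range (s + 1), f a (s - a) := by
    rw [ex_apply]
    refine sum_congr rfl fun s hs => ?_
    rw [leib, smul_sum]
    refine sum_congr rfl fun a ha => ?_
    have hs := mem_range.1 hs
    have ha : a ≤ s := by have := mem_range.1 ha; omega
    simp only [f]
    rw [← Nat.cast_smul_eq_nsmul k, smul_smul]
    congr 1
    have e1 : (s.factorial : k) = s.choose a * a.factorial * (s - a).factorial := by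
      exact_mod_cast (congrArg (Nat.cast : ℕ → k)
        (Nat.choose_mul_factorial_mul_factorial ha)).symm
    have n1 := fact_ne (k := k) hs
    have n2 := fact_ne (k := k) (show a < p by omega)
    have n3 := fact_ne (k := k) (show s - a < p by omega)
    have e2 : t ^ s = t ^ a * t ^ (s - a) := by rw [← pow_add]; congr 1; omega
    rw [e2]
    field_simp
    rw [e1]; ring
  rw [h1, sum_range_diag_flip, ex_apply, ex_apply, sum_lie]
  refine sum_congr rfl fun a ha => ?_
  rw [lie_sum]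
  rw [sum_subset (range_subset_range.2 (Nat.sub_le p a))]
  · refine sum_congr rfl fun b _ => ?_
    simp only [f, smul_lie, lie_smul, smul_smul, mul_comm]
  · intro b hb hb'
    simp only [mem_range] at ha hb hb'
    simp only [f]
    by_cases h2 : i < a
    · rw [hx.ge h2, zero_lie, smul_zero]
    · rw [hy.ge (by omega), lie_zero, smul_zero]

lemma ex_pow {e x y : L} {i j : ℕ} (hx : Nil k e i x) (hy : Nil k e j y) (t : k) (m : ℕ)
    (h : m * i + j < p) : Nil k e (m * i + j) ((ad k L x ^ m) y) ∧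
      ex p e t ((ad k L x ^ m) y) = (ad k L (ex p e t x) ^ m) (ex p e t y) := by
  induction m with
  | zero => simpa using hy
  | succ m ih =>
    obtain ⟨h1, h2⟩ := ih (by linarith only [h])
    rw [pow_succ', pow_succ', Module.End.mul_apply, Module.End.mul_apply, ad_apply, ad_apply, ← h2,
      show (m + 1) * i + j = i + (m * i + j) by ring]
    exact ⟨hx.lie h1, ex_lie hx h1 (by linarith only [h]) t⟩

/-- the two Serre type relations -/
def Rel (k : Type) [Field k] {L : Type} [LieRing L] [LieAlgebra k L] (e : Fin 2 → L) : Prop :=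
  ∀ i j, i ≠ j → Nil k (e i) 4 (e j)

lemma Rel.nil {e : Fin 2 → L} (h : Rel k e) (i j : Fin 2) : Nil k (e i) 4 (e j) := by
  by_cases hij : i = j
  · subst hij; exact (nil_self _).ge (by norm_num)
  · exact h i j hij

lemma Rel.ex {e : Fin 2 → L} (h : Rel k e) (hp : 20 < p) (i : Fin 2) (t : k) :
    Rel k fun j => ex p (e i) t (e j) := by
  intro a b hab
  have h0 : (ad k L (e a) ^ 5) (e b) = 0 := h a b hab
  by_cases ha : a = i
  · subst ha
    have := (ex_pow (p := p) (nil_self (e a)) (h.nil a b) t 5 (by omega)).2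
    rw [h0, map_zero] at this
    exact this.symm
  · have hb : b = i := by omega
    subst hb
    have := (ex_pow (p := p) (h.nil b a) (nil_self (e b)) t 5 (by omega)).2
    rw [h0, map_zero] at this
    exact this.symm

/-- polynomial maps `k → L` -/
inductive Pol (k : Type) [Field k] {L : Type} [LieRing L] [LieAlgebra k L] : (k → L) → Prop
  | const (v : L) : Pol k fun _ => v
  | add {f g : k → L} : Pol k f → Pol k g → Pol k fun t => f t + g t
  | mul {f : k → L} : Pol k f → Pol k fun t => t • f t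

lemma Pol.map {f : k → L} (h : Pol k f) (u : L →ₗ[k] L) : Pol k fun t => u (f t) := by
  induction h with
  | const v => exact .const _
  | add _ _ i1 i2 => simpa only [map_add] using i1.add i2
  | mul _ i1 => simpa only [map_smul] using i1.mul

lemma Pol.lie {f g : k → L} (hf : Pol k f) (hg : Pol k g) : Pol k fun t => ⁅f t, g t⁆ := by
  induction hf with
  | const v => exact hg.map (ad k L v)
  | add _ _ i1 i2 => simpa only [add_lie] using i1.add i2
  | mul _ i1 => simpa only [smul_lie] using i1.mul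

lemma Pol.pow (n : ℕ) (v : L) : Pol k fun t : k => t ^ n • v := by
  induction n with
  | zero => simpa using .const v
  | succ n ih => simpa only [pow_succ', mul_smul] using ih.mul

lemma Pol.sum (n : ℕ) (v : ℕ → L) : Pol k fun t : k => ∑ i ∈ range n, t ^ i • v i := by
  induction n with
  | zero => simpa using .const 0
  | succ n ih => simpa only [sum_range_succ] using ih.add (.pow n _)

lemma Pol.eval {f : k → L} (h : Pol k f) (u : Module.Dual k L) :
    ∃ q : Polynomial k, ∀ t, u (f t) = q.eval t := by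
  induction h with
  | const v => exact ⟨.C (u v), by simp⟩
  | add _ _ i1 i2 =>
    obtain ⟨q, hq⟩ := i1
    obtain ⟨r, hr⟩ := i2
    exact ⟨q + r, fun t => by simp [hq, hr]⟩
  | mul _ i1 =>
    obtain ⟨q, hq⟩ := i1
    exact ⟨.X * q, fun t => by simp [hq]⟩

/-- elements with `ad(x)^p = 0` -/
def TT (k : Type) [Field k] (L : Type) [LieRing L] [LieAlgebra k L] (p : ℕ) : Set L :=
  {x | ad k L x ^ p = 0}

lemma map_pow_ad {L' : Type} [LieRing L'] [LieAlgebra k L'] (φ : L →ₗ⁅k⁆ L') (x y : L) (n : ℕ) :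
    φ ((ad k L x ^ n) y) = (ad k L' (φ x) ^ n) (φ y) := by
  induction n with
  | zero => simp only [pow_zero, Module.End.one_apply]
  | succ n ih => rw [pow_succ', pow_succ', Module.End.mul_apply, Module.End.mul_apply, ad_apply,
      ad_apply, LieHom.map_lie, ih]

lemma map_span_TT {L' : Type} [LieRing L'] [LieAlgebra k L'] (φ : L →ₗ⁅k⁆ L')
    (hφ : Function.Surjective φ) {q : ℕ} {x : L} (hx : x ∈ Submodule.span k (TT k L q)) :
    φ x ∈ Submodule.span k (TT k L' q) := by
  refine Submodule.span_mono ?_ (Submodule.apply_mem_span_image_of_mem_span φ.toLinearMap hx)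
  rintro _ ⟨y, hy, rfl⟩
  ext z
  obtain ⟨z, rfl⟩ := hφ z
  have := map_pow_ad φ y z q
  rw [show ad k L y ^ q = 0 from hy, LinearMap.zero_apply, map_zero] at this
  exact this.symm

section univ

variable {e : Fin 2 → L} (hgen : LieSubalgebra.lieSpan k L (Set.range e) = ⊤) (hrel : Rel k e)
  (hp : 20 < p)
include hgen

lemma gen_ind {P : L → Prop} (h1 : ∀ j, P (e j)) (h0 : P 0) (ha : ∀ x y, P x → P y → P (x + y))
    (hs : ∀ (c : k) x, P x → P (c • x)) (hl : ∀ x y, P x → P y → P ⁅x, y⁆) (x : L) : P x := by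
  have hx : x ∈ LieSubalgebra.lieSpan k L (Set.range e) := by rw [hgen]; trivial
  induction hx using LieSubalgebra.lieSpan_induction with
  | mem x h => obtain ⟨j, rfl⟩ := h; exact h1 j
  | zero => exact h0
  | add x y _ _ i1 i2 => exact ha _ _ i1 i2
  | smul c x _ i1 => exact hs _ _ i1
  | lie x y _ _ i1 i2 => exact hl _ _ i1 i2

include hrel hp

lemma gen_mem_TT (i : Fin 2) : e i ∈ TT k L p := by
  ext x
  refine gen_ind hgen (P := fun x => (ad k L (e i) ^ p) x = 0) (fun j => ?_) (map_zero _)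
    (fun x y hx hy => by rw [map_add, hx, hy, add_zero])
    (fun c x hx => by rw [map_smul, hx, smul_zero]) (fun x y hx hy => ?_) x
  · exact (hrel.nil i j).ge (by omega)
  · rw [leib]
    refine sum_eq_zero fun s hs => ?_
    have hs := mem_range.1 hs
    by_cases h0 : s = 0
    · rw [h0, Nat.sub_zero, hy, lie_zero, smul_zero]
    by_cases h1 : s = p
    · rw [h1, hx, zero_lie, smul_zero]
    rw [← Nat.cast_smul_eq_nsmul k, (CharP.cast_eq_zero_iff k p _).2
      ((Fact.out : p.Prime).dvd_choose_self h0 (by omega)), zero_smul]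

lemma ex_surj (i : Fin 2) (t : k) (φ : L →ₗ⁅k⁆ L) (hφ : ∀ j, φ (e j) = ex p (e i) t (e j)) :
    Function.Surjective φ := by
  obtain ⟨q, rfl⟩ : ∃ q, p = q + 1 := ⟨p - 1, by omega⟩
  have h1 : φ (e i) = e i := by
    rw [hφ, ex_apply, sum_range_succ', sum_eq_zero fun n _ => by
      rw [(nil_self (e i)).ge (by omega), smul_zero]]
    simp
  have h2 : ∀ j r m, 5 ≤ m + r → (ad k L (e i) ^ m) (e j) ∈ φ.range := by
    intro j r
    induction r with
    | zero => intro m hm; rw [(hrel.nil i j).ge (by omega)]; exact zero_mem _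
    | succ r ih =>
      intro m hm
      have h3 : (ad k L (e i) ^ m) (φ (e j)) ∈ φ.range :=
        (LieHom.mem_range _ _).2 ⟨(ad k L (e i) ^ m) (e j), by rw [map_pow_ad, h1]⟩
      rw [hφ, ex_apply, sum_range_succ', map_add, map_sum] at h3
      have h4 := (add_mem_cancel_left (sum_mem fun n _ => ?_)).1 h3
      · simpa only [LieHom.mem_range, pow_zero, Nat.factorial_zero, Nat.cast_one, ne_eq, one_ne_zero, not_false_eq_true, div_self, Module.End.one_apply, one_smul] using h4
      · rw [map_smul, ← Module.End.mul_apply, ← pow_add]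
        exact φ.range.smul_mem _ (ih _ (by omega))
  intro x
  refine gen_ind hgen (P := fun x => x ∈ φ.range) (fun j => by simpa only [LieHom.mem_range, pow_zero, Module.End.one_apply] using h2 j 5 0 le_rfl)
    (zero_mem _) (fun _ _ => add_mem) (fun c _ => φ.range.smul_mem c)
    (fun _ _ => φ.range.lie_mem) x

lemma span_TT [Infinite k] (huniv : ∀ f, Rel k f → ∃ φ : L →ₗ⁅k⁆ L, ∀ j, φ (e j) = f j) :
    Submodule.span k (TT k L p) = ⊤ := by
  have key : ∀ i, ∀ x ∈ Submodule.span k (TT k L p), ⁅e i, x⁆ ∈ Submodule.span k (TT k L p) := by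
    intro i x hx
    choose φ hφ using fun t => huniv _ (hrel.ex hp i t)
    have h1 : ∀ x, ∃ g, Pol k g ∧ ∀ t, φ t x = x + t • ⁅e i, x⁆ + t ^ 2 • g t := by
      refine gen_ind hgen (fun j => ?_) ⟨_, .const 0, by simp⟩ ?_ ?_ ?_
      · obtain ⟨q, rfl⟩ : ∃ q, p = q + 2 := ⟨p - 2, by omega⟩
        refine ⟨_, .sum q fun n => ((n + 2).factorial : k)⁻¹ • (ad k L (e i) ^ (n + 2)) (e j),
          fun t => ?_⟩
        rw [hφ, ex_apply, sum_range_succ', sum_range_succ', smul_sum, add_assoc, add_comm]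
        congr 1
        · simp [add_comm]
        · refine sum_congr rfl fun n _ => ?_
          rw [smul_smul, smul_smul, div_eq_mul_inv]
          congr 1
          ring
      · rintro x y ⟨g, g1, g2⟩ ⟨h, h1, h2⟩
        refine ⟨_, g1.add h1, fun t => ?_⟩
        rw [map_add, g2, h2, lie_add]
        module
      · rintro c x ⟨g, g1, g2⟩
        refine ⟨_, g1.map (c • LinearMap.id), fun t => ?_⟩
        rw [map_smul, g2, lie_smul]
        simp only [LinearMap.smul_apply, LinearMap.id_apply]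
        module
      · rintro x y ⟨g, g1, g2⟩ ⟨h, h1, h2⟩
        refine ⟨_, ((Pol.const ⁅⁅e i, x⁆, ⁅e i, y⁆⁆).add
          (((Pol.const x).add (Pol.const ⁅e i, x⁆).mul).lie h1)).add
          (g1.lie (((Pol.const y).add (Pol.const ⁅e i, y⁆).mul).add h1.mul.mul)), fun t => ?_⟩
        rw [LieHom.map_lie, g2, h2, leibniz_lie]
        simp only [add_lie, lie_add, smul_lie, lie_smul]
        module
    by_contra hn
    obtain ⟨u, u1, u2⟩ := Submodule.exists_dual_map_eq_bot_of_notMem hn inferInstance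
    have u3 : ∀ y ∈ Submodule.span k (TT k L p), u y = 0 := fun y hy => by
      have := Submodule.mem_map_of_mem (f := u) hy
      rwa [u2] at this
    obtain ⟨g, g1, g2⟩ := h1 x
    obtain ⟨q, hq⟩ := g1.eval u
    have h2 : Polynomial.X * Polynomial.C (u ⁅e i, x⁆) + Polynomial.X ^ 2 * q = 0 := by
      refine Polynomial.funext fun t => ?_
      have := u3 _ (map_span_TT (φ t) (ex_surj hgen hrel hp i t _ (hφ t)) hx)
      rw [g2, map_add, map_add, u3 x hx, map_smul, map_smul, hq] at this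
      simpa only [Polynomial.eval_add, Polynomial.eval_mul, Polynomial.eval_X, Polynomial.eval_C,
        Polynomial.eval_pow, Polynomial.eval_zero, smul_eq_mul, zero_add] using this
    have h3 := congrArg (fun r => Polynomial.coeff r 1) h2
    simp only [Polynomial.X_mul_C, Polynomial.coeff_add, Polynomial.coeff_mul_X, Polynomial.coeff_C_zero, Polynomial.coeff_X_pow_mul', Nat.not_ofNat_le_one, ↓ reduceIte, add_zero, Polynomial.coeff_zero] at h3
    exact u1 h3
  have h2 : ∀ y : L, ∀ x ∈ Submodule.span k (TT k L p), ⁅y, x⁆ ∈ Submodule.span k (TT k L p) := by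
    refine gen_ind hgen key (by simp) ?_ ?_ ?_
    · intro y z hy hz x hx
      rw [add_lie]; exact add_mem (hy x hx) (hz x hx)
    · intro c y hy x hx
      rw [smul_lie]; exact Submodule.smul_mem _ c (hy x hx)
    · intro y z hy hz x hx
      rw [lie_lie]; exact sub_mem (hy _ (hz x hx)) (hz _ (hy x hx))
  rw [eq_top_iff]
  intro x _
  exact gen_ind hgen (P := fun x => x ∈ Submodule.span k (TT k L p))
    (fun j => Submodule.subset_span (gen_mem_TT hgen hrel hp j)) (zero_mem _) (fun _ _ => add_mem)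
    (fun c _ => Submodule.smul_mem _ c) (fun y x _ hx => h2 y x hx) x

end univ

/-- the ideal of the two relations in the free Lie algebra -/
noncomputable def II (k : Type) [Field k] : LieIdeal k (FreeLieAlgebra k (Fin 2)) :=
  LieSubmodule.lieSpan k (FreeLieAlgebra k (Fin 2))
    {x | ∃ i j, i ≠ j ∧ x = (ad k _ (FreeLieAlgebra.of k i) ^ 5) (FreeLieAlgebra.of k j)}

/-- the quotient map -/
noncomputable def pr (k : Type) [Field k] :
    FreeLieAlgebra k (Fin 2) →ₗ⁅k⁆ FreeLieAlgebra k (Fin 2) ⧸ II k :=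
  { (II k).toSubmodule.mkQ with map_lie' := fun {_ _} => rfl }

lemma pr_surj : Function.Surjective (pr k) := (II k).toSubmodule.mkQ_surjective

lemma univ_lift (f : Fin 2 → L) (hf : Rel k f) :
    ∃ φ : (FreeLieAlgebra k (Fin 2) ⧸ II k) →ₗ⁅k⁆ L, ∀ j, φ (pr k (.of k j)) = f j := by
  let ψ := FreeLieAlgebra.lift k f
  have h : II k ≤ ψ.ker := by
    rw [II, LieSubmodule.lieSpan_le]
    rintro _ ⟨i, j, hij, rfl⟩
    change ψ _ = 0
    rw [map_pow_ad, FreeLieAlgebra.lift_of_apply, FreeLieAlgebra.lift_of_apply]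
    exact hf i j hij
  let φ := (II k).toSubmodule.liftQ ψ.toLinearMap h
  have hφ : ∀ x, φ (pr k x) = ψ x := fun x => rfl
  refine ⟨{ φ with map_lie' := fun {x y} => ?_ }, fun j => ?_⟩
  · obtain ⟨x, rfl⟩ := pr_surj x
    obtain ⟨y, rfl⟩ := pr_surj y
    change φ _ = ⁅φ _, φ _⁆
    rw [← LieHom.map_lie, hφ, hφ, hφ, LieHom.map_lie]
  · exact (hφ _).trans (FreeLieAlgebra.lift_of_apply _ _)

lemma free_gen : LieSubalgebra.lieSpan k _ (Set.range (FreeLieAlgebra.of k (X := Fin 2))) = ⊤ := by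
  set S := LieSubalgebra.lieSpan k _ (Set.range (FreeLieAlgebra.of k (X := Fin 2)))
  let g : FreeLieAlgebra k (Fin 2) →ₗ⁅k⁆ S :=
    FreeLieAlgebra.lift k fun j => ⟨.of k j, LieSubalgebra.subset_lieSpan ⟨j, rfl⟩⟩
  have : S.incl.comp g = LieHom.id := FreeLieAlgebra.hom_ext fun j => by simp [g]
  rw [eq_top_iff]
  intro x _
  have h := DFunLike.congr_fun this x
  rw [← show S.incl (g x) = x from h]
  exact (g x).2

theorem span_TT_of_rel [Infinite k] {e : Fin 2 → L}
    (hgen : LieSubalgebra.lieSpan k L (Set.range e) = ⊤) (hrel : Rel k e) (hp : 20 < p) :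
    Submodule.span k (TT k L p) = ⊤ := by
  have h1 : Rel k fun j => pr k (.of k j) := fun i j hij => by
    rw [Nil, ← map_pow_ad]
    exact (Submodule.Quotient.mk_eq_zero _).2 (LieSubmodule.subset_lieSpan ⟨i, j, hij, rfl⟩)
  have h2 : LieSubalgebra.lieSpan k _ (Set.range fun j => pr k (.of k j)) = ⊤ := by
    rw [eq_top_iff]
    intro x _
    obtain ⟨x, rfl⟩ := pr_surj x
    refine gen_ind free_gen (P := fun x => pr k x ∈ LieSubalgebra.lieSpan k _
      (Set.range fun j => pr k (.of k j))) (fun j => LieSubalgebra.subset_lieSpan ⟨j, rfl⟩)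
      (by simp) (fun x y hx hy => ?_) (fun c x hx => ?_) (fun x y hx hy => ?_) x
    · rw [map_add]; exact add_mem hx hy
    · rw [map_smul]; exact LieSubalgebra.smul_mem _ c hx
    · rw [LieHom.map_lie]; exact LieSubalgebra.lie_mem _ hx hy
  have h3 := span_TT h2 h1 hp univ_lift
  obtain ⟨φ, hφ⟩ := univ_lift e hrel
  have h4 : Function.Surjective φ := fun x =>
    gen_ind hgen (P := fun x => x ∈ φ.range) (fun j => (LieHom.mem_range _ _).2 ⟨_, hφ j⟩)
      (zero_mem _) (fun _ _ => add_mem) (fun c _ => φ.range.smul_mem c)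
      (fun _ _ => φ.range.lie_mem) x
  rw [eq_top_iff]
  intro x _
  obtain ⟨x, rfl⟩ := h4 x
  exact map_span_TT φ h4 (by rw [h3]; trivial)

section pbw

variable {ι : Type} (x : ι → L) (Y : Set L)

/-- iterated brackets -/
def wd (l : List ι) (y : L) : L := l.foldr (fun i v => ⁅x i, v⁆) y

/-- span of the iterated brackets of length at most `n` -/
def FF (k : Type) [Field k] {L : Type} [LieRing L] [LieAlgebra k L] {ι : Type} (x : ι → L)
    (Y : Set L) (n : ℕ) : Submodule k L :=
  Submodule.span k {v | ∃ l : List ι, ∃ y ∈ Y, l.length ≤ n ∧ v = wd x l y}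

variable {x Y}

lemma wd_mem {l : List ι} {y : L} {n : ℕ} (hy : y ∈ Y) (h : l.length ≤ n) :
    wd x l y ∈ FF k x Y n := Submodule.subset_span ⟨l, y, hy, h, rfl⟩

lemma lie_FF (i : ι) {n : ℕ} {v : L} (hv : v ∈ FF k x Y n) : ⁅x i, v⁆ ∈ FF k x Y (n + 1) := by
  have : (FF k x Y n).map (ad k L (x i)) ≤ FF k x Y (n + 1) := by
    rw [FF, Submodule.map_span_le]
    rintro _ ⟨l, y, hy, h, rfl⟩
    exact wd_mem (l := i :: l) hy (by simpa using h)
  exact this (Submodule.mem_map_of_mem hv)

variable {M : Submodule k L} (hM : ∀ z : L, ∀ v ∈ M, ⁅z, v⁆ ∈ M)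
  (hab : ∀ u ∈ M, ∀ v ∈ M, ⁅u, v⁆ = 0) (hY : Y ⊆ M)
  (hx : Submodule.span k (Set.range x) ⊔ M = ⊤)
include hM hY

lemma FF_le (n : ℕ) : FF k x Y n ≤ M := by
  rw [FF, Submodule.span_le]
  rintro _ ⟨l, y, hy, -, rfl⟩
  induction l with
  | nil => exact hY hy
  | cons i l ih => exact hM _ _ ih

include hab hx

lemma lie_FF' (z : L) {n : ℕ} {v : L} (hv : v ∈ FF k x Y n) : ⁅z, v⁆ ∈ FF k x Y (n + 1) := by
  obtain ⟨a, ha, m, hm, rfl⟩ := Submodule.mem_sup.1 (show z ∈ _ by rw [hx]; trivial)
  rw [add_lie, hab m hm v (FF_le hM hY n hv), add_zero]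
  induction ha using Submodule.span_induction with
  | mem a h => obtain ⟨i, rfl⟩ := h; exact lie_FF i hv
  | zero => simp
  | add a b _ _ i1 i2 => rw [add_lie]; exact add_mem i1 i2
  | smul c a _ i1 => rw [smul_lie]; exact Submodule.smul_mem _ c i1

lemma wd_perm {l l' : List ι} (h : l.Perm l') {y : L} (hy : y ∈ Y) (n : ℕ)
    (hn : l.length = n + 1) : wd x l y - wd x l' y ∈ FF k x Y n := by
  induction h generalizing n with
  | nil => simp
  | @cons i l l' h ih =>
    rcases n with _ | n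
    · obtain rfl : l = [] := by simpa using hn
      rw [h.symm.eq_nil]; simp
    · have := lie_FF i (ih n (by simpa using hn))
      rwa [lie_sub] at this
  | swap i j l =>
    obtain rfl : n = l.length + 1 := by simpa using hn.symm
    have := lie_FF' hM hab hY hx ⁅x j, x i⁆ (wd_mem (k := k) (x := x) (l := l) hy le_rfl)
    rwa [lie_lie] at this
  | trans h1 _ i1 i2 =>
    have := add_mem (i1 n hn) (i2 n (h1.length_eq ▸ hn))
    rwa [sub_add_sub_cancel] at this

lemma FF_stab [Fintype ι] {q : ℕ} (hT : ∀ i, x i ∈ TT k L q) (n : ℕ)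
    (hn : Fintype.card ι * q ≤ n) : FF k x Y (n + 1) ≤ FF k x Y n := by
  classical
  rw [FF, Submodule.span_le]
  rintro _ ⟨l, y, hy, h, rfl⟩
  rcases h.lt_or_eq with h | h
  · exact wd_mem hy (by omega)
  obtain ⟨i, hi⟩ : ∃ i, q ≤ l.count i := by
    by_contra hc
    push Not at hc
    have h1 : l.length = ∑ i, l.count i := by
      rw [← List.sum_toFinset_count_eq_length]
      refine sum_subset (subset_univ _) fun i _ hi => ?_
      simpa [List.count_eq_zero] using hi
    have h2 : ∑ i, l.count i ≤ ∑ _i : ι, q := sum_le_sum fun i _ => (hc i).le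
    simp only [sum_const, card_univ, smul_eq_mul] at h2
    omega
  obtain ⟨l', hl'⟩ := (List.replicate_sublist_iff.2 hi).exists_perm_append
  have h0 : ∀ m, wd x (List.replicate m i ++ l') y = (ad k L (x i) ^ m) (wd x l' y) := by
    intro m
    induction m with
    | zero => rfl
    | succ m ih => rw [pow_succ', Module.End.mul_apply, ← ih]; rfl
  have := wd_perm hM hab hY hx hl' hy n h
  rwa [h0, show ad k L (x i) ^ q = 0 from hT i, LinearMap.zero_apply, sub_zero] at this

lemma exists_fin [Fintype ι] {q : ℕ} (hT : ∀ i, x i ∈ TT k L q) (hf : Y.Finite) :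
    ∃ F : Submodule k L, F.FG ∧ Y ⊆ F ∧ ∀ z : L, ∀ v ∈ F, ⁅z, v⁆ ∈ F := by
  refine ⟨FF k x Y (Fintype.card ι * q), Submodule.fg_span ?_,
    fun y hy => wd_mem (l := []) hy (by simp only [List.length_nil, zero_le]),
    fun z v hv => FF_stab hM hab hY hx hT _ le_rfl (lie_FF' hM hab hY hx z hv)⟩
  refine (((List.finite_length_le ι (Fintype.card ι * q)).prod hf).image
    fun a => wd x a.1 a.2).subset ?_
  rintro _ ⟨l, y, hy, h, rfl⟩
  exact ⟨(l, y), ⟨h, hy⟩, rfl⟩

end pbw

/-- If `L` is spanned by elements with `ad(x)^q = 0` and `M` is an abelian ideal of finite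
codimension, every finite subset of `M` lies in a finite dimensional ideal. -/
theorem exists_fg_ideal {q : ℕ} (hT : Submodule.span k (TT k L q) = ⊤) {M : Submodule k L}
    (hM : ∀ z : L, ∀ v ∈ M, ⁅z, v⁆ ∈ M) (hab : ∀ u ∈ M, ∀ v ∈ M, ⁅u, v⁆ = 0)
    {A : Submodule k L} (hA : A.FG) (hAM : A ⊔ M = ⊤) {Y : Set L} (hY : Y ⊆ M) (hf : Y.Finite) :
    ∃ F : Submodule k L, F.FG ∧ Y ⊆ F ∧ ∀ z : L, ∀ v ∈ F, ⁅z, v⁆ ∈ F := by
  obtain ⟨s, rfl⟩ := hA
  obtain ⟨t, ht, hs⟩ := Submodule.subset_span_finite_of_subset_span (R := k) (s := TT k L q)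
    (t := s) (by rw [hT]; exact Set.subset_univ _)
  refine exists_fin (ι := t) (x := Subtype.val) hM hab hY ?_ (fun i => ht i.2) hf
  rw [eq_top_iff, ← hAM]
  refine sup_le_sup_right (Submodule.span_le.2 ?_) _
  simpa using hs

end Pool.Agent.MP_ab7c65_al.PF

end

-- part MP_ab7c65_al.PF.Gr
section

/-! The graded Lie algebra of the lower central series of a group. -/

set_option autoImplicit false
set_option linter.unusedSectionVars false

namespace Pool.Agent.MP_ab7c65_al.PF

open LieAlgebra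
open scoped commutatorElement

variable {E : Type} [Group E]

/-- lower central series, `ga E 0 = E` -/
def ga (E : Type) [Group E] (n : ℕ) : Subgroup E := (⊤ : Subgroup E).lowerCentralSeries n

instance (n : ℕ) : (ga E n).Normal := by unfold ga; infer_instance

lemma ga_succ (n : ℕ) : ga E (n + 1) = ⁅ga E n, ⊤⁆ := rfl

lemma ga_anti {m n : ℕ} (h : m ≤ n) : ga E n ≤ ga E m := Subgroup.lowerCentralSeries_antitone _ h

lemma mem_ga_zero (g : E) : g ∈ ga E 0 := trivial

lemma ga_comm (m : ℕ) : ∀ n, ⁅ga E n, ga E m⁆ ≤ ga E (n + m + 1) := by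
  induction m with
  | zero => exact fun n => le_rfl
  | succ m ih =>
    intro n
    let π := QuotientGroup.mk' (ga E (n + (m + 1) + 1))
    have h : ∀ H : Subgroup E, H ≤ ga E (n + (m + 1) + 1) ↔ H.map π = ⊥ := fun H => by
      rw [Subgroup.map_eq_bot_iff, QuotientGroup.ker_mk']
    rw [Subgroup.commutator_comm, ga_succ m, h, Subgroup.map_commutator, Subgroup.map_commutator]
    refine Subgroup.commutator_commutator_eq_bot_of_rotate ?_ ?_
    · rw [← Subgroup.map_commutator, ← Subgroup.map_commutator, ← h,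
        Subgroup.commutator_comm ⊤, ← ga_succ]
      exact (ih (n + 1)).trans (ga_anti (by omega))
    · rw [← Subgroup.map_commutator, ← Subgroup.map_commutator, ← h]
      exact Subgroup.commutator_mono (ih n) le_rfl

lemma comm_mem {n m r : ℕ} {g h : E} (hg : g ∈ ga E n) (hh : h ∈ ga E m) (hr : r ≤ n + m + 1) :
    ⁅g, h⁆ ∈ ga E r := ga_anti hr (ga_comm m n (Subgroup.commutator_mem_commutator hg hh))

variable (k : Type) [Field k]

/-- homogeneous symbols -/
def St (E : Type) [Group E] : Type := {x : ℕ × E // x.2 ∈ ga E x.1}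

open Classical in
/-- basis vector of a symbol -/
noncomputable def sy (n : ℕ) (g : E) : St E →₀ k :=
  if h : g ∈ ga E n then Finsupp.single ⟨(n, g), h⟩ 1 else 0

/-- relations among the symbols -/
noncomputable def RR (E : Type) [Group E] : Submodule k (St E →₀ k) := Submodule.span k
  {v | ∃ n, ∃ g ∈ ga E n, (∃ h ∈ ga E n, v = sy k n (g * h) - (sy k n g + sy k n h)) ∨
    (g ∈ ga E (n + 1) ∧ v = sy k n g)}

/-- the graded Lie algebra with scalars extended to `k` -/
def Gr (E : Type) [Group E] : Type := (St E →₀ k) ⧸ RR k E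

noncomputable instance : AddCommGroup (Gr k E) :=
  inferInstanceAs (AddCommGroup ((St E →₀ k) ⧸ RR k E))

noncomputable instance : Module k (Gr k E) := inferInstanceAs (Module k ((St E →₀ k) ⧸ RR k E))

/-- the quotient map -/
noncomputable def mkG : (St E →₀ k) →ₗ[k] Gr k E := (RR k E).mkQ

/-- class of `g` in degree `n` -/
noncomputable def cl (n : ℕ) (g : E) : Gr k E := mkG k (sy k n g)

variable {k}

lemma cl_mul {n : ℕ} {g h : E} (hg : g ∈ ga E n) (hh : h ∈ ga E n) :
    cl k n (g * h) = cl k n g + cl k n h := by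
  rw [cl, cl, cl, ← map_add]
  exact (Submodule.Quotient.eq _).2 (Submodule.subset_span ⟨n, g, hg, .inl ⟨h, hh, rfl⟩⟩)

lemma cl_zero {n : ℕ} {g : E} (hg : g ∈ ga E (n + 1)) : cl k n g = 0 :=
  (Submodule.Quotient.mk_eq_zero _).2
    (Submodule.subset_span ⟨n, g, ga_anti n.le_succ hg, .inr ⟨hg, rfl⟩⟩)

lemma cl_one (n : ℕ) : cl k n (1 : E) = 0 := cl_zero (one_mem _)

lemma cl_inv {n : ℕ} {g : E} (hg : g ∈ ga E n) : cl k n g⁻¹ = -cl k n g := by
  rw [eq_neg_iff_add_eq_zero, ← cl_mul (inv_mem hg) hg, inv_mul_cancel, cl_one]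

lemma cl_conj {n : ℕ} {g : E} (hg : g ∈ ga E n) (x : E) : cl k n (x * g * x⁻¹) = cl k n g := by
  have h := comm_mem (mem_ga_zero x) hg (show n + 1 ≤ _ by omega)
  rw [show x * g * x⁻¹ = ⁅x, g⁆ * g by rw [commutatorElement_def]; group,
    cl_mul (ga_anti n.le_succ h) hg, cl_zero h, zero_add]

lemma gr_ind {P : Gr k E → Prop} (h1 : ∀ n, ∀ g ∈ ga E n, P (cl k n g)) (h0 : P 0)
    (ha : ∀ x y, P x → P y → P (x + y)) (hs : ∀ (c : k) x, P x → P (c • x)) (x : Gr k E) :
    P x := by
  obtain ⟨x, rfl⟩ : ∃ y, mkG k y = x := (RR k E).mkQ_surjective x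
  induction x using Finsupp.induction_linear with
  | zero => rw [map_zero]; exact h0
  | add x y i1 i2 => rw [map_add]; exact ha _ _ i1 i2
  | single s c =>
    have := hs c _ (h1 s.1.1 s.1.2 s.2)
    rwa [cl, sy, dif_pos s.2, ← map_smul, Finsupp.smul_single_one] at this

lemma gr_ext {W : Type} [AddCommGroup W] [Module k W] {u v : Gr k E →ₗ[k] W}
    (h : ∀ n, ∀ g ∈ ga E n, u (cl k n g) = v (cl k n g)) : u = v := by
  ext x
  exact gr_ind (P := fun x => u x = v x) h (by simp) (fun x y i1 i2 => by simp [i1, i2])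
    (fun c x i1 => by simp [i1]) x

lemma exists_desc {W : Type} [AddCommGroup W] [Module k W] (f : ℕ → E → W)
    (h1 : ∀ n, ∀ g ∈ ga E n, ∀ h ∈ ga E n, f n (g * h) = f n g + f n h)
    (h2 : ∀ n, ∀ g ∈ ga E (n + 1), f n g = 0) :
    ∃ u : Gr k E →ₗ[k] W, ∀ n, ∀ g ∈ ga E n, u (cl k n g) = f n g := by
  let v : (St E →₀ k) →ₗ[k] W := Finsupp.linearCombination k fun s => f s.1.1 s.1.2
  have hv : ∀ n, ∀ g ∈ ga E n, v (sy k n g) = f n g := fun n g hg => by
    simp [v, sy, dif_pos hg]
  refine ⟨(RR k E).liftQ v ?_, hv⟩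
  rw [RR, Submodule.span_le]
  rintro _ ⟨n, g, hg, ⟨h, hh, rfl⟩ | ⟨hg', rfl⟩⟩
  · change v _ = 0
    rw [map_sub, map_add, hv _ _ hg, hv _ _ hh, hv _ _ (mul_mem hg hh), h1 _ _ hg _ hh, sub_self]
  · exact (hv _ _ hg).trans (h2 _ _ hg')

lemma exists_br : ∃ B : Gr k E →ₗ[k] Gr k E →ₗ[k] Gr k E, ∀ n, ∀ g ∈ ga E n, ∀ m, ∀ h ∈ ga E m,
    B (cl k n g) (cl k m h) = cl k (n + m + 1) ⁅g, h⁆ := by
  classical
  have h1 : ∀ n g, ∃ u : Gr k E →ₗ[k] Gr k E, g ∈ ga E n → ∀ m, ∀ h ∈ ga E m,
      u (cl k m h) = cl k (n + m + 1) ⁅g, h⁆ := by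
    intro n g
    by_cases hg : g ∈ ga E n
    · obtain ⟨u, hu⟩ := exists_desc (k := k) (fun m h => cl k (n + m + 1) ⁅g, h⁆)
        (fun m h hh h' hh' => by
          have a1 := comm_mem hg hh le_rfl
          have a2 := comm_mem hg hh' le_rfl
          rw [show ⁅g, h * h'⁆ = ⁅g, h⁆ * (h * ⁅g, h'⁆ * h⁻¹) by
            simp only [commutatorElement_def]; group,
            cl_mul a1 (Subgroup.Normal.conj_mem inferInstance _ a2 _), cl_conj a2])
        (fun m h hh => cl_zero (comm_mem hg hh (by omega)))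
      exact ⟨u, fun _ => hu⟩
    · exact ⟨0, fun h => absurd h hg⟩
  choose u hu using h1
  obtain ⟨B, hB⟩ := exists_desc (k := k) u
    (fun n g hg g' hg' => gr_ext fun m h hh => by
      have a1 := comm_mem hg hh le_rfl
      have a2 := comm_mem hg' hh le_rfl
      rw [LinearMap.add_apply, hu _ _ (mul_mem hg hg') _ _ hh, hu _ _ hg _ _ hh, hu _ _ hg' _ _ hh,
        show ⁅g * g', h⁆ = g * ⁅g', h⁆ * g⁻¹ * ⁅g, h⁆ by simp only [commutatorElement_def]; group,
        cl_mul (Subgroup.Normal.conj_mem inferInstance _ a2 _) a1, cl_conj a2, add_comm])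
    (fun n g hg => gr_ext fun m h hh => by
      rw [hu _ _ (ga_anti n.le_succ hg) _ _ hh, cl_zero (comm_mem hg hh (by omega))]; rfl)
  exact ⟨B, fun n g hg m h hh => by rw [hB _ _ hg, hu _ _ hg _ _ hh]⟩

/-- the bracket -/
noncomputable def br : Gr k E →ₗ[k] Gr k E →ₗ[k] Gr k E := exists_br.choose

lemma br_cl {n m : ℕ} {g h : E} (hg : g ∈ ga E n) (hh : h ∈ ga E m) :
    br (cl k n g) (cl k m h) = cl k (n + m + 1) ⁅g, h⁆ := exists_br.choose_spec n g hg m h hh

lemma br_anti (x y : Gr k E) : br x y = -br y x := by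
  have : (br : Gr k E →ₗ[k] _) = -br.flip := gr_ext fun n g hg => gr_ext fun m h hh => by
    rw [LinearMap.neg_apply, LinearMap.neg_apply, LinearMap.flip_apply, br_cl hg hh, br_cl hh hg,
      ← cl_inv (comm_mem hh hg le_rfl), commutatorElement_inv, add_comm n m]
  conv_lhs => rw [this]
  rfl

lemma br_self (x : Gr k E) : br x x = 0 := by
  refine gr_ind (P := fun x => br x x = 0) (fun n g hg => ?_) (by simp) (fun x y i1 i2 => ?_)
    (fun c x i1 => by simp [i1]) x
  · rw [br_cl hg hg, commutatorElement_self, cl_one]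
  · simp only [map_add, LinearMap.add_apply, i1, i2, br_anti x y]
    abel

lemma br_jac (x y z : Gr k E) : br (br x y) z + br (br y z) x + br (br z x) y = 0 := by
  refine gr_ind (P := fun x => br (br x y) z + br (br y z) x + br (br z x) y = 0)
    (fun n g hg => ?_) (by simp) (fun x x' i1 i2 => ?_) (fun c x i1 => ?_) x
  · refine gr_ind (P := fun y => br (br _ y) z + br (br y z) _ + br (br z _) y = 0)
      (fun m h hh => ?_) (by simp only [map_zero, LinearMap.zero_apply, add_zero]) (fun x x' i1 i2 => ?_) (fun c x i1 => ?_) y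
    · refine gr_ind (P := fun z => br (br _ _) z + br (br _ z) _ + br (br z _) _ = 0)
        (fun r u hu => ?_) (by simp) (fun x x' i1 i2 => ?_) (fun c x i1 => ?_) z
      · have c1 := Subgroup.Normal.conj_mem inferInstance _ hu h
        have c2 := Subgroup.Normal.conj_mem inferInstance _ hg u
        have c3 := Subgroup.Normal.conj_mem inferInstance _ hh g
        have a1 := comm_mem hg hh le_rfl
        have a2 := comm_mem hh hu le_rfl
        have a3 := comm_mem hu hg le_rfl
        have b1 := comm_mem a1 c1 (show n + m + r + 2 ≤ _ by omega)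
        have b2 := comm_mem a2 c2 (show n + m + r + 2 ≤ _ by omega)
        have b3 := comm_mem a3 c3 (show n + m + r + 2 ≤ _ by omega)
        rw [br_cl hg hh, br_cl hh hu, br_cl hu hg]
        conv_lhs => enter [1, 1]; rw [← cl_conj (k := k) hu h, br_cl a1 c1]
        conv_lhs => enter [1, 2]; rw [← cl_conj (k := k) hg u, br_cl a2 c2]
        conv_lhs => enter [2]; rw [← cl_conj (k := k) hh g, br_cl a3 c3]
        rw [show n + m + 1 + r + 1 = n + m + r + 2 by omega,
          show m + r + 1 + n + 1 = n + m + r + 2 by omega,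
          show r + n + 1 + m + 1 = n + m + r + 2 by omega, ← cl_mul b1 b2,
          ← cl_mul (mul_mem b1 b2) b3]
        convert cl_one _
        simp only [commutatorElement_def]
        group
      · simp only [map_add, LinearMap.add_apply]
        linear_combination (norm := abel1) i1 + i2
      · simp only [map_smul, LinearMap.smul_apply, ← smul_add, i1, smul_zero]
    · simp only [map_add, LinearMap.add_apply]
      linear_combination (norm := abel1) i1 + i2
    · simp only [map_smul, LinearMap.smul_apply, ← smul_add, i1, smul_zero]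
  · simp only [map_add, LinearMap.add_apply]
    linear_combination (norm := abel1) i1 + i2
  · simp only [map_smul, LinearMap.smul_apply, ← smul_add, i1, smul_zero]

noncomputable instance : LieRing (Gr k E) :=
  { (inferInstance : AddCommGroup (Gr k E)) with
    bracket := fun x y => br x y
    add_lie := fun x y z => by simp
    lie_add := fun x y z => by simp
    lie_self := br_self
    leibniz_lie := fun x y z => by
      change br x (br y z) = br (br x y) z + br y (br x z)
      have := br_jac x y z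
      rw [br_anti (br y z) x, br_anti (br z x) y, br_anti z x, map_neg, neg_neg] at this
      rw [← sub_eq_zero, ← neg_eq_zero, ← this]
      abel }

noncomputable instance : LieAlgebra k (Gr k E) :=
  { (inferInstance : Module k (Gr k E)) with
    lie_smul := fun c x y => by change br _ _ = c • br _ _; simp }

lemma lie_cl {n m : ℕ} {g h : E} (hg : g ∈ ga E n) (hh : h ∈ ga E m) :
    ⁅cl k n g, cl k m h⁆ = cl k (n + m + 1) ⁅g, h⁆ := br_cl hg hh

lemma exists_add_hom {p : ℕ} [Fact p.Prime] {A : Type} [AddCommGroup A] (h : ∀ x : A, p • x = 0)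
    {x : A} (hx : x ≠ 0) : ∃ f : A →+ ZMod p, f x ≠ 0 := by
  have : Module (ZMod p) A := AddCommGroup.zmodModule h
  obtain ⟨f, hf⟩ := Module.Projective.exists_dual_ne_zero (ZMod p) hx
  exact ⟨f.toAddMonoidHom, hf⟩

section gen

variable {a : Fin 2 → E} (ha : Subgroup.closure (Set.range a) = ⊤)
include ha

lemma cl_zero_mem (x : E) : cl k 0 x ∈ Submodule.span k (Set.range fun j => cl k 0 (a j)) := by
  have hx : x ∈ Subgroup.closure (Set.range a) := by rw [ha]; trivial
  induction hx using Subgroup.closure_induction with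
  | mem x h => obtain ⟨j, rfl⟩ := h; exact Submodule.subset_span ⟨j, rfl⟩
  | one => rw [cl_one]; exact zero_mem _
  | mul x y _ _ i1 i2 => rw [cl_mul (mem_ga_zero _) (mem_ga_zero _)]; exact add_mem i1 i2
  | inv x _ i1 => rw [cl_inv (mem_ga_zero _)]; exact neg_mem i1

lemma cl_succ_mem {n : ℕ} {P : Submodule k (Gr k E)}
    (h : ∀ g ∈ ga E n, ∀ j, ⁅cl k 0 (a j), cl k n g⁆ ∈ P) :
    ∀ g ∈ ga E (n + 1), cl k (n + 1) g ∈ P := by
  intro g hg
  have : ga E (n + 1) ≤ ⟨⟨⟨{g | g ∈ ga E (n + 1) ∧ cl k (n + 1) g ∈ P},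
      fun h1 h2 => ⟨mul_mem h1.1 h2.1, by rw [cl_mul h1.1 h2.1]; exact add_mem h1.2 h2.2⟩⟩,
      ⟨one_mem _, by rw [cl_one]; exact zero_mem _⟩⟩,
      fun h1 => ⟨inv_mem h1.1, by rw [cl_inv h1.1]; exact neg_mem h1.2⟩⟩ := by
    refine (Subgroup.commutator_le (H₁ := ga E n) (H₂ := ⊤)).2 fun u hu x _ =>
      ⟨comm_mem hu (mem_ga_zero x) le_rfl, ?_⟩
    rw [← lie_cl (m := 0) hu (mem_ga_zero x)]
    have h2 : (Submodule.span k (Set.range fun j => cl k 0 (a j))).map
        (ad k _ (cl k n u)) ≤ P := by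
      rw [Submodule.map_span_le]
      rintro _ ⟨j, rfl⟩
      rw [ad_apply, ← lie_skew]
      exact neg_mem (h u hu j)
    exact h2 (Submodule.mem_map_of_mem (cl_zero_mem ha x))
  exact (this hg).2

lemma gr_gen : LieSubalgebra.lieSpan k _ (Set.range fun j => cl k 0 (a j)) = ⊤ := by
  set S := LieSubalgebra.lieSpan k _ (Set.range fun j => cl k 0 (a j))
  have h1 : ∀ n, ∀ g ∈ ga E n, cl k n g ∈ S.toSubmodule := by
    intro n
    induction n with
    | zero => exact fun g _ => Submodule.span_le.2 LieSubalgebra.subset_lieSpan (cl_zero_mem ha g)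
    | succ n ih =>
      exact cl_succ_mem ha fun g hg j => S.lie_mem (LieSubalgebra.subset_lieSpan ⟨j, rfl⟩) (ih g hg)
  rw [eq_top_iff]
  intro x _
  exact gr_ind (P := fun x => x ∈ S) h1 (zero_mem _) (fun _ _ => add_mem)
    (fun c _ => S.smul_mem c) x

variable {p : ℕ} (hpow : ∀ j, a j ^ p ∈ ga E 1)
include hpow

lemma pow_mem_ga (n : ℕ) : ∀ g ∈ ga E n, g ^ p ∈ ga E (n + 1) := by
  let P : ∀ n, Subgroup E := fun n => ⟨⟨⟨{g | g ∈ ga E n ∧ g ^ p ∈ ga E (n + 1)},
    fun {x y} h1 h2 => ⟨mul_mem h1.1 h2.1, by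
      have c : Commute (QuotientGroup.mk' (ga E (n + 1)) x) (QuotientGroup.mk' _ y) := by
        rw [← commutatorElement_eq_one_iff_commute, ← map_commutatorElement]
        exact (QuotientGroup.eq_one_iff _).2 (comm_mem h1.1 (mem_ga_zero _) le_rfl)
      rw [← QuotientGroup.eq_one_iff, ← QuotientGroup.mk'_apply, map_pow, map_mul, c.mul_pow,
        ← map_pow, ← map_pow, ← map_mul]
      exact (QuotientGroup.eq_one_iff _).2 (mul_mem h1.2 h2.2)⟩⟩,
    ⟨one_mem _, by rw [one_pow]; exact one_mem _⟩⟩,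
    fun h1 => ⟨inv_mem h1.1, by rw [inv_pow]; exact inv_mem h1.2⟩⟩
  induction n with
  | zero =>
    intro g _
    have : Subgroup.closure (Set.range a) ≤ P 0 := by
      rw [Subgroup.closure_le]
      rintro _ ⟨j, rfl⟩
      exact ⟨trivial, hpow j⟩
    exact (this (by rw [ha]; trivial)).2
  | succ n ih =>
    intro g hg
    have : ga E (n + 1) ≤ P (n + 1) := by
      refine (Subgroup.commutator_le (H₁ := ga E n) (H₂ := ⊤)).2 fun u hu x _ =>
        ⟨comm_mem hu (mem_ga_zero x) le_rfl, ?_⟩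
      have h1 : ∀ m, QuotientGroup.mk' (ga E (n + 2)) (⁅u, x⁆ ^ m) =
          QuotientGroup.mk' _ ⁅u ^ m, x⁆ := by
        intro m
        induction m with
        | zero => simp
        | succ m i1 =>
          have h2 : QuotientGroup.mk' (ga E (n + 2)) ⁅u, ⁅u ^ m, x⁆⁆ = 1 :=
            (QuotientGroup.eq_one_iff _).2 (comm_mem (mem_ga_zero u)
              (comm_mem (pow_mem hu m) (mem_ga_zero x) le_rfl) (by omega))
          rw [pow_succ, map_mul, i1, show ⁅u ^ (m + 1), x⁆ = ⁅u, ⁅u ^ m, x⁆⁆ * ⁅u ^ m, x⁆ * ⁅u, x⁆ by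
            simp only [commutatorElement_def, pow_succ' u]; group, map_mul, map_mul, h2, one_mul]
      rw [← QuotientGroup.eq_one_iff, ← QuotientGroup.mk'_apply, h1]
      exact (QuotientGroup.eq_one_iff _).2 (comm_mem (ih u hu) (mem_ga_zero x) le_rfl)
    exact (this hg).2

lemma exists_dual [Fact p.Prime] [CharP k p] {n : ℕ} {g : E} (hg : g ∈ ga E n)
    (hg' : g ∉ ga E (n + 1)) : ∃ u : Module.Dual k (Gr k E), u (cl k n g) = 1 ∧
      ∀ m, m ≠ n → ∀ h ∈ ga E m, u (cl k m h) = 0 := by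
  classical
  let Q := ga E n ⧸ (ga E (n + 1)).subgroupOf (ga E n)
  let π : ga E n →* Q := QuotientGroup.mk' _
  have hπ : ∀ x, π x = 1 ↔ x.1 ∈ ga E (n + 1) := fun x => QuotientGroup.eq_one_iff x
  have hs : Function.Surjective π := QuotientGroup.mk'_surjective _
  let : CommGroup Q := { (inferInstance : Group Q) with
    mul_comm := fun x y => by
      obtain ⟨x, rfl⟩ := hs x
      obtain ⟨y, rfl⟩ := hs y
      rw [← commutatorElement_eq_one_iff_mul_comm, ← map_commutatorElement, hπ]
      exact comm_mem x.2 (mem_ga_zero y.1) le_rfl }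
  have h0 : Additive.ofMul (π ⟨g, hg⟩) ≠ 0 := fun h => hg' ((hπ _).1 h)
  obtain ⟨f, hf⟩ := exists_add_hom (p := p) (A := Additive Q) (fun x => by
    obtain ⟨y, hy⟩ := hs x.toMul
    have : x.toMul ^ p = 1 := by rw [← hy, ← map_pow, hπ]; exact pow_mem_ga ha hpow n _ y.2
    exact this) h0
  let χ : ℕ → E → k := fun m x => if m = n then if h : x ∈ ga E n then
    ZMod.castHom (dvd_refl p) k (f (.ofMul (π ⟨x, h⟩))) else 0 else 0
  obtain ⟨u, hu⟩ := exists_desc (k := k) χ (fun m x hx y hy => by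
      by_cases h : m = n
      · subst h
        simp only [χ, if_true, dif_pos hx, dif_pos hy, dif_pos (mul_mem hx hy), ← map_add,
          ← ofMul_mul, ← map_mul]
        rfl
      · simp [χ, h])
    (fun m x hx => by
      by_cases h : m = n
      · subst h
        have hx' := ga_anti m.le_succ hx
        simp only [χ, if_true, dif_pos hx', (hπ ⟨x, hx'⟩).2 hx, ofMul_one, map_zero]
      · simp [χ, h])
  have h1 : u (cl k n g) ≠ 0 := by
    rw [hu _ _ hg]
    simp only [χ, if_true, dif_pos hg]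
    exact (map_ne_zero _).2 hf
  refine ⟨(u (cl k n g))⁻¹ • u, by simp [h1], fun m hm h hh => ?_⟩
  simp [hu _ _ hh, χ, hm]

end gen

/-- span of the classes of degree at least `n` -/
noncomputable def MM (k : Type) [Field k] (E : Type) [Group E] (n : ℕ) : Submodule k (Gr k E) :=
  Submodule.span k {v | ∃ m, n ≤ m ∧ ∃ g ∈ ga E m, v = cl k m g}

lemma cl_mem_MM {n m : ℕ} {g : E} (h : n ≤ m) (hg : g ∈ ga E m) : cl k m g ∈ MM k E n :=
  Submodule.subset_span ⟨m, h, g, hg, rfl⟩

lemma lie_MM {n n' : ℕ} (h : n' ≤ n + 1) (z : Gr k E) : ∀ v ∈ MM k E n, ⁅z, v⁆ ∈ MM k E n' := by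
  refine gr_ind (P := fun z => ∀ v ∈ MM k E n, ⁅z, v⁆ ∈ MM k E n') (fun r x hx v hv => ?_)
    (by simp) (fun x y i1 i2 v hv => ?_) (fun c x i1 v hv => ?_) z
  · have : (MM k E n).map (ad k _ (cl k r x)) ≤ MM k E n' := by
      rw [MM, Submodule.map_span_le]
      rintro _ ⟨m, hm, g, hg, rfl⟩
      rw [ad_apply, lie_cl hx hg]
      exact cl_mem_MM (by omega) (comm_mem hx hg le_rfl)
    exact this (Submodule.mem_map_of_mem hv)
  · rw [add_lie]; exact add_mem (i1 v hv) (i2 v hv)
  · rw [smul_lie]; exact Submodule.smul_mem _ c (i1 v hv)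

lemma MM_ab {N : ℕ} (hab : ⁅ga E N, ga E N⁆ = ⊥) :
    ∀ u ∈ MM k E N, ∀ v ∈ MM k E N, ⁅u, v⁆ = 0 := by
  intro u hu v hv
  induction hu, hv using Submodule.span_induction₂ with
  | mem_mem u v hu hv =>
    obtain ⟨m, hm, g, hg, rfl⟩ := hu
    obtain ⟨r, hr, h, hh, rfl⟩ := hv
    have := Subgroup.commutator_mem_commutator (ga_anti hm hg) (ga_anti hr hh)
    rw [hab, Subgroup.mem_bot] at this
    rw [lie_cl hg hh, this, cl_one]
  | zero_left => simp
  | zero_right => simp
  | add_left _ _ _ _ _ _ i1 i2 => rw [add_lie, i1, i2, add_zero]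
  | add_right _ _ _ _ _ _ i1 i2 => rw [lie_add, i1, i2, add_zero]
  | smul_left _ _ _ _ _ i1 => rw [smul_lie, i1, smul_zero]
  | smul_right _ _ _ _ _ i1 => rw [lie_smul, i1, smul_zero]

/-- iterated commutator `[x, [x, ... [x, y]]]` -/
def itc (x : E) (n : ℕ) (y : E) : E := (fun z => ⁅x, z⁆)^[n] y

lemma itc_succ (x y : E) (n : ℕ) : itc x (n + 1) y = ⁅x, itc x n y⁆ :=
  Function.iterate_succ_apply' _ _ _

lemma itc_cl (x y : E) (n : ℕ) : itc x n y ∈ ga E n ∧
    (ad k _ (cl k 0 x) ^ n) (cl k 0 y) = cl k n (itc x n y) := by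
  induction n with
  | zero => exact ⟨trivial, rfl⟩
  | succ n ih =>
    rw [itc_succ, pow_succ', Module.End.mul_apply, ih.2, ad_apply, lie_cl (mem_ga_zero x) ih.1,
      zero_add]
    exact ⟨comm_mem (mem_ga_zero x) ih.1 (by omega), rfl⟩

theorem ga_stab {p : ℕ} [Fact p.Prime] (hp : 20 < p) {a : Fin 2 → E}
    (ha : Subgroup.closure (Set.range a) = ⊤) (hpow : ∀ j, a j ^ p ∈ ga E 1)
    (hrel : ∀ i j, i ≠ j → itc (a i) 5 (a j) = 1) {N : ℕ} (hab : ⁅ga E N, ga E N⁆ = ⊥) :
    ∃ n, ga E n ≤ ga E (n + 1) := by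
  let k := AlgebraicClosure (ZMod p)
  have h1 : Rel k fun j => cl k 0 (a j) := fun i j hij => by
    rw [Nil, (itc_cl _ _ _).2, hrel i j hij, cl_one]
  have hT := span_TT_of_rel (gr_gen ha) h1 hp
  have h2 : ∀ n, ∃ Y : Set (Gr k E), Y.Finite ∧ Y ⊆ MM k E n ∧
      ∀ g ∈ ga E n, cl k n g ∈ Submodule.span k Y := by
    intro n
    induction n with
    | zero =>
      refine ⟨_, Set.finite_range _, ?_, fun g _ => cl_zero_mem ha g⟩
      rintro _ ⟨j, rfl⟩
      exact cl_mem_MM le_rfl trivial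
    | succ n ih =>
      obtain ⟨Y, y1, y2, y3⟩ := ih
      refine ⟨⋃ j, ad k _ (cl k 0 (a j)) '' Y, Set.finite_iUnion fun j => y1.image _, ?_,
        cl_succ_mem ha fun g hg j => ?_⟩
      · refine Set.iUnion_subset fun j => ?_
        rintro _ ⟨y, hy, rfl⟩
        exact lie_MM le_rfl _ _ (y2 hy)
      · exact Submodule.span_mono (Set.subset_iUnion (fun j => ad k _ (cl k 0 (a j)) '' Y) j)
          (Submodule.apply_mem_span_image_of_mem_span (ad k _ (cl k 0 (a j))) (y3 g hg))
  choose Y y1 y2 y3 using h2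
  obtain ⟨F, f1, f2, f3⟩ := exists_fg_ideal hT (fun z => lie_MM N.le_succ z) (MM_ab hab)
    (A := Submodule.span k (⋃ n ∈ Set.Iio N, Y n))
    (Submodule.fg_span ((Set.finite_Iio N).biUnion fun n _ => y1 n)) (by
      rw [eq_top_iff]
      intro x _
      refine gr_ind (P := fun x => x ∈ Submodule.span k (⋃ n ∈ Set.Iio N, Y n) ⊔ MM k E N)
        (fun n g hg => ?_) (zero_mem _) (fun _ _ => add_mem) (fun c _ => Submodule.smul_mem _ c) x
      rcases lt_or_ge n N with h | h
      · exact Submodule.mem_sup_left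
          (Submodule.span_mono (Set.subset_biUnion_of_mem (u := Y) (Set.mem_Iio.2 h)) (y3 n g hg))
      · exact Submodule.mem_sup_right (cl_mem_MM h hg)) (y2 N) (y1 N)
  have h3 : ∀ i, ∀ g ∈ ga E (N + i), cl k (N + i) g ∈ F := by
    intro i
    induction i with
    | zero => exact fun g hg => Submodule.span_le.2 f2 (y3 N g hg)
    | succ i ih => exact cl_succ_mem ha fun g hg j => f3 _ _ (ih g hg)
  by_contra hc
  push Not at hc
  choose g g1 g2 using fun n => SetLike.not_le_iff_exists.1 (hc n)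
  choose u u1 u2 using fun n => exists_dual (k := k) ha hpow (g1 n) (g2 n)
  have h4 : LinearIndependent k fun i => (⟨cl k (N + i) (g (N + i)), h3 i _ (g1 _)⟩ : F) :=
    .of_pairwise_dual_eq_zero_one _ (fun i => (u (N + i)).comp F.subtype)
      (fun i j hij => u2 _ _ (by omega) _ (g1 _)) fun i => u1 _
  have := Module.Finite.iff_fg.2 f1
  exact Module.Finite.not_linearIndependent_of_infinite _ h4

end Pool.Agent.MP_ab7c65_al.PF

end

-- part MP_ab7c65_al.PF.Fab
section

/-! Subgroups containing a normal subgroup of `p`-power index have no homomorphism to `ℤ`;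
Zassenhaus degrees. -/

set_option autoImplicit false
set_option linter.unusedSectionVars false

namespace Pool.Agent.MP_ab7c65_al.PF

open scoped commutatorElement

variable {G : Type} [Group G] {p : ℕ} [Fact p.Prime]

lemma map_ga {Q : Type} [Group Q] (f : G →* Q) {n : ℕ} {g : G} (hg : g ∈ ga G n) :
    f g ∈ ga Q n := by
  have h := Subgroup.mem_map_of_mem f hg
  rw [ga, Subgroup.map_lowerCentralSeries] at h
  exact Subgroup.lowerCentralSeries_mono n le_top h

lemma map_ga_surj {Q : Type} [Group Q] (f : G →* Q) (hf : Function.Surjective f) (n : ℕ) :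
    (ga G n).map f = ga Q n := by
  rw [ga, Subgroup.map_lowerCentralSeries, Subgroup.map_top_of_surjective f hf, ga]

lemma map_itc {Q : Type} [Group Q] (f : G →* Q) (x y : G) (n : ℕ) :
    f (itc x n y) = itc (f x) n (f y) := by
  induction n with
  | zero => rfl
  | succ n ih => rw [itc_succ, itc_succ, map_commutatorElement, ih]

lemma exists_ga_le (K : Subgroup G) [K.Normal] [K.FiniteIndex] (h : IsPGroup p (G ⧸ K)) :
    ∃ N, ga G N ≤ K := by
  obtain ⟨N, hN⟩ := Subgroup.nilpotent_iff_lowerCentralSeries.1 h.isNilpotent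
  refine ⟨N, fun g hg => ?_⟩
  have := map_ga (QuotientGroup.mk' K) hg
  rw [ga, hN, Subgroup.mem_bot] at this
  exact (QuotientGroup.eq_one_iff _).1 this

variable (hp : 20 < p) {a : Fin 2 → G} (ha : Subgroup.closure (Set.range a) = ⊤)
  (hpow : ∀ j, a j ^ p ∈ ga G 1) (hrel : ∀ i j, i ≠ j → itc (a i) 5 (a j) = 1)
include hp ha hpow hrel

lemma exists_deep (N : ℕ) : ∃ n, ∀ C : Subgroup G, ⁅ga G N, ga G N⁆ ≤ C → (∃ m, ga G m ≤ C) →
    ga G n ≤ C := by
  let π := QuotientGroup.mk' ⁅ga G N, ga G N⁆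
  have hs : Function.Surjective π := QuotientGroup.mk'_surjective _
  obtain ⟨n, hn⟩ := ga_stab hp (a := fun j => π (a j)) (N := N)
    (by rw [show (Set.range fun j => π (a j)) = π '' Set.range a from Set.range_comp π a,
      ← MonoidHom.map_closure, ha, Subgroup.map_top_of_surjective π hs])
    (fun j => by rw [← map_pow]; exact map_ga π (hpow j))
    (fun i j hij => by rw [← map_itc, hrel i j hij, map_one])
    (by rw [← map_ga_surj π hs, ← Subgroup.map_commutator, Subgroup.map_eq_bot_iff,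
      QuotientGroup.ker_mk'])
  have h1 : ∀ i, ga _ (n + i) ≤ ga (G ⧸ ⁅ga G N, ga G N⁆) (n + i + 1) := by
    intro i
    induction i with
    | zero => exact hn
    | succ i ih => exact Subgroup.commutator_mono ih le_rfl
  have h2 : ∀ i, ga _ n ≤ ga (G ⧸ ⁅ga G N, ga G N⁆) (n + i) := by
    intro i
    induction i with
    | zero => exact le_rfl
    | succ i ih => exact ih.trans (h1 i)
  refine ⟨n, fun C h3 ⟨m, h4⟩ g hg => ?_⟩
  have h5 := ga_anti (Nat.le_add_left m n) (h2 m (map_ga π hg))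
  rw [← map_ga_surj π hs] at h5
  obtain ⟨x, hx, e⟩ := h5
  obtain ⟨z, hz, rfl⟩ := (QuotientGroup.mk'_eq_mk' _).1 e
  exact mul_mem (h4 hx) (h3 hz)

theorem hom_trivial {H K : Subgroup G} [K.Normal] [K.FiniteIndex] (hK : IsPGroup p (G ⧸ K))
    (hKH : K ≤ H) (ψ : H →* Multiplicative ℤ) (h : H) : ψ h = 1 := by
  obtain ⟨N, hN⟩ := exists_ga_le K hK
  obtain ⟨n, hn⟩ := exists_deep hp ha hpow hrel N
  have := Subgroup.finiteIndex_of_le hKH
  have h1 : ∀ m, h.1 ^ p ^ m ∈ ga G m := by
    intro m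
    induction m with
    | zero => trivial
    | succ m ih => rw [pow_succ, pow_mul]; exact pow_mem_ga ha hpow m _ ih
  have h2 : ∀ j, ((p ^ j : ℕ) : ℤ) ∣ p ^ n * (ψ h).toAdd := by
    intro j
    let χ : H →* Multiplicative (ZMod (p ^ j)) :=
      (AddMonoidHom.toMultiplicative (Int.castAddHom (ZMod (p ^ j)))).comp ψ
    let W := χ.ker.map H.subtype
    have hW : ∀ x : H, x.1 ∈ W ↔ χ x = 1 := fun x =>
      (Subgroup.mem_map_iff_mem H.subtype_injective).trans MonoidHom.mem_ker
    have : W.FiniteIndex := ⟨by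
      rw [Subgroup.index_map_subtype]
      exact mul_ne_zero Subgroup.FiniteIndex.index_ne_zero Subgroup.FiniteIndex.index_ne_zero⟩
    have h3 : IsPGroup p (G ⧸ W.normalCore) := by
      intro x
      obtain ⟨x, rfl⟩ := QuotientGroup.mk'_surjective _ x
      obtain ⟨r, hr⟩ := hK (QuotientGroup.mk' K x)
      rw [← map_pow, QuotientGroup.mk'_apply, QuotientGroup.eq_one_iff] at hr
      refine ⟨r + j, ?_⟩
      rw [← map_pow, QuotientGroup.mk'_apply, QuotientGroup.eq_one_iff, pow_add, pow_mul]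
      intro b
      rw [← conj_pow]
      refine (hW (⟨_, hKH (Subgroup.Normal.conj_mem inferInstance _ hr b)⟩ ^ p ^ j)).2 ?_
      rw [map_pow, ← ofAdd_toAdd (χ _), ← ofAdd_nsmul, nsmul_eq_mul, ZMod.natCast_self, zero_mul,
        ofAdd_zero]
    have h4 := hn W.normalCore (Subgroup.normal_le_normalCore.2 (Subgroup.commutator_le.2
      fun u hu v hv => (hW ⁅(⟨u, hKH (hN hu)⟩ : H), ⟨v, hKH (hN hv)⟩⁆).2 (by
        rw [map_commutatorElement, commutatorElement_eq_one_iff_mul_comm, mul_comm])))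
      (exists_ga_le _ h3)
    have h5 := (hW (h ^ p ^ n)).1 (W.normalCore_le (h4 (h1 n)))
    rw [← ZMod.intCast_zmod_eq_zero_iff_dvd]
    have h6 : (((ψ (h ^ p ^ n)).toAdd : ℤ) : ZMod (p ^ j)) = 0 := h5
    rw [map_pow, toAdd_pow, nsmul_eq_mul] at h6
    exact_mod_cast h6
  have h3 : (p : ℤ) ^ n * (ψ h).toAdd = 0 := by
    refine Int.eq_zero_of_dvd_of_natAbs_lt_natAbs (h2 ((p : ℤ) ^ n * (ψ h).toAdd).natAbs) ?_
    rw [Int.natAbs_natCast]
    exact Nat.lt_pow_self (by omega)
  exact (mul_eq_zero.1 h3).resolve_left (by positivity)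

omit hp ha hpow hrel

lemma finite_ab {H : Type} [Group H] [Group.FG H]
    (h : ∀ (ψ : H →* Multiplicative ℤ) (x : H), ψ x = 1) : Finite (Abelianization H) := by
  have hfg : Group.FG (Abelianization H) :=
    Group.fg_of_surjective (f := Abelianization.of) (QuotientGroup.mk'_surjective _)
  have hfin : Module.Finite ℤ (Additive (Abelianization H)) :=
    Module.Finite.iff_addGroup_fg.mpr (AddGroup.fg_iff_mul_fg.mpr hfg)
  refine Module.finite_of_fg_torsion (Additive (Abelianization H)) (fun x => ?_)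
  by_contra hx
  have h0 : (Submodule.torsion ℤ (Additive (Abelianization H))).mkQ x ≠ 0 := fun h1 =>
    hx ((Submodule.Quotient.mk_eq_zero _).mp h1)
  obtain ⟨f, hf⟩ := Module.Projective.exists_dual_ne_zero ℤ h0
  let φ : Additive (Abelianization H) →+ ℤ :=
    (f.comp (Submodule.torsion ℤ (Additive (Abelianization H))).mkQ).toAddMonoidHom
  obtain ⟨y, hy⟩ : ∃ y : H, Abelianization.of y = Additive.toMul x :=
    QuotientGroup.mk'_surjective _ _
  have := h ((AddMonoidHom.toMultiplicativeRight φ).comp Abelianization.of) y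
  rw [MonoidHom.comp_apply, hy] at this
  exact hf this

/-- the augmentation ideal -/
noncomputable abbrev Au (p : ℕ) (G : Type) [Group G] :
    Submodule (ZMod p) (MonoidAlgebra (ZMod p) G) :=
  Submodule.span (ZMod p) (Set.range fun g : G => MonoidAlgebra.of (ZMod p) G g - 1)

lemma gen_mem (g : G) : MonoidAlgebra.of (ZMod p) G g - 1 ∈ Au p G :=
  Submodule.subset_span ⟨g, rfl⟩

lemma au_succ_le (n : ℕ) : Au p G ^ (n + 2) ≤ Au p G ^ (n + 1) := by
  rw [pow_succ, pow_succ, mul_assoc]
  gcongr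
  rw [Submodule.span_mul_span, Submodule.span_le]
  rintro _ ⟨_, ⟨g, rfl⟩, _, ⟨h, rfl⟩, rfl⟩
  have : (MonoidAlgebra.of (ZMod p) G g - 1) * (MonoidAlgebra.of (ZMod p) G h - 1) =
      (MonoidAlgebra.of (ZMod p) G (g * h) - 1) - (MonoidAlgebra.of (ZMod p) G g - 1) -
        (MonoidAlgebra.of (ZMod p) G h - 1) := by
    rw [map_mul]; noncomm_ring
  change (MonoidAlgebra.of (ZMod p) G g - 1) * (MonoidAlgebra.of (ZMod p) G h - 1) ∈ Au p G
  rw [this]
  exact sub_mem (sub_mem (gen_mem _) (gen_mem _)) (gen_mem _)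

lemma au_le {m n : ℕ} (h : n ≤ m) : Au p G ^ (m + 1) ≤ Au p G ^ (n + 1) := by
  induction h with
  | refl => exact le_rfl
  | step _ ih => exact (au_succ_le _).trans ih

lemma mul_of_mem {n : ℕ} {x : MonoidAlgebra (ZMod p) G} (hx : x ∈ Au p G ^ (n + 1)) (g : G) :
    x * MonoidAlgebra.of (ZMod p) G g ∈ Au p G ^ (n + 1) := by
  rw [show x * MonoidAlgebra.of (ZMod p) G g = x * (MonoidAlgebra.of (ZMod p) G g - 1) + x by
    noncomm_ring]
  refine add_mem (au_succ_le n ?_) hx
  rw [pow_succ]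
  exact Submodule.mul_mem_mul hx (gen_mem g)

/-- the Zassenhaus filtration, shifted by one -/
def Za (p : ℕ) [Fact p.Prime] (G : Type) [Group G] (n : ℕ) : Subgroup G where
  carrier := {g | MonoidAlgebra.of (ZMod p) G g - 1 ∈ Au p G ^ (n + 1)}
  one_mem' := by simp [← MonoidAlgebra.one_def]
  mul_mem' := fun {g h} hg hh => by
    change _ ∈ Au p G ^ (n + 1)
    rw [show MonoidAlgebra.of (ZMod p) G (g * h) - 1 =
        (MonoidAlgebra.of (ZMod p) G g - 1) * MonoidAlgebra.of (ZMod p) G h +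
          (MonoidAlgebra.of (ZMod p) G h - 1) by rw [map_mul]; noncomm_ring]
    exact add_mem (mul_of_mem hg h) hh
  inv_mem' := fun {g} hg => by
    have e : MonoidAlgebra.of (ZMod p) G g * MonoidAlgebra.of (ZMod p) G g⁻¹ = 1 := by
      rw [← map_mul, mul_inv_cancel, map_one]
    change _ ∈ Au p G ^ (n + 1)
    rw [show MonoidAlgebra.of (ZMod p) G g⁻¹ - 1 =
        -((MonoidAlgebra.of (ZMod p) G g - 1) * MonoidAlgebra.of (ZMod p) G g⁻¹) by
      rw [sub_mul, e]; noncomm_ring]
    exact neg_mem (mul_of_mem hg _)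

lemma itc_mem_Za (x y : G) (n : ℕ) : itc x n y ∈ Za p G n := by
  induction n with
  | zero => change _ ∈ Au p G ^ (0 + 1); rw [zero_add, pow_one]; exact gen_mem _
  | succ n ih =>
    rw [itc_succ]
    generalize itc x n y = z at ih
    have e : MonoidAlgebra.of (ZMod p) G z * MonoidAlgebra.of (ZMod p) G x *
        MonoidAlgebra.of (ZMod p) G (x⁻¹ * z⁻¹) = 1 := by
      rw [← map_mul, ← map_mul, show z * x * (x⁻¹ * z⁻¹) = 1 by group, map_one]
    have : MonoidAlgebra.of (ZMod p) G ⁅x, z⁆ - 1 =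
        ((MonoidAlgebra.of (ZMod p) G x - 1) * (MonoidAlgebra.of (ZMod p) G z - 1) -
          (MonoidAlgebra.of (ZMod p) G z - 1) * (MonoidAlgebra.of (ZMod p) G x - 1)) *
            MonoidAlgebra.of (ZMod p) G (x⁻¹ * z⁻¹) := by
      rw [commutatorElement_def, mul_assoc, map_mul _ (x * z), map_mul _ x z]
      conv_lhs => rw [← e]
      noncomm_ring
    change _ ∈ Au p G ^ (n + 1 + 1)
    rw [this]
    refine mul_of_mem (sub_mem ?_ ?_) _
    · rw [pow_succ']
      exact Submodule.mul_mem_mul (gen_mem x) ih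
    · rw [pow_succ]
      exact Submodule.mul_mem_mul ih (gen_mem x)

lemma pow_mem_Za (g : G) {n : ℕ} (h : n < p) : g ^ p ∈ Za p G n := by
  have : CharP (MonoidAlgebra (ZMod p) G) p :=
    charP_of_injective_algebraMap (R := ZMod p) (algebraMap (ZMod p) _).injective p
  have e := sub_pow_char_of_commute p (Commute.one_right (MonoidAlgebra.of (ZMod p) G g))
  have h2 := Submodule.pow_mem_pow _ (gen_mem (p := p) g) p
  rw [e, one_pow, ← map_pow] at h2
  obtain ⟨q, hq⟩ : ∃ q, p = q + 1 := ⟨p - 1, by omega⟩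
  refine au_le (show n ≤ q by omega) ?_
  rwa [← hq]

end Pool.Agent.MP_ab7c65_al.PF

end
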